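import Pool.Agent.Helper36_RF.GeoSt

/-!
# Basic facts on Christoffel symbols (module CHR)
-/

noncomputable section

open scoped ContDiff Topology RealInnerProductSpace
set_option maxSynthPendingDepth 3
set_option linter.unusedSectionVars false
open Set

namespace Pool.Agent.RF

variable {ι : Type} [Fintype ι] [DecidableEq ι] {G : E ι → Bil (E ι)} {U : Set (E ι)}

theorem isInvertible_of_pos (b : Bil (E ι)) (h : ∀ v, v ≠ 0 → 0 < b v v) :
    ContinuousLinearMap.IsInvertible (b : E ι →L[ℝ] (E ι →L[ℝ] ℝ)) := by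
  have hinj : Function.Injective (b : E ι →ₗ[ℝ] (E ι →L[ℝ] ℝ)) := by
    rw [injective_iff_map_eq_zero]
    intro v hv
    by_contra hne
    have h1 := h v hne
    have h2 : b v = 0 := hv
    rw [h2] at h1
    simp at h1
  have hdim : Module.finrank ℝ (E ι) = Module.finrank ℝ (E ι →L[ℝ] ℝ) := by
    have e : (E ι →ₗ[ℝ] ℝ) ≃ₗ[ℝ] (E ι →L[ℝ] ℝ) := LinearMap.toContinuousLinearMap
    rw [← e.finrank_eq]
    exact (Subspace.dual_finrank_eq (K := ℝ) (V := E ι)).symm
  refine ⟨(LinearEquiv.ofInjectiveOfFinrankEq (b : E ι →ₗ[ℝ] (E ι →L[ℝ] ℝ)) hinj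
    hdim).toContinuousLinearEquiv, ?_⟩
  apply ContinuousLinearMap.ext
  intro v
  show (LinearEquiv.ofInjectiveOfFinrankEq (b : E ι →ₗ[ℝ] (E ι →L[ℝ] ℝ)) hinj hdim) v = b v
  rfl

namespace IsMetricOn

variable (h : IsMetricOn G U)
include h

theorem inv {x : E ι} (hx : x ∈ U) : ContinuousLinearMap.IsInvertible (G x) :=
  isInvertible_of_pos (G x) (h.pos x hx)

theorem diffAt {x : E ι} (hx : x ∈ U) : DifferentiableAt ℝ G x :=
  ((h.smooth x hx).contDiffAt (h.isOpen.mem_nhds hx)).differentiableAt (by simp)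

theorem contDiffAt {x : E ι} (hx : x ∈ U) : ContDiffAt ℝ ∞ G x :=
  (h.smooth x hx).contDiffAt (h.isOpen.mem_nhds hx)

theorem ext {x : E ι} (hx : x ∈ U) {v w : E ι} (hvw : ∀ z, G x v z = G x w z) : v = w := by
  apply (h.inv hx).injective
  ext z
  exact hvw z

theorem chris_spec {x : E ι} (hx : x ∈ U) (v w z : E ι) : G x (chris G x v w) z =
    (1/2 : ℝ) * (fderiv ℝ G x v w z + fderiv ℝ G x w v z - fderiv ℝ G x z v w) := by
  have := (h.inv hx).self_apply_inverse (kos (fderiv ℝ G x) v w)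
  unfold chris
  rw [this, kos_apply]

/-- characterisation of the Christoffel symbols -/
theorem chris_eq_iff {x : E ι} (hx : x ∈ U) (v w c : E ι) : chris G x v w = c ↔
    ∀ z, G x c z =
    (1/2 : ℝ) * (fderiv ℝ G x v w z + fderiv ℝ G x w v z - fderiv ℝ G x z v w) := by
  constructor
  · rintro rfl z
    exact h.chris_spec hx v w z
  · intro hc
    apply h.ext hx
    intro z
    rw [hc, h.chris_spec hx]

theorem fderiv_symm {x : E ι} (hx : x ∈ U) (z v w : E ι) :
    fderiv ℝ G x z v w = fderiv ℝ G x z w v := by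
  have h1 : ∀ a b : E ι, HasFDerivAt (fun y => G y a b)
      (((ContinuousLinearMap.apply ℝ ℝ b).comp (ContinuousLinearMap.apply ℝ (E ι →L[ℝ] ℝ) a)).comp
        (fderiv ℝ G x)) x := by
    intro a b
    exact ((((ContinuousLinearMap.apply ℝ ℝ b).comp
      (ContinuousLinearMap.apply ℝ (E ι →L[ℝ] ℝ) a)).hasFDerivAt).comp x
        (h.diffAt hx).hasFDerivAt)
  have h2 : (fun y => G y v w) =ᶠ[𝓝 x] (fun y => G y w v) := by
    filter_upwards [h.isOpen.mem_nhds hx] with y hy
    exact h.symm y hy v w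
  have h3 := ((h1 v w).congr_of_eventuallyEq h2.symm).unique (h1 w v)
  have h4 := congrArg (fun L : E ι →L[ℝ] ℝ => L z) h3
  simpa using h4

theorem chris_symm {x : E ι} (hx : x ∈ U) (v w : E ι) : chris G x v w = chris G x w v := by
  rw [h.chris_eq_iff hx]
  intro z
  rw [h.chris_spec hx, h.fderiv_symm hx z v w]
  ring

end IsMetricOn

theorem chris_add_left (G : E ι → Bil (E ι)) (x v v' w : E ι) :
    chris G x (v + v') w = chris G x v w + chris G x v' w := by
  unfold chris
  rw [← map_add]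
  congr 1
  ext z
  simp only [kos_apply, map_add, _root_.add_apply]
  ring

theorem chris_smul_left (G : E ι → Bil (E ι)) (x : E ι) (c : ℝ) (v w : E ι) :
    chris G x (c • v) w = c • chris G x v w := by
  unfold chris
  rw [← map_smul]
  congr 1
  ext z
  simp only [kos_apply, map_smul, _root_.smul_apply, smul_eq_mul]
  ring

theorem chris_add_right (G : E ι → Bil (E ι)) (x v w w' : E ι) :
    chris G x v (w + w') = chris G x v w + chris G x v w' := by
  unfold chris
  rw [← map_add]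
  congr 1
  ext z
  simp only [kos_apply, map_add, _root_.add_apply]
  ring

theorem chris_smul_right (G : E ι → Bil (E ι)) (x : E ι) (c : ℝ) (v w : E ι) :
    chris G x v (c • w) = c • chris G x v w := by
  unfold chris
  rw [← map_smul]
  congr 1
  ext z
  simp only [kos_apply, map_smul, _root_.smul_apply, smul_eq_mul]
  ring

/-- `kos` as a linear map in all arguments -/
theorem IsMetricOn.contDiffOn_chris (h : IsMetricOn G U) :
    ContDiffOn ℝ ∞ (fun q : E ι × E ι × E ι => chris G q.1 q.2.1 q.2.2) (U ×ˢ univ) := by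
  have hG : ContDiffOn ℝ ∞ (fun q : E ι × E ι × E ι => G q.1) (U ×ˢ univ) :=
    h.smooth.comp contDiffOn_fst (fun q hq => hq.1)
  have hD : ContDiffOn ℝ ∞ (fun q : E ι × E ι × E ι => fderiv ℝ G q.1) (U ×ˢ univ) :=
    (h.smooth.fderiv_of_isOpen h.isOpen (by simp)).comp contDiffOn_fst (fun q hq => hq.1)
  have hv : ContDiffOn ℝ ∞ (fun q : E ι × E ι × E ι => q.2.1) (U ×ˢ univ) :=
    (contDiff_fst.comp contDiff_snd).contDiffOn
  have hw : ContDiffOn ℝ ∞ (fun q : E ι × E ι × E ι => q.2.2) (U ×ˢ univ) :=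
    (contDiff_snd.comp contDiff_snd).contDiffOn
  have hinv : ContDiffOn ℝ ∞ (fun q : E ι × E ι × E ι => (G q.1).inverse) (U ×ˢ univ) := by
    intro q hq
    exact ((h.inv hq.1).contDiffAt_map_inverse).comp_contDiffWithinAt q (hG q hq)
  have h3 : ContDiffOn ℝ ∞ (fun q : E ι × E ι × E ι =>
      (((ContinuousLinearMap.apply ℝ ℝ q.2.2).comp
        ((ContinuousLinearMap.apply ℝ (E ι →L[ℝ] ℝ) q.2.1).comp (fderiv ℝ G q.1))) :
          E ι →L[ℝ] ℝ)) (U ×ˢ univ) := by
    apply ContDiffOn.clm_comp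
    · exact ((ContinuousLinearMap.apply ℝ ℝ : E ι →L[ℝ] _).contDiff.comp_contDiffOn hw)
    · apply ContDiffOn.clm_comp _ hD
      exact ((ContinuousLinearMap.apply ℝ (E ι →L[ℝ] ℝ) : E ι →L[ℝ] _).contDiff.comp_contDiffOn hv)
  have hk : ContDiffOn ℝ ∞ (fun q : E ι × E ι × E ι => kos (fderiv ℝ G q.1) q.2.1 q.2.2)
      (U ×ˢ univ) := by
    unfold kos
    apply ContDiffOn.const_smul
    apply ContDiffOn.sub _ h3
    exact ((hD.clm_apply hv).clm_apply hw).add ((hD.clm_apply hw).clm_apply hv)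
  exact hinv.clm_apply hk

theorem IsMetricOn.contDiffOn_chris' (h : IsMetricOn G U) (v w : E ι) :
    ContDiffOn ℝ ∞ (fun y => chris G y v w) U := by
  have := h.contDiffOn_chris.comp (s := U) (f := fun y : E ι => (y, v, w))
    (contDiffOn_id.prodMk contDiffOn_const) (fun y hy => ⟨hy, trivial⟩)
  exact this

theorem IsMetricOn.diffAt_chris (h : IsMetricOn G U) {x : E ι} (hx : x ∈ U) (v w : E ι) :
    DifferentiableAt ℝ (fun y => chris G y v w) x :=
  (((h.contDiffOn_chris' v w) x hx).contDiffAt (h.isOpen.mem_nhds hx)).differentiableAt (by simp)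

theorem chrStatement : ChrStatement := by
  intro ι _ _ G U h x hx
  exact ⟨h.inv hx, h.chris_spec hx, fun v w z => h.fderiv_symm hx z v w, h.chris_symm hx,
    chris_add_left G x, chris_smul_left G x, h.contDiffOn_chris⟩

/-- curvature only depends on the germ of the metric -/
theorem chris_congr {G H : E ι → Bil (E ι)} {x : E ι} (h : G =ᶠ[𝓝 x] H) (v w : E ι) :
    chris G x v w = chris H x v w := by
  unfold chris
  rw [h.fderiv_eq, h.eq_of_nhds]

theorem riem_congr {G H : E ι → Bil (E ι)} {x : E ι} (h : G =ᶠ[𝓝 x] H) (u v w : E ι) :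
    riem G x u v w = riem H x u v w := by
  have h1 : ∀ a b : E ι, (fun y => chris G y a b) =ᶠ[𝓝 x] (fun y => chris H y a b) := by
    intro a b
    filter_upwards [h.eventuallyEq_nhds] with y hy
    exact chris_congr hy a b
  unfold riem
  simp only [chris_congr h, (h1 _ _).fderiv_eq]

theorem ric_congr {G H : E ι → Bil (E ι)} {x : E ι} (h : G =ᶠ[𝓝 x] H) (v w : E ι) :
    ric G x v w = ric H x v w := by
  unfold ric
  simp only [riem_congr h]

end Pool.Agent.RF
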