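import Pool.Agent.Helper36_RF.Geo

/-!
# Statements of the geometry modules (MP_a23110_gt squad, helper36)

Every `...Statement : Prop` below is a self-contained module: prove it in your own file.
-/

noncomputable section

open scoped ContDiff Topology RealInnerProductSpace
set_option maxSynthPendingDepth 3
open Set

namespace Pool.Agent.RF

/-- G1: basic facts on Christoffel symbols. -/
def ChrStatement : Prop :=
  ∀ (ι : Type) [Fintype ι] [DecidableEq ι] (G : E ι → Bil (E ι)) (U : Set (E ι)),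
    IsMetricOn G U → ∀ x ∈ U,
      (G x).IsInvertible ∧
      (∀ v w z, G x (chris G x v w) z =
        (1/2 : ℝ) * (fderiv ℝ G x v w z + fderiv ℝ G x w v z - fderiv ℝ G x z v w)) ∧
      (∀ v w z, fderiv ℝ G x z v w = fderiv ℝ G x z w v) ∧
      (∀ v w, chris G x v w = chris G x w v) ∧
      (∀ v v' w, chris G x (v + v') w = chris G x v w + chris G x v' w) ∧
      (∀ (c : ℝ) v w, chris G x (c • v) w = c • chris G x v w) ∧
      ContDiffOn ℝ ∞ (fun q : E ι × E ι × E ι => chris G q.1 q.2.1 q.2.2) (U ×ˢ univ)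

/-- G8: symmetries of the curvature tensor, the Ricci tensor and the Ricci-DeTurck operator. -/
def SymStatement : Prop :=
  ∀ (ι : Type) [Fintype ι] [DecidableEq ι] (G : E ι → Bil (E ι)) (U : Set (E ι)),
    IsMetricOn G U → ∀ x ∈ U,
      (∀ u v w, riem G x u v w = - riem G x v u w) ∧
      (∀ u v w, riem G x u v w + riem G x v w u + riem G x w u v = 0) ∧
      (∀ u v w z, G x (riem G x u v w) z = - G x (riem G x u v z) w) ∧
      (∀ u v w z, G x (riem G x u v w) z = G x (riem G x w z u) v) ∧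
      (∀ v w, ric G x v w = ric G x w v) ∧
      (∀ v w, rdt G x v w = rdt G x w v)

/-- G2: naturality of the curvature tensor under affine (totally geodesic) maps. -/
def NatStatement : Prop :=
  ∀ (ι κ : Type) [Fintype ι] [DecidableEq ι] [Fintype κ] [DecidableEq κ]
    (G : E κ → Bil (E κ)) (H : E ι → Bil (E ι)) (ψ : E κ → E ι) (U : Set (E κ)) (U' : Set (E ι)),
    IsMetricOn G U → IsMetricOn H U' → ContDiffOn ℝ ∞ ψ U → MapsTo ψ U U' → StarOn G H ψ U →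
    ∀ y ∈ U, ∀ u v w, fderiv ℝ ψ y (riem G y u v w) =
      riem H (ψ y) (fderiv ℝ ψ y u) (fderiv ℝ ψ y v) (fderiv ℝ ψ y w)

/-- G3: pullback by a local diffeomorphism. -/
def DiffeoStatement : Prop :=
  ∀ (ι κ : Type) [Fintype ι] [DecidableEq ι] [Fintype κ] [DecidableEq κ]
    (H : E ι → Bil (E ι)) (ψ : E κ → E ι) (U : Set (E κ)) (U' : Set (E ι)),
    IsMetricOn H U' → IsOpen U → ContDiffOn ℝ ∞ ψ U → MapsTo ψ U U' →
    (∀ y ∈ U, (fderiv ℝ ψ y).IsInvertible) →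
    IsMetricOn (pullb H ψ) U ∧ StarOn (pullb H ψ) H ψ U ∧
    ∀ y ∈ U, ∀ v w, ric (pullb H ψ) y v w = ric H (ψ y) (fderiv ℝ ψ y v) (fderiv ℝ ψ y w)

/-- G4a: the radial field of a cylinder metric is parallel. -/
def CylStatement : Prop :=
  ∀ (ι : Type) [Fintype ι] [DecidableEq ι] (H : E ι → Bil (E ι)), IsCyl H →
    ∀ x ∈ Om ι,
      (∀ v, chris H x v x = - v) ∧
      (∀ v w, riem H x x v w = 0) ∧
      (∀ u v, riem H x u v x = 0) ∧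
      (∀ w, ric H x x w = 0) ∧ (∀ w, ric H x w x = 0) ∧
      (∀ (c : ℝ), 0 < c → ∀ v w, chris H (c • x) v w = c⁻¹ • chris H x v w) ∧
      (∀ (c : ℝ), 0 < c → ∀ v w, ric H (c • x) v w = (c ^ 2)⁻¹ * ric H x v w)

/-- G4b: slices of the cylinder (local parametrizations of the unit sphere) are totally geodesic;
the curvature operator of the second kind and the Ricci tensor can be computed upstairs. -/
def SliceStatement : Prop :=
  ∀ (ι κ : Type) [Fintype ι] [DecidableEq ι] [Fintype κ] [DecidableEq κ]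
    (H : E ι → Bil (E ι)) (ψ : E κ → E ι) (U : Set (E κ)),
    Fintype.card ι = Fintype.card κ + 1 →
    IsCyl H → IsOpen U → ContDiffOn ℝ ∞ ψ U → (∀ y ∈ U, ‖ψ y‖ = 1) →
    (∀ y ∈ U, Function.Injective (fderiv ℝ ψ y)) →
    IsMetricOn (pullb H ψ) U ∧ StarOn (pullb H ψ) H ψ U ∧
    ∀ y ∈ U,
      (∀ v w, ric (pullb H ψ) y v w = ric H (ψ y) (fderiv ℝ ψ y v) (fderiv ℝ ψ y w)) ∧
      (PosSK (pullb H ψ) y ↔ PosTan κ H (ψ y)) ∧
      (NonnegSK (pullb H ψ) y ↔ NonnegTan κ H (ψ y))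

/-- G5: structure of the Ricci-DeTurck operator. -/
def RdtStructureStatement : Prop :=
  ∀ (ι : Type) [Fintype ι] [DecidableEq ι],
    ∃ Φ : E ι × Bil (E ι) × (E ι →L[ℝ] Bil (E ι)) → Bil (E ι),
      ContDiffOn ℝ ∞ Φ {q | q.1 ≠ 0 ∧ q.2.1.IsInvertible} ∧
      ∀ (G : E ι → Bil (E ι)) (U : Set (E ι)), IsMetricOn G U → U ⊆ Om ι →
        ∀ x ∈ U, ∀ v w, rdt G x v w =
          ∑ k, ∑ l, ginv (G x) k l * (fderiv ℝ (fderiv ℝ G) x (eb k) (eb l) v w)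
            + Φ (x, G x, fderiv ℝ G x) v w

/-- G6a: the Ricci-DeTurck operator preserves cylinders. -/
def RdtCylStatement : Prop :=
  ∀ (ι : Type) [Fintype ι] [DecidableEq ι] (G : E ι → Bil (E ι)), IsCyl G →
    ContDiffOn ℝ ∞ (dtW G) (Om ι) ∧
    ∀ x ∈ Om ι,
      ⟪x, dtW G x⟫ = 0 ∧ (∀ c : ℝ, 0 < c → dtW G (c • x) = c • dtW G x) ∧
      (∀ w, rdt G x x w = 0) ∧ (∀ w, rdt G x w x = 0) ∧
      (∀ c : ℝ, 0 < c → ∀ v w, rdt G (c • x) v w = (c ^ 2)⁻¹ * rdt G x v w)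

/-- G6b: the Ricci-DeTurck operator commutes with rotations. -/
def RdtRotStatement : Prop :=
  ∀ (ι : Type) [Fintype ι] [DecidableEq ι] (G : E ι → Bil (E ι)) (R : E ι ≃ₗᵢ[ℝ] E ι),
    IsMetricOn G (Om ι) →
    IsMetricOn (pullb G R) (Om ι) ∧
    ∀ x ∈ Om ι, ∀ v w, rdt (pullb G R) x v w = rdt G (R x) (R v) (R w)

/-- Joint smoothness of a spatially smooth solution of an evolution equation. -/
def JointSmoothStatement : Prop :=
  ∀ (X Y : Type) [NormedAddCommGroup X] [NormedSpace ℝ X] [FiniteDimensional ℝ X]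
    [NormedAddCommGroup Y] [NormedSpace ℝ Y] [FiniteDimensional ℝ Y]
    (T : ℝ) (U : Set X) (u : ℝ → X → Y)
    (O : Set (X × Y × (X →L[ℝ] Y) × (X →L[ℝ] X →L[ℝ] Y)))
    (Φ : ℝ × X × Y × (X →L[ℝ] Y) × (X →L[ℝ] X →L[ℝ] Y) → Y),
    0 < T → IsOpen U → IsOpen O → ContDiffOn ℝ ∞ Φ (Icc 0 T ×ˢ O) →
    (∀ t ∈ Icc 0 T, ContDiffOn ℝ ∞ (u t) U) →
    (∀ k : ℕ, ContinuousOn (fun p : ℝ × X => iteratedFDeriv ℝ k (u p.1) p.2) (Icc 0 T ×ˢ U)) →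
    (∀ t ∈ Icc 0 T, ∀ x ∈ U,
      (x, u t x, fderiv ℝ (u t) x, fderiv ℝ (fderiv ℝ (u t)) x) ∈ O) →
    (∀ t ∈ Icc 0 T, ∀ x ∈ U, HasDerivWithinAt (fun s => u s x)
      (Φ (t, x, u t x, fderiv ℝ (u t) x, fderiv ℝ (fderiv ℝ (u t)) x)) (Icc 0 T) t) →
    ContDiffOn ℝ ∞ (fun p : ℝ × X => u p.1 p.2) (Icc 0 T ×ˢ U)

/-- Smooth flows of tangential homogeneous vector fields. -/
def FlowStatement : Prop :=
  ∀ (ι : Type) [Fintype ι] [DecidableEq ι] (T : ℝ) (W : ℝ → E ι → E ι), 0 < T →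
    ContDiffOn ℝ ∞ (fun p : ℝ × E ι => W p.1 p.2) (Icc 0 T ×ˢ Om ι) →
    (∀ t ∈ Icc 0 T, ∀ x ∈ Om ι, ⟪x, W t x⟫ = 0) →
    (∀ t ∈ Icc 0 T, ∀ c : ℝ, 0 < c → ∀ x ∈ Om ι, W t (c • x) = c • W t x) →
    ∃ φ : ℝ → E ι → E ι,
      ContDiffOn ℝ ∞ (fun p : ℝ × E ι => φ p.1 p.2) (Icc 0 T ×ˢ Om ι) ∧
      (∀ x ∈ Om ι, φ 0 x = x) ∧
      (∀ t ∈ Icc 0 T, ∀ x ∈ Om ι,
        HasDerivWithinAt (fun s => φ s x) (- W t (φ t x)) (Icc 0 T) t) ∧
      (∀ t ∈ Icc 0 T, ∀ x ∈ Om ι, ‖φ t x‖ = ‖x‖) ∧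
      (∀ t ∈ Icc 0 T, ∀ c : ℝ, 0 < c → ∀ x ∈ Om ι, φ t (c • x) = c • φ t x) ∧
      (∀ t ∈ Icc 0 T, ∀ x ∈ Om ι, (fderiv ℝ (φ t) x).IsInvertible) ∧
      (∀ t ∈ Icc 0 T, ∀ y ∈ Om ι, ∃ x ∈ Om ι, φ t x = y)

/-- DeTurck's trick: a Ricci-DeTurck flow of cylinders gives a Ricci flow of cylinders with the
same initial metric, isometric at each time. -/
def DeTurckStatement : Prop :=
  ∀ (ι κ : Type) [Fintype ι] [DecidableEq ι] [Fintype κ] [DecidableEq κ] (T : ℝ)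
    (G : ℝ → E ι → Bil (E ι)), Fintype.card ι = Fintype.card κ + 1 → 0 < T → IsRDT T G →
    ∃ (H : ℝ → E ι → Bil (E ι)) (φ : ℝ → E ι → E ι), IsRF T H ∧
      (∀ x ∈ Om ι, H 0 x = G 0 x) ∧
      (∀ t ∈ Icc 0 T, ∀ y ∈ Om ι, ‖y‖ = 1 → ∃ x ∈ Om ι, ‖x‖ = 1 ∧ φ t x = y) ∧
      (∀ t ∈ Icc 0 T, ∀ x ∈ Om ι, ‖x‖ = 1 →
        (NonnegTan κ (H t) x ↔ NonnegTan κ (G t) (φ t x)) ∧
        (PosTan κ (H t) x ↔ PosTan κ (G t) (φ t x)))

end Pool.Agent.RF
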