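import Pool.Agent.Helper36_RF.Rot
import Pool.Agent.Helper36_RF.GeoSt

/-!
# Statements on the existence of the Ricci-DeTurck flow (helper36, MP_a23110_gt)
-/

noncomputable section

open scoped ContDiff Topology RealInnerProductSpace
set_option maxSynthPendingDepth 3
open Set

namespace Pool.Agent.RF

/-- the defining property of the functions `c, Gf` (see `QStrStatement`) -/
def IsQ (ι : Type) [Fintype ι] [DecidableEq ι]
    (c : E ι × Bil (E ι) → (ι × ι → ι × ι → Bil (E ι)) →L[ℝ] Bil (E ι))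
    (Gf : E ι × Bil (E ι) × (ι × ι → Bil (E ι)) → Bil (E ι)) (r C : ℝ) : Prop :=
  ContDiff ℝ ∞ c ∧ ContDiff ℝ ∞ Gf ∧ 0 < r ∧
  (∀ x u, ‖x‖ = 1 → ‖u - del ι‖ ≤ r → ‖c (x, u)‖ ≤ C * ‖u - del ι‖) ∧
  ∀ u : E ι → Bil (E ι), IsMetricOn u (Om ι) → Homog u →
    ∀ x, ‖x‖ = 1 → ‖u x - del ι‖ ≤ r → ∀ v w, rdt u x v w =
      ((∑ a, lieX (Jst a) (lieX (Jst a) u) x)
        + c (x, u x) (fun a b => lieX (Jst a) (lieX (Jst b) u) x)
        + Gf (x, u x, fun a => lieX (Jst a) u x)) v w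

/-- N9: rotation equivariance of the nonlinearity on `C²` vectors.  (Hint: `rdt` is equivariant on
smooth fields by `RdtRotStatement`; approximate a `C²` vector by finite vectors, `Heat.approx`.) -/
def EquivStatement : Prop :=
  ∀ (ι : Type) [Fintype ι] [DecidableEq ι]
    (R : RotSys C(Sph ι, Bil (E ι)) (Gam ι) (ι × ι)) (_ : Heat R), IsRotSys R →
    ∀ (c : E ι × Bil (E ι) → (ι × ι → ι × ι → Bil (E ι)) →L[ℝ] Bil (E ι))
      (Gf : E ι × Bil (E ι) × (ι × ι → Bil (E ι)) → Bil (E ι)) (r C : ℝ),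
      IsQ ι c Gf r C → r < 1 →
    ∀ (w : C(Sph ι, Bil (E ι))) (wa : ι × ι → C(Sph ι, Bil (E ι)))
      (wab : ι × ι → ι × ι → C(Sph ι, Bil (E ι))),
      (∀ a, R.HasGen (R.J a) w (wa a)) → (∀ a b, R.HasGen (R.J a) (wa b) (wab a b)) →
      (∀ x v v', w x v v' = w x v' v) → (∀ x, ‖w x - del ι‖ < r) →
    ∀ (J : Gam ι) (s : ℝ), ∃ (wa' : ι × ι → C(Sph ι, Bil (E ι)))
      (wab' : ι × ι → ι × ι → C(Sph ι, Bil (E ι))) (n n' : C(Sph ι, Bil (E ι))),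
      (∀ a, R.HasGen (R.J a) (R.T J s w) (wa' a)) ∧
      (∀ a b, R.HasGen (R.J a) (wa' b) (wab' a b)) ∧
      (∀ x, n x = (∑ a, wab a a x) + c ((x : E ι), w x) (fun a b => wab a b x)
        + Gf ((x : E ι), w x, fun a => wa a x)) ∧
      (∀ x, n' x = (∑ a, wab' a a x) + c ((x : E ι), R.T J s w x) (fun a b => wab' a b x)
        + Gf ((x : E ι), R.T J s w x, fun a => wa' a x)) ∧
      n' = R.T J s n

/-- Local existence for the Ricci-DeTurck flow of cylinder metrics close to the round one,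
with continuous dependence on a parameter. -/
def ExistStatement : Prop :=
  ∀ (ι : Type) [Fintype ι] [DecidableEq ι], 2 ≤ Fintype.card ι →
    ∃ r : ℝ, 0 < r ∧ ∀ (u : ℝ → E ι → Bil (E ι)) (ε₀ : ℝ), 0 < ε₀ →
      (∀ ε ∈ Icc 0 ε₀, IsCyl (u ε)) →
      ContDiffOn ℝ ∞ (fun q : ℝ × E ι => u q.1 q.2) (univ ×ˢ Om ι) →
      (∀ x, ‖x‖ = 1 → ‖u 0 x - del ι‖ < r) →
      ∃ (T ε₁ : ℝ) (G : ℝ → ℝ → E ι → Bil (E ι)), 0 < T ∧ ε₁ ∈ Ioc 0 ε₀ ∧
        (∀ ε ∈ Icc 0 ε₁, IsRDT T (G ε) ∧ ∀ x ∈ Om ι, G ε 0 x = u ε x) ∧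
        ∀ t ∈ Icc 0 T, ∀ x ∈ Om ι, ContinuousWithinAt
          (fun ε => (G ε t x, fderiv ℝ (G ε t) x, fderiv ℝ (fderiv ℝ (G ε t)) x)) (Icc 0 ε₁) 0

end Pool.Agent.RF
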