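import Pool.Agent.Helper36_RF.MainMod
import Pool.Agent.Helper36_RF.ExistSt
import Pool.Agent.Helper36_RF.Chr

/-!
# The final assembly (helper36, MP_a23110_gt)
-/

noncomputable section

open scoped ContDiff Topology RealInnerProductSpace Manifold
set_option maxSynthPendingDepth 3
set_option linter.unusedSectionVars false
open Set

namespace Pool.Agent.RF

theorem skf_congr {ι κ : Type} [Fintype ι] [DecidableEq ι] [Fintype κ] [DecidableEq κ]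
    {G H : E ι → Bil (E ι)} {x : E ι} (h : G =ᶠ[𝓝 x] H) (e : κ → E ι) (φ : Matrix κ κ ℝ) :
    skf G x e φ = skf H x e φ := by
  unfold skf
  have h1 : G x = H x := h.eq_of_nhds
  simp only [riem_congr h, h1]

theorem posTan_congr {ι κ : Type} [Fintype ι] [DecidableEq ι] [Fintype κ] [DecidableEq κ]
    {G H : E ι → Bil (E ι)} {x : E ι} (h : G =ᶠ[𝓝 x] H) (hG : PosTan κ G x) : PosTan κ H x := by
  intro e he ho φ h1 h2 h3
  rw [← skf_congr h]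
  refine hG e he ?_ φ h1 h2 h3
  rw [h.eq_of_nhds]
  exact ho

theorem isOpen_Om' (ι : Type) [Fintype ι] : IsOpen (Om ι) := isOpen_ne

theorem final (hEx : ExistStatement) (hDT : DeTurckStatement') (hOpen : OpenStatement)
    (hCrit : CritStatement) (hInit : InitStatement) (hGsm : GsmStatement) (hMan : ManStatement)
    (hZ : ZornStatement) (hFam : FamStatement) (hCyl : CylExStatement) : FinalStatement := by
  intro n hn
  obtain ⟨p, rfl⟩ : ∃ p, n = p + 3 := ⟨n - 3, by omega⟩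
  have hp : 2 ≤ p := by omega
  have hcard : Fintype.card (Option (Fin p) ⊕ Fin 3) = Fintype.card (Fin p ⊕ Fin 3) + 1 := by
    rw [Fintype.card_sum, Fintype.card_option, Fintype.card_sum, Fintype.card_fin,
      Fintype.card_fin]
  have hfin : Module.finrank ℝ (E (Option (Fin p) ⊕ Fin 3)) = p + 3 + 1 := by
    rw [finrank_euclideanSpace, Fintype.card_sum, Fintype.card_option, Fintype.card_fin,
      Fintype.card_fin]
  have hFact : Fact (Module.finrank ℝ (E (Option (Fin p) ⊕ Fin 3)) = p + 3 + 1) := ⟨hfin⟩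
  obtain ⟨r, hr, hE⟩ := hEx (Option (Fin p) ⊕ Fin 3) (by
    rw [Fintype.card_sum, Fintype.card_option, Fintype.card_fin, Fintype.card_fin]
    omega)
  obtain ⟨F₁, F₂, ρ₁, ε₀, ρ₂, K, A0, m0, ν, s1, s2, hρ₁, hρ₁', hε₀, z1, z2, b1, b2, p1, p2, hpc,
    hρ₂, hK, hA0, hη, hA, hf, hft⟩ := hFam p hp (r / 4) (by positivity)
  have hyp : ∀ ε ∈ Icc 0 ε₀, ExHyp (F₁ ε) F₂ ρ₁ := fun ε hε =>
    ⟨s1.comp (contDiff_const.prodMk contDiff_id), s2, hρ₁', z1 ε, z2, p1 ε hε, p2⟩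
  have hcyl : ∀ ε ∈ Icc 0 ε₀, IsCyl (Gcyl (F₁ ε) F₂ : E (Option (Fin p) ⊕ Fin 3) → _) :=
    fun ε hε => (hCyl (Fin p) (Fin 3) (F₁ ε) F₂ ρ₁ (hyp ε hε).s1 s2 hρ₁' (z1 ε) z2 (p1 ε hε) p2).1
  have h0mem : (0:ℝ) ∈ Icc 0 ε₀ := ⟨le_rfl, hε₀.le⟩
  have hbd : ∀ x : E (Option (Fin p) ⊕ Fin 3), ‖x‖ = 1 → ‖Gcyl (F₁ 0) F₂ x - del _‖ < r := by
    intro x hx
    have := (hCyl (Fin p) (Fin 3) (F₁ 0) F₂ ρ₁ (hyp 0 h0mem).s1 s2 hρ₁' (z1 0) z2 (p1 0 h0mem)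
      p2).2.2.2.2 (r / 4) (r / 4) (b1 0 h0mem) b2 x hx
    linarith
  obtain ⟨T, ε₁, G, hT, hε₁, hG, hcont⟩ := hE (fun ε => Gcyl (F₁ ε) F₂) ε₀ hε₀ hcyl
    (hGsm (Fin p) (Fin 3) F₁ F₂ s1 s2) hbd
  have h0mem' : (0:ℝ) ∈ Icc 0 ε₁ := ⟨le_rfl, hε₁.1.le⟩
  obtain ⟨t, ht, x, hx, hneg⟩ := hCrit p (F₁ 0) F₂ ρ₁ ρ₂ K A0 m0 ν T (G 0) hp (hyp 0 h0mem) hρ₂
    hK hA0 hη hA hf hft hT (hG 0 h0mem').1 (hG 0 h0mem').2
  have htI : t ∈ Icc 0 T := ⟨ht.1.le, ht.2.le⟩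
  have hxO : x ∈ Om (Option (Fin p) ⊕ Fin 3) := by
    intro h0
    rw [h0, norm_zero] at hx
    exact zero_ne_one hx
  obtain ⟨ε, hε, hneg'⟩ := hOpen (Option (Fin p) ⊕ Fin 3) (Fin p ⊕ Fin 3) ε₁ (fun ε => G ε t) x
    hcard hε₁.1 hxO (fun ε hε => (hG ε hε).1.cyl t htI) (hcont t htI x hxO) hneg
  have hεI : ε ∈ Icc 0 ε₁ := ⟨hε.1.le, hε.2⟩
  have hε0 : ε ∈ Ioc 0 ε₀ := ⟨hε.1, hε.2.trans hε₁.2⟩
  obtain ⟨H, φ, hRF, hH0, hφ, hsurj, hiff⟩ := hDT (Option (Fin p) ⊕ Fin 3) (Fin p ⊕ Fin 3) T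
    (G ε) hcard hT (hG ε hεI).1
  obtain ⟨x', hx', hx'1, hφx⟩ := hsurj t htI x hxO hx
  have hnegH : ¬ NonnegTan (Fin p ⊕ Fin 3) (H t) x' := by
    intro h
    apply hneg'
    have := (hiff t htI x' hx' hx'1).1.1 h
    rwa [hφx] at this
  have hpos : ∀ y, ‖y‖ = 1 → PosTan (Fin p ⊕ Fin 3) (H 0) y := by
    intro y hy
    have hyO : y ∈ Om (Option (Fin p) ⊕ Fin 3) := by
      intro h0
      rw [h0, norm_zero] at hy
      exact zero_ne_one hy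
    have h1 := hInit p (F₁ ε) F₂ ρ₁ hp (hyp ε ⟨hε0.1.le, hε0.2⟩) (hpc ε hε0) y hy
    refine posTan_congr ?_ h1
    filter_upwards [(isOpen_Om' _).mem_nhds hyO] with z hz
    rw [hH0 z hz, (hG ε hεI).2 z hz]
  obtain ⟨m1, m2, m3⟩ := hMan (Option (Fin p) ⊕ Fin 3) (Fin p ⊕ Fin 3) (p + 3) T t H x' hcard hRF
    ht hpos hx'1 hnegH
  obtain ⟨T', g', hT', hmax, hext⟩ := hZ (p + 3) _ T _ hT m1
  have h0T : (0:ℝ) ∈ Ico 0 T := ⟨le_rfl, hT⟩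
  refine ⟨Option (Fin p) ⊕ Fin 3, inferInstance, hFact, T', g', ?_, hmax, ?_, t, ht.1, ?_, ?_⟩
  · exact lt_of_lt_of_le (by exact_mod_cast hT) hT'
  · rw [hext 0 h0T]
    exact m2
  · exact lt_of_lt_of_le (by exact_mod_cast ht.2) hT'
  · rw [hext t ⟨ht.1.le, ht.2⟩]
    exact m3

end Pool.Agent.RF
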