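import Pool.Agent.Helper36_RF.Crit
import Pool.Agent.Helper36_RF.Final

/-!
# Module MAN (helper36, MP_a23110_gt)
-/

noncomputable section

open scoped ContDiff Topology RealInnerProductSpace Manifold
set_option maxSynthPendingDepth 3
set_option linter.unusedSectionVars false
open Set

namespace Pool.Agent.RF

section Reindex

variable {ι κ κ' : Type} [Fintype ι] [DecidableEq ι] [Fintype κ] [DecidableEq κ] [Fintype κ']
  [DecidableEq κ']

theorem skf_reindex (G : E ι → Bil (E ι)) (x : E ι) (e : κ ≃ κ') (f : κ' → E ι)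
    (φ : Matrix κ' κ' ℝ) : skf G x (fun i => f (e i)) (φ.submatrix e e) = skf G x f φ := by
  unfold skf
  simp only [Matrix.submatrix_apply]
  rw [Equiv.sum_comp e (fun i' => ∑ j, ∑ k, ∑ l,
    G x (riem G x (f i') (f (e k)) (f (e j))) (f (e l)) * φ (e k) (e l) * φ i' (e j))]
  refine Finset.sum_congr rfl fun i _ => ?_
  rw [Equiv.sum_comp e (fun j' => ∑ k, ∑ l,
    G x (riem G x (f i) (f (e k)) (f j')) (f (e l)) * φ (e k) (e l) * φ i j')]
  refine Finset.sum_congr rfl fun j _ => ?_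
  rw [Equiv.sum_comp e (fun k' => ∑ l,
    G x (riem G x (f i) (f k') (f j)) (f (e l)) * φ k' (e l) * φ i j)]
  refine Finset.sum_congr rfl fun k _ => ?_
  rw [Equiv.sum_comp e (fun l' =>
    G x (riem G x (f i) (f k) (f j)) (f l') * φ k l' * φ i j)]

theorem isOrtho_reindex {g : Bil (E ι)} (e : κ ≃ κ') {f : κ' → E ι} (h : IsOrtho g f) :
    IsOrtho g (fun i => f (e i)) := by
  intro i j
  rw [h]
  simp only [EmbeddingLike.apply_eq_iff_eq]

theorem trace_reindex (e : κ ≃ κ') (φ : Matrix κ' κ' ℝ) :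
    (φ.submatrix e e).trace = φ.trace := by
  unfold Matrix.trace
  simp only [Matrix.diag_apply, Matrix.submatrix_apply]
  exact Equiv.sum_comp e (fun i => φ i i)

theorem posTan_reindex (e : κ ≃ κ') {G : E ι → Bil (E ι)} {x : E ι} (h : PosTan κ G x) :
    PosTan κ' G x := by
  intro f hf ho φ h1 h2 h3
  rw [← skf_reindex G x e f φ]
  refine h (fun i => f (e i)) (fun i => hf _) (isOrtho_reindex e ho) _ (h1.submatrix e) ?_ ?_
  · rw [trace_reindex, h2]
  · intro h0
    apply h3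
    ext i j
    have := congrFun (congrFun h0 (e.symm i)) (e.symm j)
    simpa using this

theorem nonnegTan_reindex (e : κ ≃ κ') {G : E ι → Bil (E ι)} {x : E ι} (h : NonnegTan κ G x) :
    NonnegTan κ' G x := by
  intro f hf ho φ h1 h2
  rw [← skf_reindex G x e f φ]
  refine h (fun i => f (e i)) (fun i => hf _) (isOrtho_reindex e ho) _ (h1.submatrix e) ?_
  rw [trace_reindex, h2]

end Reindex

theorem posSK_congr {ι : Type} [Fintype ι] [DecidableEq ι] {G H : E ι → Bil (E ι)} {x : E ι}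
    (h : G =ᶠ[𝓝 x] H) (hG : PosSK G x) : PosSK H x := by
  intro e ho φ h1 h2 h3
  rw [← skf_congr h]
  refine hG e ?_ φ h1 h2 h3
  rw [h.eq_of_nhds]
  exact ho

theorem nonnegSK_congr {ι : Type} [Fintype ι] [DecidableEq ι] {G H : E ι → Bil (E ι)} {x : E ι}
    (h : G =ᶠ[𝓝 x] H) (hG : NonnegSK G x) : NonnegSK H x := by
  intro e ho φ h1 h2
  rw [← skf_congr h]
  refine hG e ?_ φ h1 h2
  rw [h.eq_of_nhds]
  exact ho

theorem IsMetricOn.congr' {V : Type*} [NormedAddCommGroup V] [NormedSpace ℝ V] {G H : V → Bil V}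
    {U : Set V} (hG : IsMetricOn G U) (h : ∀ x ∈ U, H x = G x) : IsMetricOn H U :=
  ⟨hG.isOpen, hG.smooth.congr h, fun x hx v w => by rw [h x hx]; exact hG.symm x hx v w,
    fun x hx v hv => by rw [h x hx]; exact hG.pos x hx v hv⟩

theorem man (hSph : SphStatement) (hSl : SliceStatement) : ManStatement := by
  intro ι κ _ _ _ _ n _ T t₁ H x₁ hcard hRF ht₁ hpos hx₁ hneg
  have hfin : Fintype.card ι = n + 1 := by
    have h := (Fact.out : Module.finrank ℝ (E ι) = n + 1)
    rwa [finrank_euclideanSpace] at h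
  have hcardn : Fintype.card ι = Fintype.card (Fin n) + 1 := by rw [Fintype.card_fin, hfin]
  let e : κ ≃ Fin n := Fintype.equivOfCardEq (by rw [Fintype.card_fin]; omega)
  have hsub : Ico 0 T ⊆ Icc 0 T := Ico_subset_Icc_self
  have hT : 0 < T := ht₁.1.trans ht₁.2
  -- the slices
  have hsl := fun (t : ℝ) (ht : t ∈ Icc 0 T)
    (c : OpenPartialHomeomorph (Metric.sphere (0 : E ι) 1) (EuclideanSpace ℝ (Fin n)))
    (hc : c ∈ IsManifold.maximalAtlas (𝓡 n) ∞ (Metric.sphere (0 : E ι) 1)) =>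
    hSl ι (Fin n) (H t) (fun y : E (Fin n) => ((c.symm y : Metric.sphere (0 : E ι) 1) : E ι))
      c.target hcardn (hRF.cyl t ht) c.open_target (hSph ι n (H t) c hc).1
      (fun y hy => ((hSph ι n (H t) c hc).2 y hy).1)
      (fun y hy => ((hSph ι n (H t) c hc).2 y hy).2.1)
  have hgerm : ∀ t, ∀ c ∈ IsManifold.maximalAtlas (𝓡 n) ∞ (Metric.sphere (0 : E ι) 1),
      ∀ y ∈ c.target, (pullb (H t) (fun y : E (Fin n) =>
        ((c.symm y : Metric.sphere (0 : E ι) 1) : E ι))) =ᶠ[𝓝 y]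
        locRep (sphF (n := n) (H t)) c := by
    intro t c hc y hy
    filter_upwards [c.open_target.mem_nhds hy] with z hz
    exact (((hSph ι n (H t) c hc).2 z hz).2.2).symm
  refine ⟨⟨?_, ?_, ?_⟩, ?_, ?_⟩
  · intro t ht c hc
    exact (hsl t (hsub ht) c hc).1.congr' (fun y hy => ((hSph ι n (H t) c hc).2 y hy).2.2)
  · intro c hc
    have h1 := (hSph ι n (H 0) c hc)
    have hm : MapsTo (fun y : E (Fin n) => ((c.symm y : Metric.sphere (0 : E ι) 1) : E ι))
        c.target (Om ι) := fun y hy => om_of_norm_one (h1.2 y hy).1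
    refine (contDiffOn_pullb_time hsub hRF.smooth c.open_target h1.1 hm).congr ?_
    intro q hq
    exact ((hSph ι n (H q.1) c hc).2 q.2 hq.2).2.2
  · intro c hc t ht y hy v w
    have h1 := (hSph ι n (H t) c hc)
    have hm : MapsTo (fun y : E (Fin n) => ((c.symm y : Metric.sphere (0 : E ι) 1) : E ι))
        c.target (Om ι) := fun y hy => om_of_norm_one (h1.2 y hy).1
    have h2 : ric (locRep (sphF (n := n) (H t)) c) y v w = ric (pullb (H t)
        (fun y : E (Fin n) => ((c.symm y : Metric.sphere (0 : E ι) 1) : E ι))) y v w :=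
      (ric_congr (hgerm t c hc y hy) v w).symm
    rw [h2, ((hsl t (hsub ht) c hc).2.2 y hy).1 v w]
    have h3 := (hRF.flow t (hsub ht) _ (hm hy)
      (fderiv ℝ (fun y : E (Fin n) => ((c.symm y : Metric.sphere (0 : E ι) 1) : E ι)) y v)
      (fderiv ℝ (fun y : E (Fin n) => ((c.symm y : Metric.sphere (0 : E ι) 1) : E ι)) y w)).mono
      hsub
    refine h3.congr ?_ ?_
    · intro s hs
      rw [((hSph ι n (H s) c hc).2 y hy).2.2]
      rfl
    · rw [((hSph ι n (H t) c hc).2 y hy).2.2]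
      rfl
  · intro c hc y hy
    have h0 : (0:ℝ) ∈ Icc 0 T := ⟨le_rfl, hT.le⟩
    apply posSK_congr (hgerm 0 c hc y hy)
    rw [((hsl 0 h0 c hc).2.2 y hy).2.1]
    exact posTan_reindex e (hpos _ ((hSph ι n (H 0) c hc).2 y hy).1)
  · intro h
    apply hneg
    let X : Metric.sphere (0 : E ι) 1 := ⟨x₁, mem_sphere_zero_iff_norm.2 hx₁⟩
    let c := chartAt (EuclideanSpace ℝ (Fin n)) X
    have hc : c ∈ IsManifold.maximalAtlas (𝓡 n) ∞ (Metric.sphere (0 : E ι) 1) :=
      IsManifold.chart_mem_maximalAtlas X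
    have hX : X ∈ c.source := mem_chart_source _ X
    have hy : c X ∈ c.target := c.map_source hX
    have hsX : c.symm (c X) = X := c.left_inv hX
    have h1 := nonnegSK_congr (hgerm t₁ c hc _ hy).symm (h c hc _ hy)
    rw [((hsl t₁ ⟨ht₁.1.le, ht₁.2.le⟩ c hc).2.2 _ hy).2.2] at h1
    have h2 : ((c.symm (c X) : Metric.sphere (0 : E ι) 1) : E ι) = x₁ := by rw [hsX]
    rw [h2] at h1
    exact nonnegTan_reindex e.symm h1

end Pool.Agent.RF
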