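import Pool.Agent.Helper36_RF.ClBr
import Pool.Agent.Helper36_RF.ManP

/-!
# From cylinder metrics to the classical formulation on the sphere (helper36, MP_a23110_gt)
-/

noncomputable section

open scoped ContDiff Topology RealInnerProductSpace Manifold
set_option maxSynthPendingDepth 3
set_option linter.unusedSectionVars false
open Set

namespace Pool.Agent.SecondKind

open Pool.Agent.RF (E Bil eb Om IsCyl IsRF IsMetricOn pullb PosSK NonnegSK PosTan NonnegTan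
  SliceStatement SphStatement om_of_norm_one contDiffOn_pullb_time pullb_apply)

variable {n : ℕ} {ι : Type} [Fintype ι] [DecidableEq ι]

/-- the isometry between `ℝ^(n+1)` and `E ι` -/
def Lr (σ : ι ≃ Fin (n + 1)) : (Fin (n + 1) → ℝ) ≃L[ℝ] E ι :=
  ((LinearEquiv.funCongrLeft ℝ ℝ σ).toContinuousLinearEquiv).trans (EuclideanSpace.equiv ι ℝ).symm

@[simp] theorem Lr_apply (σ : ι ≃ Fin (n + 1)) (x : Fin (n + 1) → ℝ) (i : ι) :
    Lr σ x i = x (σ i) := rfl

theorem inner_Lr (σ : ι ≃ Fin (n + 1)) (x v : Fin (n + 1) → ℝ) :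
    ⟪Lr σ x, Lr σ v⟫ = ∑ i, x i * v i := by
  rw [PiLp.inner_apply]
  simp only [Lr_apply, RCLike.inner_apply, conj_trivial]
  rw [Equiv.sum_comp σ (fun i => v i * x i)]
  exact Finset.sum_congr rfl fun i _ => mul_comm _ _

theorem onSphere_iff (σ : ι ≃ Fin (n + 1)) (x : Fin (n + 1) → ℝ) :
    OnSphere x ↔ ‖Lr σ x‖ = 1 := by
  have h1 : ‖Lr σ x‖ ^ 2 = ∑ i, x i ^ 2 := by
    rw [← real_inner_self_eq_norm_sq, inner_Lr]
    exact Finset.sum_congr rfl fun i _ => (sq (x i)).symm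
  unfold OnSphere
  rw [← h1]
  constructor
  · intro h
    exact (pow_eq_one_iff_of_nonneg (norm_nonneg _) (by norm_num)).1 h
  · intro h
    rw [h]; norm_num

/-- the form on `S^n` defined by a field of bilinear forms on `E ι` -/
def toForm (σ : ι ≃ Fin (n + 1)) (G : E ι → Bil (E ι)) : Form n :=
  fun x v w => G (Lr σ x) (Lr σ v) (Lr σ w)

/-- the parametrization as a map between Euclidean spaces -/
def psE (σ : ι ≃ Fin (n + 1)) (ψ : (Fin n → ℝ) → Fin (n + 1) → ℝ) : E (Fin n) → E ι :=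
  fun z => Lr σ (ψ (eqE n z))

theorem fderiv_psE (σ : ι ≃ Fin (n + 1)) (ψ : (Fin n → ℝ) → Fin (n + 1) → ℝ) (z v : E (Fin n)) :
    fderiv ℝ (psE σ ψ) z v = Lr σ (fderiv ℝ ψ (eqE n z) (eqE n v)) := by
  have h1 : fderiv ℝ ((Lr σ) ∘ (ψ ∘ (eqE n))) z =
      ((Lr σ : (Fin (n + 1) → ℝ) →L[ℝ] E ι)).comp (fderiv ℝ (ψ ∘ (eqE n)) z) :=
    (Lr σ).comp_fderiv
  have h2 : fderiv ℝ (ψ ∘ (eqE n)) z = (fderiv ℝ ψ (eqE n z)).comp
      ((eqE n) : E (Fin n) →L[ℝ] (Fin n → ℝ)) := (eqE n).comp_right_fderiv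
  have h3 : psE σ ψ = (Lr σ) ∘ (ψ ∘ (eqE n)) := rfl
  rw [h3, h1, h2]
  rfl

theorem comp_toForm (σ : ι ≃ Fin (n + 1)) (G : E ι → Bil (E ι))
    (ψ : (Fin n → ℝ) → Fin (n + 1) → ℝ) : comp (toForm σ G) ψ = mat (pullb G (psE σ ψ)) := by
  funext y i j
  unfold comp toForm mat
  rw [pullb_apply, fderiv_psE, fderiv_psE]
  rfl

section Param

variable (σ : ι ≃ Fin (n + 1)) {U : Set (Fin n → ℝ)} {ψ : (Fin n → ℝ) → Fin (n + 1) → ℝ}
  (hψ : IsParam U ψ)
include hψ

theorem IsParam.open' : IsOpen (eqE n ⁻¹' U) := hψ.isOpen.preimage (eqE n).continuous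

theorem IsParam.smooth' : ContDiffOn ℝ ∞ (psE σ ψ) (eqE n ⁻¹' U) :=
  (Lr σ).contDiff.comp_contDiffOn (hψ.smooth.comp (eqE n).contDiff.contDiffOn (fun _ h => h))

theorem IsParam.norm' : ∀ z ∈ eqE n ⁻¹' U, ‖psE σ ψ z‖ = 1 := fun z hz =>
  (onSphere_iff σ _).1 (hψ.sphere _ hz)

theorem IsParam.inj' : ∀ z ∈ eqE n ⁻¹' U, Function.Injective (fderiv ℝ (psE σ ψ) z) := by
  intro z hz v w hvw
  rw [fderiv_psE, fderiv_psE] at hvw
  exact (eqE n).injective (hψ.immersion _ hz ((Lr σ).injective hvw))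

theorem IsParam.maps' : MapsTo (psE σ ψ) (eqE n ⁻¹' U) (Om ι) := fun z hz =>
  om_of_norm_one (hψ.norm' σ z hz)

end Param

theorem interval_coe (T : ℝ) : interval (T : EReal) = Ico 0 T := by
  ext t
  simp [interval]

theorem contDiffOn_entry {X : Type*} [NormedAddCommGroup X] [NormedSpace ℝ X]
    {F : X → Bil (E (Fin n))} {s : Set X} (hF : ContDiffOn ℝ ∞ F s) (v w : E (Fin n)) :
    ContDiffOn ℝ ∞ (fun q => F q v w) s :=
  (hF.clm_apply contDiffOn_const).clm_apply contDiffOn_const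

theorem mem_pre {U : Set (Fin n → ℝ)} {y : Fin n → ℝ} (hy : y ∈ U) :
    (eqE n).symm y ∈ eqE n ⁻¹' U := by
  show eqE n ((eqE n).symm y) ∈ U
  rwa [ContinuousLinearEquiv.apply_symm_apply]

theorem comp_sw {Y : Type*} [NormedAddCommGroup Y] [NormedSpace ℝ Y] {F : ℝ × E (Fin n) → Y}
    {I : Set ℝ} {U : Set (Fin n → ℝ)} (hF : ContDiffOn ℝ ∞ F (I ×ˢ (eqE n ⁻¹' U))) :
    ContDiffOn ℝ ∞ (fun q : ℝ × (Fin n → ℝ) => F (q.1, (eqE n).symm q.2)) (I ×ˢ U) := by
  have h2 : ContDiffOn ℝ ∞ (fun q : ℝ × (Fin n → ℝ) => (q.1, (eqE n).symm q.2)) (I ×ˢ U) :=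
    (contDiff_fst.prodMk ((eqE n).symm.contDiff.comp contDiff_snd)).contDiffOn
  exact hF.comp h2 (fun q hq => ⟨hq.1, mem_pre hq.2⟩)

variable (σ : ι ≃ Fin (n + 1))

theorem isMetric_toForm (hSl : SliceStatement) {G : E ι → Bil (E ι)} (hG : IsCyl G) :
    IsMetric (toForm σ G) where
  add x u v w _ _ _ := by
    unfold toForm
    rw [map_add, map_add]
    rfl
  smul x a v w _ _ := by
    unfold toForm
    rw [map_smul, map_smul]
    rfl
  symm x v w hv _ := hG.metric.symm _ (om_of_norm_one ((onSphere_iff σ x).1 hv.1)) _ _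
  pos x v hv hv0 := hG.metric.pos _ (om_of_norm_one ((onSphere_iff σ x).1 hv.1)) _
    (by simpa using hv0)
  smooth U ψ hψ i j := by
    rw [comp_toForm]
    have hcard : Fintype.card ι = Fintype.card (Fin n) + 1 := by
      rw [Fintype.card_congr σ, Fintype.card_fin, Fintype.card_fin]
    have h1 := (hSl ι (Fin n) G (psE σ ψ) (eqE n ⁻¹' U) hcard hG hψ.open' (hψ.smooth' σ)
      (hψ.norm' σ) (hψ.inj' σ)).1.smooth
    have h2 : ContDiffOn ℝ ∞ (fun y => pullb G (psE σ ψ) ((eqE n).symm y)) U :=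
      h1.comp (eqE n).symm.contDiff.contDiffOn (fun y hy => by
        show eqE n ((eqE n).symm y) ∈ U
        rwa [ContinuousLinearEquiv.apply_symm_apply])
    exact contDiffOn_entry h2 (eb i) (eb j)

theorem man' (hSph : SphStatement) (hSl : SliceStatement) {κ : Type} [Fintype κ] [DecidableEq κ]
    {T t₁ : ℝ} {H : ℝ → E ι → Bil (E ι)} {x₁ : E ι} (hκ : Fintype.card ι = Fintype.card κ + 1)
    (hRF : IsRF T H) (ht₁ : t₁ ∈ Ioo 0 T) (hpos : ∀ x, ‖x‖ = 1 → PosTan κ (H 0) x)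
    (hx₁ : ‖x₁‖ = 1) (hneg : ¬ NonnegTan κ (H t₁) x₁) :
    IsRicciFlow (T : EReal) (fun t => toForm σ (H t)) ∧ PosSecondKind (toForm σ (H 0)) ∧
      ¬ NonnegSecondKind (toForm σ (H t₁)) := by
  have hcardn : Fintype.card ι = Fintype.card (Fin n) + 1 := by
    rw [Fintype.card_congr σ, Fintype.card_fin, Fintype.card_fin]
  have hfin : Module.finrank ℝ (E ι) = n + 1 := by
    rw [finrank_euclideanSpace, hcardn, Fintype.card_fin]
  have hFact : Fact (Module.finrank ℝ (E ι) = n + 1) := ⟨hfin⟩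
  have hκn : Fintype.card κ = Fintype.card (Fin n) := by omega
  let e : κ ≃ Fin n := Fintype.equivOfCardEq hκn
  have hsub : Ico 0 T ⊆ Icc 0 T := Ico_subset_Icc_self
  have hT : 0 < T := ht₁.1.trans ht₁.2
  have hsl := fun (t : ℝ) (ht : t ∈ Icc 0 T) (U : Set (Fin n → ℝ))
    (ψ : (Fin n → ℝ) → Fin (n + 1) → ℝ) (hψ : IsParam U ψ) =>
    hSl ι (Fin n) (H t) (psE σ ψ) (eqE n ⁻¹' U) hcardn (hRF.cyl t ht) hψ.open' (hψ.smooth' σ)
      (hψ.norm' σ) (hψ.inj' σ)
  have hmem : ∀ {U : Set (Fin n → ℝ)} {y : Fin n → ℝ}, y ∈ U → (eqE n).symm y ∈ eqE n ⁻¹' U := by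
    intro U y hy
    show eqE n ((eqE n).symm y) ∈ U
    rwa [ContinuousLinearEquiv.apply_symm_apply]
  refine ⟨⟨?_, ?_, ?_⟩, ?_, ?_⟩
  · intro t ht
    rw [interval_coe] at ht
    exact isMetric_toForm σ hSl (hRF.cyl t (hsub ht))
  · intro U ψ hψ i j
    rw [interval_coe]
    have h1 := contDiffOn_entry
      (contDiffOn_pullb_time hsub hRF.smooth hψ.open' (hψ.smooth' σ) (hψ.maps' σ)) (eb i) (eb j)
    have h3 := comp_sw h1
    refine h3.congr ?_
    intro q _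
    rw [comp_toForm]
    rfl
  · intro U ψ hψ t ht y hy i j
    rw [interval_coe] at ht ⊢
    have hb := (hsl t (hsub ht) U ψ hψ).1
    have h2 : ricci (comp (toForm σ (H t)) ψ) i j y =
        Pool.Agent.RF.ric (pullb (H t) (psE σ ψ)) ((eqE n).symm y) (eb i) (eb j) := by
      rw [comp_toForm]
      have := ricci_mat hb (hmem hy) i j
      rwa [ContinuousLinearEquiv.apply_symm_apply] at this
    rw [h2, ((hsl t (hsub ht) U ψ hψ).2.2 _ (hmem hy)).1]
    have h3 := (hRF.flow t (hsub ht) _ (hψ.maps' σ (hmem hy))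
      (fderiv ℝ (psE σ ψ) ((eqE n).symm y) (eb i))
      (fderiv ℝ (psE σ ψ) ((eqE n).symm y) (eb j))).mono hsub
    refine h3.congr ?_ ?_
    · intro s _
      rw [comp_toForm]
      rfl
    · rw [comp_toForm]
      rfl
  · intro U ψ hψ y hy
    have h0 : (0:ℝ) ∈ Icc 0 T := ⟨le_rfl, hT.le⟩
    have hb := (hsl 0 h0 U ψ hψ).1
    rw [comp_toForm]
    have h1 : PosSK (pullb (H 0) (psE σ ψ)) ((eqE n).symm y) := by
      rw [((hsl 0 h0 U ψ hψ).2.2 _ (hmem hy)).2.1]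
      exact Pool.Agent.RF.posTan_reindex e (hpos _ (hψ.norm' σ _ (hmem hy)))
    have h2 := posAt_mat hb (hmem hy) h1
    rwa [ContinuousLinearEquiv.apply_symm_apply] at h2
  · intro h
    apply hneg
    let X : Metric.sphere (0 : E ι) 1 := ⟨x₁, mem_sphere_zero_iff_norm.2 hx₁⟩
    let c := chartAt (EuclideanSpace ℝ (Fin n)) X
    have hc : c ∈ IsManifold.maximalAtlas (𝓡 n) ∞ (Metric.sphere (0 : E ι) 1) :=
      IsManifold.chart_mem_maximalAtlas X
    have hX : X ∈ c.source := mem_chart_source _ X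
    have hy : c X ∈ c.target := c.map_source hX
    have hsX : c.symm (c X) = X := c.left_inv hX
    let ψc : E (Fin n) → E ι := fun y => ((c.symm y : Metric.sphere (0 : E ι) 1) : E ι)
    obtain ⟨hs, hall⟩ := hSph ι n (H t₁) c hc
    let ψ : (Fin n → ℝ) → Fin (n + 1) → ℝ := fun y => (Lr σ).symm (ψc ((eqE n).symm y))
    let U : Set (Fin n → ℝ) := (eqE n).symm ⁻¹' c.target
    have hE : psE σ ψ = ψc := by
      funext z
      show Lr σ ((Lr σ).symm (ψc ((eqE n).symm (eqE n z)))) = ψc z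
      rw [ContinuousLinearEquiv.apply_symm_apply, ContinuousLinearEquiv.symm_apply_apply]
    have hdψ : ∀ z v, fderiv ℝ ψc z v = Lr σ (fderiv ℝ ψ (eqE n z) (eqE n v)) := by
      intro z v
      rw [← hE]
      exact fderiv_psE σ ψ z v
    have hψ : IsParam U ψ := by
      refine ⟨c.open_target.preimage (eqE n).symm.continuous, ?_, ?_, ?_⟩
      · exact (Lr σ).symm.contDiff.comp_contDiffOn
          (hs.comp (eqE n).symm.contDiff.contDiffOn (fun _ hz => hz))
      · intro y hy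
        rw [onSphere_iff σ]
        show ‖Lr σ ((Lr σ).symm (ψc ((eqE n).symm y)))‖ = 1
        rw [ContinuousLinearEquiv.apply_symm_apply]
        exact (hall _ hy).1
      · intro y hy v w hvw
        have h1 := (hall _ hy).2.1
        have h2 : fderiv ℝ ψc ((eqE n).symm y) ((eqE n).symm v) =
            fderiv ℝ ψc ((eqE n).symm y) ((eqE n).symm w) := by
          rw [hdψ, hdψ, ContinuousLinearEquiv.apply_symm_apply,
            ContinuousLinearEquiv.apply_symm_apply, ContinuousLinearEquiv.apply_symm_apply, hvw]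
        exact (eqE n).symm.injective (h1 h2)
    have hyU : eqE n (c X) ∈ U := by
      show (eqE n).symm (eqE n (c X)) ∈ c.target
      rw [ContinuousLinearEquiv.symm_apply_apply]
      exact hy
    have h1 := h U ψ hψ _ hyU
    rw [comp_toForm] at h1
    have hb := (hsl t₁ ⟨ht₁.1.le, ht₁.2.le⟩ U ψ hψ).1
    have h2 := nonnegSK_of hb (x := c X) hyU h1
    rw [((hsl t₁ ⟨ht₁.1.le, ht₁.2.le⟩ U ψ hψ).2.2 _ hyU).2.2] at h2
    have h3 : psE σ ψ (c X) = x₁ := by
      rw [hE]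
      show ((c.symm (c X) : Metric.sphere (0 : E ι) 1) : E ι) = x₁
      rw [hsX]
    rw [h3] at h2
    exact Pool.Agent.RF.nonnegTan_reindex e.symm h2

end Pool.Agent.SecondKind
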