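import Pool.Agent.Helper36_RF.Cl
import Pool.Agent.Helper36_RF.Chr
import Pool.Agent.Helper58_RF.Frame
import Pool.Agent.Helper9_RF.Sym

/-!
# The classical formulas agree with the invariant ones (helper36, MP_a23110_gt)
-/

noncomputable section

open scoped ContDiff Topology RealInnerProductSpace Matrix
set_option maxSynthPendingDepth 3
set_option linter.unusedSectionVars false
open Set

namespace Pool.Agent.SecondKind

open Pool.Agent.RF

variable {n : ℕ}

/-- the identification of `EuclideanSpace` with `Fin n → ℝ` -/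
def eqE (n : ℕ) : E (Fin n) ≃L[ℝ] (Fin n → ℝ) := EuclideanSpace.equiv (Fin n) ℝ

@[simp] theorem eqE_apply (x : E (Fin n)) (i : Fin n) : eqE n x i = x i := rfl

@[simp] theorem eqE_symm_apply (x : Fin n → ℝ) (i : Fin n) : (eqE n).symm x i = x i := rfl

@[simp] theorem eqE_symm_single (k : Fin n) : (eqE n).symm (Pi.single k 1) = eb k := rfl

/-- the components of a field of bilinear forms -/
def mat (b : E (Fin n) → Bil (E (Fin n))) : Coord n :=
  fun y i j => b ((eqE n).symm y) (eb i) (eb j)

theorem pd_comp (k : Fin n) (F : E (Fin n) → ℝ) (x : E (Fin n)) :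
    pd k (fun y => F ((eqE n).symm y)) (eqE n x) = fderiv ℝ F x (eb k) := by
  unfold pd
  have h : fderiv ℝ (F ∘ (eqE n).symm) (eqE n x) =
      (fderiv ℝ F ((eqE n).symm (eqE n x))).comp ((eqE n).symm : (Fin n → ℝ) →L[ℝ] E (Fin n)) :=
    (eqE n).symm.comp_right_fderiv
  have h2 : (fun y => F ((eqE n).symm y)) = F ∘ (eqE n).symm := rfl
  rw [h2, h, ContinuousLinearEquiv.symm_apply_apply]
  rfl

theorem pd_congr (k : Fin n) {f g : (Fin n → ℝ) → ℝ} {y : Fin n → ℝ} (h : f =ᶠ[𝓝 y] g) :
    pd k f y = pd k g y := by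
  unfold pd
  rw [h.fderiv_eq]

variable {b : E (Fin n) → Bil (E (Fin n))} {U : Set (E (Fin n))}

theorem pd_mat (hb : IsMetricOn b U) {x : E (Fin n)} (hx : x ∈ U) (k i j : Fin n) :
    pd k (fun z => mat b z i j) (eqE n x) = fderiv ℝ b x (eb k) (eb i) (eb j) := by
  have h1 : pd k (fun z => mat b z i j) (eqE n x) = fderiv ℝ (fun z => b z (eb i) (eb j)) x (eb k) :=
    pd_comp k (fun z => b z (eb i) (eb j)) x
  rw [h1]
  have h2 : HasFDerivAt b (fderiv ℝ b x) x := (hb.diffAt hx).hasFDerivAt
  have h3 : HasFDerivAt (fun z => b z (eb i)) ((fderiv ℝ b x).flip (eb i)) x := by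
    have := h2.clm_apply (hasFDerivAt_const (eb i : E (Fin n)) x)
    simpa using this
  have h4 : HasFDerivAt (fun z => b z (eb i) (eb j)) (((fderiv ℝ b x).flip (eb i)).flip (eb j)) x := by
    have := h3.clm_apply (hasFDerivAt_const (eb j : E (Fin n)) x)
    simpa using this
  rw [h4.fderiv]
  rfl

theorem inv_mat (x : E (Fin n)) (k l : Fin n) :
    inv (mat b) k l (eqE n x) = (H9.gmat (b x))⁻¹ k l := by
  unfold inv
  congr 2

theorem christoffel_mat (hb : IsMetricOn b U) {x : E (Fin n)} (hx : x ∈ U) (k i j : Fin n) :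
    christoffel (mat b) k i j (eqE n x) = (chris b x (eb i) (eb j)) k := by
  set c : E (Fin n) := chris b x (eb i) (eb j) with hc
  have h1 : ∀ l, (pd i (fun z => mat b z j l) (eqE n x) + pd j (fun z => mat b z i l) (eqE n x)
      - pd l (fun z => mat b z i j) (eqE n x)) / 2 = b x c (eb l) := by
    intro l
    rw [pd_mat hb hx, pd_mat hb hx, pd_mat hb hx, hc, hb.chris_spec hx]
    ring
  have h2 : ∀ l, b x c (eb l) = ∑ m, H9.gmat (b x) l m * c m := by
    intro l
    conv_lhs => rw [H9.sum_eb c]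
    rw [map_sum, _root_.sum_apply]
    refine Finset.sum_congr rfl fun m _ => ?_
    rw [map_smul, _root_.smul_apply, smul_eq_mul, hb.symm x hx]
    unfold H9.gmat
    rw [Matrix.of_apply]
    ring
  have h3 : christoffel (mat b) k i j (eqE n x) = ((H9.gmat (b x))⁻¹ *ᵥ (H9.gmat (b x) *ᵥ c)) k := by
    unfold christoffel Matrix.mulVec dotProduct
    refine Finset.sum_congr rfl fun l _ => ?_
    rw [inv_mat, mul_div_assoc, h1, h2]
  rw [h3, Matrix.mulVec_mulVec, Matrix.nonsing_inv_mul _ (isUnit_iff_ne_zero.2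
    (H9.det_gmat (hb.pos x hx))), Matrix.one_mulVec]

theorem near {x : E (Fin n)} (hU : IsOpen U) (hx : x ∈ U) :
    ∀ᶠ y in 𝓝 (eqE n x), (eqE n).symm y ∈ U := by
  have h : (eqE n).symm (eqE n x) ∈ U := by rwa [ContinuousLinearEquiv.symm_apply_apply]
  exact (eqE n).symm.continuous.continuousAt.preimage_mem_nhds (hU.mem_nhds h)

theorem pd_christoffel (hb : IsMetricOn b U) {x : E (Fin n)} (hx : x ∈ U) (i m j k : Fin n) :
    pd i (christoffel (mat b) m j k) (eqE n x)
      = (fderiv ℝ (fun y => chris b y (eb j) (eb k)) x (eb i)) m := by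
  have h1 : christoffel (mat b) m j k =ᶠ[𝓝 (eqE n x)]
      fun y => (fun z => (chris b z (eb j) (eb k)) m) ((eqE n).symm y) := by
    filter_upwards [near hb.isOpen hx] with y hy
    have := christoffel_mat hb hy m j k
    rwa [ContinuousLinearEquiv.apply_symm_apply] at this
  rw [pd_congr i h1, pd_comp i (fun z => (chris b z (eb j) (eb k)) m) x]
  have h2 : HasFDerivAt (fun y => chris b y (eb j) (eb k))
      (fderiv ℝ (fun y => chris b y (eb j) (eb k)) x) x := (hb.diffAt_chris hx _ _).hasFDerivAt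
  have h3 := (EuclideanSpace.proj m : E (Fin n) →L[ℝ] ℝ).hasFDerivAt.comp x h2
  have h4 : (fun z => (chris b z (eb j) (eb k)) m) =
    (EuclideanSpace.proj m : E (Fin n) →L[ℝ] ℝ) ∘ (fun y => chris b y (eb j) (eb k)) := rfl
  rw [h4, h3.fderiv]
  rfl

theorem chris_sum (b : E (Fin n) → Bil (E (Fin n))) (x v w : E (Fin n)) (m : Fin n) :
    (chris b x v w) m = ∑ p, (chris b x v (eb p)) m * w p := by
  let L : E (Fin n) →ₗ[ℝ] E (Fin n) :=
    { toFun := fun w => chris b x v w
      map_add' := fun a c => chris_add_right b x v a c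
      map_smul' := fun r c => chris_smul_right b x r v c }
  have h2 : L w = ∑ p, w p • L (eb p) := by
    conv_lhs => rw [H9.sum_eb w]
    simp
  have h3 : chris b x v w = ∑ p, w p • chris b x v (eb p) := h2
  rw [h3]
  have h4 : ∀ s : Finset (Fin n), (∑ p ∈ s, w p • chris b x v (eb p)) m
      = ∑ p ∈ s, (chris b x v (eb p)) m * w p := by
    intro s
    induction s using Finset.induction_on with
    | empty => simp
    | insert q s hq ih =>
      rw [Finset.sum_insert hq, Finset.sum_insert hq, ← ih]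
      simp [mul_comm]
  exact h4 _

theorem curv_mat (hb : IsMetricOn b U) {x : E (Fin n)} (hx : x ∈ U) (i j k m : Fin n) :
    curv (mat b) i j k m (eqE n x) = (riem b x (eb i) (eb j) (eb k)) m := by
  unfold curv riem
  rw [pd_christoffel hb hx, pd_christoffel hb hx]
  simp only [christoffel_mat hb hx]
  rw [Finset.sum_sub_distrib, ← chris_sum b x (eb i), ← chris_sum b x (eb j)]
  simp only [PiLp.add_apply, PiLp.sub_apply]
  ring

theorem riem4_mat (hb : IsMetricOn b U) {x : E (Fin n)} (hx : x ∈ U) (i j k l : Fin n) :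
    riem4 (mat b) i j k l (eqE n x) = b x (riem b x (eb i) (eb j) (eb k)) (eb l) := by
  unfold riem4
  conv_rhs => rw [H9.sum_eb (riem b x (eb i) (eb j) (eb k))]
  rw [map_sum, _root_.sum_apply]
  refine Finset.sum_congr rfl fun m _ => ?_
  rw [curv_mat hb hx, map_smul, _root_.smul_apply, smul_eq_mul]
  rfl

theorem ricci_mat (hb : IsMetricOn b U) {x : E (Fin n)} (hx : x ∈ U) (j k : Fin n) :
    ricci (mat b) j k (eqE n x) = ric b x (eb j) (eb k) := by
  unfold ricci ric
  exact Finset.sum_congr rfl fun i _ => curv_mat hb hx i j k i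

/-- the vector with given components -/
def vec (a : Fin n → ℝ) : E (Fin n) := (eqE n).symm a

theorem vec_eq (a : Fin n → ℝ) : vec a = ∑ i, a i • (eb i : E (Fin n)) := by
  conv_lhs => rw [H9.sum_eb (vec a)]
  rfl

theorem riemV_mat (hb : IsMetricOn b U) {x : E (Fin n)} (hx : x ∈ U) (a c d e : Fin n → ℝ) :
    riemV (mat b) (eqE n x) a c d e = b x (riem b x (vec a) (vec c) (vec d)) (vec e) := by
  unfold riemV
  rw [vec_eq a, vec_eq c, vec_eq d, H58.riem_sum1 hb hx, map_sum (b x), _root_.sum_apply]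
  refine Finset.sum_congr rfl fun p _ => ?_
  rw [map_smul (b x), _root_.smul_apply, H58.riem_sum2 hb hx, map_sum (b x), _root_.sum_apply,
    Finset.smul_sum]
  refine Finset.sum_congr rfl fun q _ => ?_
  rw [map_smul (b x), _root_.smul_apply, H58.riem_sum3 hb hx, map_sum (b x), _root_.sum_apply,
    Finset.smul_sum, Finset.smul_sum]
  refine Finset.sum_congr rfl fun r _ => ?_
  rw [map_smul (b x), _root_.smul_apply, vec_eq e, map_sum, Finset.smul_sum, Finset.smul_sum,
    Finset.smul_sum]
  refine Finset.sum_congr rfl fun s _ => ?_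
  rw [map_smul, riem4_mat hb hx]
  simp only [smul_eq_mul]
  ring

theorem bil_vec (x : E (Fin n)) (a c : Fin n → ℝ) :
    b x (vec a) (vec c) = ∑ p, ∑ q, a p * c q * mat b (eqE n x) p q := by
  rw [vec_eq a, map_sum (b x), _root_.sum_apply]
  refine Finset.sum_congr rfl fun p _ => ?_
  rw [map_smul (b x), _root_.smul_apply, vec_eq c, map_sum, Finset.smul_sum]
  refine Finset.sum_congr rfl fun q _ => ?_
  rw [map_smul]
  simp only [smul_eq_mul, mat, ContinuousLinearEquiv.symm_apply_apply]
  ring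

theorem isFrame_mat (x : E (Fin n)) (e : Fin n → Fin n → ℝ) :
    IsFrame (mat b) (eqE n x) e ↔ IsOrtho (b x) (fun i => vec (e i)) := by
  unfold IsFrame IsOrtho
  simp only [bil_vec]

theorem secondKind_mat (hb : IsMetricOn b U) {x : E (Fin n)} (hx : x ∈ U)
    (e φ : Fin n → Fin n → ℝ) :
    secondKind (mat b) (eqE n x) e φ = skf b x (fun i => vec (e i)) (Matrix.of φ) := by
  unfold secondKind skf
  simp only [riemV_mat hb hx, Matrix.of_apply]

theorem posAt_mat (hb : IsMetricOn b U) {x : E (Fin n)} (hx : x ∈ U) (h : PosSK b x) :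
    PosAt (mat b) (eqE n x) := by
  intro e he φ hφ hφ0
  rw [secondKind_mat hb hx]
  refine h _ ((isFrame_mat x e).1 he) (Matrix.of φ) ?_ ?_ ?_
  · ext i j
    exact hφ.1 j i
  · exact hφ.2
  · intro h0
    apply hφ0
    funext i j
    exact congrFun (congrFun h0 i) j

theorem nonnegSK_of (hb : IsMetricOn b U) {x : E (Fin n)} (hx : x ∈ U)
    (h : NonnegAt (mat b) (eqE n x)) : NonnegSK b x := by
  intro e he φ hφ hφ0
  have hv : (fun i => vec (eqE n (e i))) = e := by
    funext i
    exact (eqE n).symm_apply_apply (e i)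
  have h1 := h (fun i => eqE n (e i)) ((isFrame_mat x _).2 (by rw [hv]; exact he)) φ
    ⟨fun i j => hφ.apply j i, hφ0⟩
  rw [secondKind_mat hb hx, hv] at h1
  exact h1

end Pool.Agent.SecondKind
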