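import Pool.Agent.Helper36_RF.Geo

/-!
# The example: doubly warped metrics (helper36, MP_a23110_gt)
-/

noncomputable section

open scoped ContDiff Topology RealInnerProductSpace
set_option maxSynthPendingDepth 3
set_option linter.unusedSectionVars false
open Set

namespace Pool.Agent.RF

section Local

variable {α β : Type} [Fintype α] [DecidableEq α] [Fintype β] [DecidableEq β]

/-- first component -/
def prl : E (α ⊕ β) →L[ℝ] E α :=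
  LinearMap.toContinuousLinearMap
    { toFun := fun x => WithLp.toLp 2 (fun i => x (Sum.inl i))
      map_add' := fun _ _ => rfl
      map_smul' := fun _ _ => rfl }

/-- second component -/
def prr : E (α ⊕ β) →L[ℝ] E β :=
  LinearMap.toContinuousLinearMap
    { toFun := fun x => WithLp.toLp 2 (fun i => x (Sum.inr i))
      map_add' := fun _ _ => rfl
      map_smul' := fun _ _ => rfl }

/-- the form `v, w ↦ ⟨v_u, w_u⟩` (first components) -/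
def inL : Bil (E (α ⊕ β)) := (del α).bilinearComp prl prl
/-- the form `v, w ↦ ⟨v_z, w_z⟩` (second components) -/
def inR : Bil (E (α ⊕ β)) := (del β).bilinearComp prr prr
/-- the covector `v ↦ ⟨u, v_u⟩` at `y = (u,z)` -/
def coL (y : E (α ⊕ β)) : E (α ⊕ β) →L[ℝ] ℝ := (del α (prl y)).comp prl
/-- the covector `v ↦ ⟨z, v_z⟩` at `y = (u,z)` -/
def coR (y : E (α ⊕ β)) : E (α ⊕ β) →L[ℝ] ℝ := (del β (prr y)).comp prr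
/-- the rank one form `v, w ↦ f v * f w` -/
def rk {V : Type*} [NormedAddCommGroup V] [NormedSpace ℝ V] (f : V →L[ℝ] ℝ) : Bil V :=
  f.smulRight f

@[simp] theorem prl_apply (y : E (α ⊕ β)) (i : α) : prl y i = y (Sum.inl i) := rfl
@[simp] theorem prr_apply (y : E (α ⊕ β)) (i : β) : prr y i = y (Sum.inr i) := rfl
@[simp] theorem inL_apply (v w : E (α ⊕ β)) : inL v w = ⟪(prl v : E α), prl w⟫ := rfl
@[simp] theorem inR_apply (v w : E (α ⊕ β)) : inR v w = ⟪(prr v : E β), prr w⟫ := rfl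
@[simp] theorem coL_apply (y v : E (α ⊕ β)) : coL y v = ⟪(prl y : E α), prl v⟫ := rfl
@[simp] theorem coR_apply (y v : E (α ⊕ β)) : coR y v = ⟪(prr y : E β), prr v⟫ := rfl
@[simp] theorem rk_apply {V : Type*} [NormedAddCommGroup V] [NormedSpace ℝ V] (f : V →L[ℝ] ℝ)
    (v w : V) : rk f v w = f v * f w := rfl

/-- `g₁ = |dz|² + η(|z|²) (z·dz)²` -/
def g1 (η : ℝ → ℝ) (y : E (α ⊕ β)) : Bil (E (α ⊕ β)) :=
  inR + η (‖prr y‖ ^ 2) • rk (coR y)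

/-- the round metric in graph coordinates, `|du|² + (u·du)²/(1-|u|²)` -/
def hrd (y : E (α ⊕ β)) : Bil (E (α ⊕ β)) :=
  inL + (1 - ‖prl y‖ ^ 2)⁻¹ • rk (coL y)

/-- `g₃ = A(|z|²) (|du|² + (u·du)²/(1-|u|²))` -/
def g3 (A : ℝ → ℝ) (y : E (α ⊕ β)) : Bil (E (α ⊕ β)) := A (‖prr y‖ ^ 2) • hrd y

/-- the local form of the doubly warped metrics -/
def gloc (η A : ℝ → ℝ) (y : E (α ⊕ β)) : Bil (E (α ⊕ β)) := g1 η y + g3 A y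

/-- domain -/
def DomG (α β : Type) [Fintype α] [Fintype β] (ρ : ℝ) : Set (E (α ⊕ β)) :=
  {y | ‖(prr y : E β)‖ ^ 2 < ρ ∧ ‖(prl y : E α)‖ ^ 2 < 1}

/-- Kulkarni-Nomizu product -/
def KN {V : Type*} [NormedAddCommGroup V] [NormedSpace ℝ V] (a b : Bil V) (x y z w : V) : ℝ :=
  a x w * b y z + b x w * a y z - a x z * b y w - b x z * a y w

end Local

/-! scalar curvature functions of `τ = |z|²` -/

def fP (η : ℝ → ℝ) (τ : ℝ) : ℝ := (1 + η τ * τ)⁻¹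
def fK1 (η : ℝ → ℝ) (τ : ℝ) : ℝ := η τ * fP η τ
def fK0 (η : ℝ → ℝ) (τ : ℝ) : ℝ := (η τ + τ * deriv η τ) * fP η τ ^ 2
def fM (η A : ℝ → ℝ) (τ : ℝ) : ℝ := - deriv A τ * fP η τ / A τ
def fN (η A : ℝ → ℝ) (τ : ℝ) : ℝ := (1 - τ * fP η τ * deriv A τ ^ 2 / A τ) / A τ
def fkap (η : ℝ → ℝ) (τ : ℝ) : ℝ := fP η τ * (deriv η τ - η τ ^ 2)
def flam (η A : ℝ → ℝ) (τ : ℝ) : ℝ :=
  deriv A τ * fK0 η τ / (A τ * fP η τ) - 2 * deriv (deriv A) τ / A τ + deriv A τ ^ 2 / A τ ^ 2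
def fL (η A : ℝ → ℝ) (τ : ℝ) : ℝ := fM η A τ + τ * fP η τ * flam η A τ

/-- hypotheses on the profile functions on `[0,ρ)` -/
structure Prof (η A : ℝ → ℝ) (ρ : ℝ) : Prop where
  pos : 0 < ρ
  smoothη : ContDiffOn ℝ ∞ η (Iio ρ)
  smoothA : ContDiffOn ℝ ∞ A (Iio ρ)
  η_pos : ∀ τ ∈ Ico 0 ρ, 0 < 1 + η τ * τ
  A_pos : ∀ τ ∈ Ico 0 ρ, 0 < A τ

/-- X1: the curvature tensor of the local model. -/
def CurvStatement : Prop :=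
  ∀ (α β : Type) [Fintype α] [DecidableEq α] [Fintype β] [DecidableEq β] (η A : ℝ → ℝ) (ρ : ℝ),
    Prof η A ρ → IsMetricOn (gloc η A : E (α ⊕ β) → Bil (E (α ⊕ β))) (DomG α β ρ) ∧
    ∀ y ∈ DomG α β ρ, ∀ a b c d : E (α ⊕ β), gloc η A y (riem (gloc η A) y a b c) d =
      (1/2 : ℝ) * fK1 η (‖prr y‖ ^ 2) * KN (g1 η y) (g1 η y) a b c d
      + fM η A (‖prr y‖ ^ 2) * KN (g1 η y) (g3 A y) a b c d
      + (1/2 : ℝ) * fN η A (‖prr y‖ ^ 2) * KN (g3 A y) (g3 A y) a b c d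
      + fkap η (‖prr y‖ ^ 2) * KN (rk (coR y)) (g1 η y) a b c d
      + flam η A (‖prr y‖ ^ 2) * KN (rk (coR y)) (g3 A y) a b c d

/-- X2: the Ricci tensor of the local model (a consequence of X1; prove it from `CurvStatement`). -/
def RicLocStatement : Prop :=
  ∀ (α β : Type) [Fintype α] [DecidableEq α] [Fintype β] [DecidableEq β]
    (η A : ℝ → ℝ) (ρ : ℝ), Prof η A ρ →
    ∀ y ∈ DomG α β ρ, ∀ v w : E (α ⊕ β), ric (gloc η A) y v w =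
      (((Fintype.card β : ℝ) - 1) * fK1 η (‖prr y‖ ^ 2)
          + ‖prr y‖ ^ 2 * fP η (‖prr y‖ ^ 2) * fkap η (‖prr y‖ ^ 2)
          + (Fintype.card α : ℝ) * fM η A (‖prr y‖ ^ 2)) * g1 η y v w
      + (((Fintype.card β : ℝ) - 2) * fkap η (‖prr y‖ ^ 2)
          + (Fintype.card α : ℝ) * flam η A (‖prr y‖ ^ 2)) * rk (coR y) v w
      + ((Fintype.card β : ℝ) * fM η A (‖prr y‖ ^ 2)
          + ‖prr y‖ ^ 2 * fP η (‖prr y‖ ^ 2) * flam η A (‖prr y‖ ^ 2)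
          + ((Fintype.card α : ℝ) - 1) * fN η A (‖prr y‖ ^ 2)) * g3 A y v w

/-- pointwise positivity condition: `p = card α`, `q = card β - 1` -/
structure PosCond (p q K1 K0 M L N : ℝ) : Prop where
  hK1 : 0 < K1
  hK0 : 0 < K0
  hM : 0 < M
  hL : 0 < L
  hN : 0 < N
  hU : 0 < 2 * K0 - (1 - 1 / q) * K1
  hV : 0 < 2 * L - (1 - 1 / p) * N
  hD : (K0 + L - M) ^ 2 < (2 * K0 - (1 - 1 / q) * K1) * (2 * L - (1 - 1 / p) * N)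

/-- X3: positivity of the curvature operator of the second kind in the local model. -/
def PosLocStatement : Prop :=
  ∀ (α β : Type) [Fintype α] [DecidableEq α] [Fintype β] [DecidableEq β]
    (η A : ℝ → ℝ) (ρ : ℝ), Prof η A ρ → 1 ≤ Fintype.card α → 2 ≤ Fintype.card β →
    ∀ y ∈ DomG α β ρ,
      PosCond (Fintype.card α) ((Fintype.card β : ℝ) - 1) (fK1 η (‖prr y‖ ^ 2))
        (fK0 η (‖prr y‖ ^ 2)) (fM η A (‖prr y‖ ^ 2)) (fL η A (‖prr y‖ ^ 2))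
        (fN η A (‖prr y‖ ^ 2)) →
      PosSK (gloc η A : E (α ⊕ β) → Bil (E (α ⊕ β))) y

/-- the quantities `f = 2L - (1-1/Q)K - (1-1/p)N` and its time derivative at the singular orbit -/
def orbF (p Q K A0 m0 : ℝ) : ℝ := 2 * (m0 / A0) - (1 - 1 / Q) * K - (1 - 1 / p) * (1 / A0)

def orbFt (p Q K A0 m0 ν : ℝ) : ℝ :=
  2 * (p + Q) * ((1 - 1 / Q) * K * ((1 - 1 / p) * (1 / A0))
    - ((1 - 1 / Q) * K + (1 - 1 / p) * (1 / A0)) ^ 2 / 4 * (1 - (p + Q) / (p * Q)))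
  + 4 * (Q + 2) * ((-(ν + m0 * K) / A0 + m0 ^ 2 / A0 ^ 2)
    + (m0 / A0) * (2 * (K - m0 / A0) + Q * (1 - 1 / p) * (m0 / A0 - 1 / A0)) / (2 * (Q + 2)))

/-- X6: a Ricci flow starting from the critical metric immediately leaves the closed cone. -/
def EvoStatement : Prop :=
  ∀ (α β : Type) [Fintype α] [DecidableEq α] [Fintype β] [DecidableEq β]
    (K A0 m0 ν T : ℝ) (D : Set (E (α ⊕ β))) (G : ℝ → E (α ⊕ β) → Bil (E (α ⊕ β))),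
    2 ≤ Fintype.card α → 2 ≤ Fintype.card β → 0 < K → 0 < A0 → 0 < T →
    orbF (Fintype.card α) (Fintype.card β) K A0 m0 = 0 →
    orbFt (Fintype.card α) (Fintype.card β) K A0 m0 ν < 0 →
    IsOpen D → (0 : E (α ⊕ β)) ∈ D →
    ContDiffOn ℝ ∞ (fun q : ℝ × E (α ⊕ β) => G q.1 q.2) (Icc 0 T ×ˢ D) →
    (∀ t ∈ Icc 0 T, IsMetricOn (G t) D) →
    (∀ y ∈ D, G 0 y = gloc (fun τ => K / (1 - K * τ)) (fun τ => A0 - m0 * τ + ν * τ ^ 2 / 2) y) →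
    (∀ t ∈ Icc 0 T, ∀ y ∈ D, ∀ v w,
      HasDerivWithinAt (fun s => G s y v w) (-2 * ric (G t) y v w) (Icc 0 T) t) →
    ∀ δ > 0, ∃ t ∈ Ioc 0 T, t < δ ∧ ¬ NonnegSK (G t) 0

/-! the global metrics -/

section Global

variable {α β : Type} [Fintype α] [DecidableEq α] [Fintype β] [DecidableEq β]

/-- `τ = |z|²/|x|²` on `E (Option α ⊕ β) ∋ x = (y,z)` -/
def tauX (x : E (Option α ⊕ β)) : ℝ := ‖prr x‖ ^ 2 / ‖x‖ ^ 2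

/-- `ω = dτ/2` -/
def omX (x : E (Option α ⊕ β)) : E (Option α ⊕ β) →L[ℝ] ℝ :=
  (‖x‖ ^ 2)⁻¹ • (coR x - tauX x • del _ x)

/-- the cylinder metric
`|x|⁻² ⟨·,·⟩ + F₁(τ) ω² + F₂(τ) |x|⁻⁴ (|y|² |dy|² - (y·dy)²)` -/
def Gcyl (F₁ F₂ : ℝ → ℝ) (x : E (Option α ⊕ β)) : Bil (E (Option α ⊕ β)) :=
  (‖x‖ ^ 2)⁻¹ • del _ + F₁ (tauX x) • rk (omX x)
    + (F₂ (tauX x) * (‖x‖ ^ 4)⁻¹) • (‖prl x‖ ^ 2 • inL - rk (coL x))

/-- the corresponding profile functions -/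
def etaF (F₁ : ℝ → ℝ) (τ : ℝ) : ℝ := F₁ τ + (1 - τ)⁻¹
def AF (F₂ : ℝ → ℝ) (τ : ℝ) : ℝ := (1 - τ) + (1 - τ) ^ 2 * F₂ τ

/-- the local parametrization `(u,z) ↦ (√(1-|z|²) R(√(1-|u|²), u), z)` of the unit sphere -/
def psiR (R : E (Option α) ≃ₗᵢ[ℝ] E (Option α)) (y : E (α ⊕ β)) : E (Option α ⊕ β) :=
  WithLp.toLp 2 (Sum.elim
    (fun i => √(1 - ‖prr y‖ ^ 2) *
      (R (WithLp.toLp 2 (fun o => Option.elim o (√(1 - ‖prl y‖ ^ 2)) (fun a => prl y a))) i))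
    (fun j => prr y j))

/-- X5: the global metrics are cylinder metrics, with the local form `gloc` in the charts `psiR`. -/
def CylExStatement : Prop :=
  ∀ (α β : Type) [Fintype α] [DecidableEq α] [Fintype β] [DecidableEq β] (F₁ F₂ : ℝ → ℝ) (ρ : ℝ),
    ContDiff ℝ ∞ F₁ → ContDiff ℝ ∞ F₂ → ρ < 1 → (∀ τ, ρ ≤ τ → F₁ τ = 0) →
    (∀ τ, ρ ≤ τ → F₂ τ = 0) →
    (∀ τ ∈ Ico (0:ℝ) 1, 0 < 1 + etaF F₁ τ * τ) → (∀ τ ∈ Ico (0:ℝ) 1, 0 < AF F₂ τ) →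
    IsCyl (Gcyl F₁ F₂ : E (Option α ⊕ β) → Bil (E (Option α ⊕ β))) ∧
    Prof (etaF F₁) (AF F₂) 1 ∧
    (∀ R : E (Option α) ≃ₗᵢ[ℝ] E (Option α),
      ContDiffOn ℝ ∞ (psiR R : E (α ⊕ β) → E (Option α ⊕ β)) (DomG α β 1) ∧
      ∀ y ∈ DomG α β 1, ‖(psiR R y : E (Option α ⊕ β))‖ = 1 ∧
        Function.Injective (fderiv ℝ (psiR R : E (α ⊕ β) → E (Option α ⊕ β)) y) ∧
        pullb (Gcyl F₁ F₂) (psiR R) y = gloc (etaF F₁) (AF F₂) y) ∧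
    (∀ x : E (Option α ⊕ β), ‖x‖ = 1 → tauX x < 1 →
      ∃ (R : E (Option α) ≃ₗᵢ[ℝ] E (Option α)) (y : E (α ⊕ β)), y ∈ DomG α β 1 ∧
        psiR R y = x ∧ ‖(prr y : E β)‖ ^ 2 = tauX x) ∧
    (∀ C₁ C₂ : ℝ, (∀ τ ∈ Icc (0:ℝ) 1, |F₁ τ| * τ ≤ C₁) → (∀ τ ∈ Icc (0:ℝ) 1, |F₂ τ| ≤ C₂) →
      ∀ x : E (Option α ⊕ β), ‖x‖ = 1 → ‖Gcyl F₁ F₂ x - del _‖ ≤ C₁ + C₂)

/-- X7: the round cylinder has positive curvature operator of the second kind on the slices. -/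
def RoundPosStatement : Prop :=
  ∀ (ι κ : Type) [Fintype ι] [DecidableEq ι] [Fintype κ] [DecidableEq κ]
    (G : E ι → Bil (E ι)) (U : Set (E ι)), IsOpen U → U ⊆ Om ι →
    (∀ x ∈ U, G x = (‖x‖ ^ 2)⁻¹ • del ι) → ∀ x ∈ U, PosTan κ G x

/-- X4: the profile functions. -/
def FamStatement : Prop :=
  ∀ p : ℕ, 2 ≤ p → ∀ r : ℝ, 0 < r →
    ∃ (F₁ : ℝ → ℝ → ℝ) (F₂ : ℝ → ℝ) (ρ₁ ε₀ ρ₂ K A0 m0 ν : ℝ),
      ContDiff ℝ ∞ (fun q : ℝ × ℝ => F₁ q.1 q.2) ∧ ContDiff ℝ ∞ F₂ ∧ 0 < ρ₁ ∧ ρ₁ < 1 ∧ 0 < ε₀ ∧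
      (∀ ε τ, ρ₁ ≤ τ → F₁ ε τ = 0) ∧ (∀ τ, ρ₁ ≤ τ → F₂ τ = 0) ∧
      (∀ ε ∈ Icc 0 ε₀, ∀ τ ∈ Icc (0:ℝ) 1, |F₁ ε τ| * τ ≤ r) ∧ (∀ τ ∈ Icc (0:ℝ) 1, |F₂ τ| ≤ r) ∧
      (∀ ε ∈ Icc 0 ε₀, ∀ τ ∈ Ico (0:ℝ) 1, 0 < 1 + etaF (F₁ ε) τ * τ) ∧
      (∀ τ ∈ Ico (0:ℝ) 1, 0 < AF F₂ τ) ∧
      (∀ ε ∈ Ioc 0 ε₀, ∀ τ ∈ Ico (0:ℝ) 1, PosCond p 2 (fK1 (etaF (F₁ ε)) τ)
        (fK0 (etaF (F₁ ε)) τ) (fM (etaF (F₁ ε)) (AF F₂) τ) (fL (etaF (F₁ ε)) (AF F₂) τ)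
        (fN (etaF (F₁ ε)) (AF F₂) τ)) ∧
      0 < ρ₂ ∧ 0 < K ∧ 0 < A0 ∧
      (∀ τ, τ < ρ₂ → etaF (F₁ 0) τ = K / (1 - K * τ)) ∧
      (∀ τ, τ < ρ₂ → AF F₂ τ = A0 - m0 * τ + ν * τ ^ 2 / 2) ∧
      orbF p 3 K A0 m0 = 0 ∧ orbFt p 3 K A0 m0 ν < 0

end Global

end Pool.Agent.RF
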