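import Pool.Agent.Helper36_RF.Geo

/-!
# Ricci flow on closed manifolds (helper36, MP_a23110_gt)
-/

noncomputable section

open scoped ContDiff Topology RealInnerProductSpace Manifold
set_option maxSynthPendingDepth 3
open Set

namespace Pool.Agent.RF

section

variable {n : ℕ} {M : Type} [TopologicalSpace M] [ChartedSpace (EuclideanSpace ℝ (Fin n)) M]

variable (n M) in
/-- fields of bilinear forms on the tangent spaces of `M` -/
abbrev TField : Type :=
  (x : M) → TangentSpace (𝓡 n) x →L[ℝ] TangentSpace (𝓡 n) x →L[ℝ] ℝ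

/-- coordinate expression of a field of bilinear forms in the chart `c` -/
def locRep (g : TField n M) (c : OpenPartialHomeomorph M (EuclideanSpace ℝ (Fin n)))
    (y : E (Fin n)) : Bil (E (Fin n)) :=
  let b : Bil (E (Fin n)) := g (c.symm y)
  let D : E (Fin n) →L[ℝ] E (Fin n) := mfderiv (𝓡 n) (𝓡 n) c.symm y
  b.bilinearComp D D

/-- `g` is a smooth Riemannian metric on `M` -/
def IsRiem (g : TField n M) : Prop :=
  ∀ c ∈ IsManifold.maximalAtlas (𝓡 n) ∞ M, IsMetricOn (locRep g c) c.target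

/-- positive curvature operator of the second kind everywhere on `M` -/
def PosSecondKind (g : TField n M) : Prop :=
  ∀ c ∈ IsManifold.maximalAtlas (𝓡 n) ∞ M, ∀ y ∈ c.target, PosSK (locRep g c) y

/-- nonnegative curvature operator of the second kind everywhere on `M` -/
def NonnegSecondKind (g : TField n M) : Prop :=
  ∀ c ∈ IsManifold.maximalAtlas (𝓡 n) ∞ M, ∀ y ∈ c.target, NonnegSK (locRep g c) y

/-- `g t`, `t ∈ [0,T)`, is a smooth Ricci flow on `M` -/
structure IsRicciFlow (T : ℝ) (g : ℝ → TField n M) : Prop where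
  metric : ∀ t ∈ Ico 0 T, IsRiem (g t)
  smooth : ∀ c ∈ IsManifold.maximalAtlas (𝓡 n) ∞ M,
    ContDiffOn ℝ ∞ (fun q : ℝ × E (Fin n) => locRep (g q.1) c q.2) (Ico 0 T ×ˢ c.target)
  flow : ∀ c ∈ IsManifold.maximalAtlas (𝓡 n) ∞ M, ∀ t ∈ Ico 0 T, ∀ y ∈ c.target, ∀ v w,
    HasDerivWithinAt (fun s => locRep (g s) c y v w) (-2 * ric (locRep (g t) c) y v w)
      (Ico 0 T) t

/-- the interval `[0,T)`, `T ∈ [0,∞]` -/
def tI (T : EReal) : Set ℝ := {t | 0 ≤ t ∧ (t : EReal) < T}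

/-- `g t`, `t ∈ [0,T)`, is a smooth Ricci flow on `M`; here `T ≤ ∞` -/
structure IsFlowE (T : EReal) (g : ℝ → TField n M) : Prop where
  metric : ∀ t ∈ tI T, IsRiem (g t)
  smooth : ∀ c ∈ IsManifold.maximalAtlas (𝓡 n) ∞ M,
    ContDiffOn ℝ ∞ (fun q : ℝ × E (Fin n) => locRep (g q.1) c q.2) (tI T ×ˢ c.target)
  flow : ∀ c ∈ IsManifold.maximalAtlas (𝓡 n) ∞ M, ∀ t ∈ tI T, ∀ y ∈ c.target, ∀ v w,
    HasDerivWithinAt (fun s => locRep (g s) c y v w) (-2 * ric (locRep (g t) c) y v w)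
      (tI T) t

/-- a Ricci flow on `[0,T)` that cannot be extended to a longer time interval -/
def IsMaxFlow (T : EReal) (g : ℝ → TField n M) : Prop :=
  IsFlowE T g ∧ ∀ (T' : EReal) (g' : ℝ → TField n M), T < T' → IsFlowE T' g' →
    ¬ ∀ t ∈ tI T, g' t = g t

end

/-- the field of bilinear forms on the unit sphere induced by a field on the ambient space -/
def sphF {ι : Type} [Fintype ι] [DecidableEq ι] {n : ℕ} [Fact (Module.finrank ℝ (E ι) = n + 1)]
    (G : E ι → Bil (E ι)) : TField n (Metric.sphere (0 : E ι) 1) := fun x =>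
  let D : E (Fin n) →L[ℝ] E ι :=
    mfderiv (𝓡 n) 𝓘(ℝ, E ι) (fun x : Metric.sphere (0 : E ι) 1 => (x : E ι)) x
  ((G x).bilinearComp D D : Bil (E (Fin n)))

/-- F1: local expressions of `sphF G`. -/
def SphStatement : Prop :=
  ∀ (ι : Type) [Fintype ι] [DecidableEq ι] (n : ℕ) [Fact (Module.finrank ℝ (E ι) = n + 1)]
    (G : E ι → Bil (E ι)),
    ∀ c ∈ IsManifold.maximalAtlas (𝓡 n) ∞ (Metric.sphere (0 : E ι) 1),
      ContDiffOn ℝ ∞ (fun y : E (Fin n) => ((c.symm y : Metric.sphere (0 : E ι) 1) : E ι))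
        c.target ∧
      ∀ y ∈ c.target,
        ‖((c.symm y : Metric.sphere (0 : E ι) 1) : E ι)‖ = 1 ∧
        Function.Injective (fderiv ℝ
          (fun y : E (Fin n) => ((c.symm y : Metric.sphere (0 : E ι) 1) : E ι)) y) ∧
        locRep (sphF (n := n) G) c y =
          pullb G (fun y : E (Fin n) => ((c.symm y : Metric.sphere (0 : E ι) 1) : E ι)) y

/-- The final theorem. -/
def MainStatement : Prop :=
  ∀ n : ℕ, 5 ≤ n → ∃ (M : Type) (_ : TopologicalSpace M) (_ : T2Space M) (_ : CompactSpace M)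
    (_ : ConnectedSpace M) (_ : ChartedSpace (EuclideanSpace ℝ (Fin n)) M)
    (_ : IsManifold (𝓡 n) ∞ M) (T : ℝ) (g : ℝ → TField n M), 0 < T ∧ IsRicciFlow T g ∧
    PosSecondKind (g 0) ∧ ∃ t ∈ Ioo 0 T, ¬ NonnegSecondKind (g t)

end Pool.Agent.RF
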