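import Pool.Agent.Helper36_RF.GeoSt
import Pool.Agent.Helper36_RF.Ex
import Pool.Agent.Helper36_RF.Man

/-!
# Modules of the final assembly (helper36, MP_a23110_gt)

Every `...Statement : Prop` below is a self-contained module: prove it in your own file (taking the
indicated statements as hypotheses).
-/

noncomputable section

open scoped ContDiff Topology RealInnerProductSpace Manifold
set_option maxSynthPendingDepth 3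
set_option linter.unusedSectionVars false
open Set

namespace Pool.Agent.RF

/-- DET': as `DeTurckStatement`, with `‖φ t x‖ = ‖x‖`. -/
def DeTurckStatement' : Prop :=
  ∀ (ι κ : Type) [Fintype ι] [DecidableEq ι] [Fintype κ] [DecidableEq κ] (T : ℝ)
    (G : ℝ → E ι → Bil (E ι)), Fintype.card ι = Fintype.card κ + 1 → 0 < T → IsRDT T G →
    ∃ (H : ℝ → E ι → Bil (E ι)) (φ : ℝ → E ι → E ι), IsRF T H ∧
      (∀ x ∈ Om ι, H 0 x = G 0 x) ∧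
      (∀ t ∈ Icc 0 T, ∀ x ∈ Om ι, ‖φ t x‖ = ‖x‖) ∧
      (∀ t ∈ Icc 0 T, ∀ y ∈ Om ι, ‖y‖ = 1 → ∃ x ∈ Om ι, ‖x‖ = 1 ∧ φ t x = y) ∧
      (∀ t ∈ Icc 0 T, ∀ x ∈ Om ι, ‖x‖ = 1 →
        (NonnegTan κ (H t) x ↔ NonnegTan κ (G t) (φ t x)) ∧
        (PosTan κ (H t) x ↔ PosTan κ (G t) (φ t x)))

/-- OPEN: failure of nonnegativity is an open condition in the 2-jet.  (Hint: `riem` is a
continuous function of the 2-jet.  If `e` is a `G 0 x`-orthonormal family with `skf (G 0) x e φ < 0`,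
let `A ε` be its Gram matrix for `G ε x`, `A = Cᵀ C`, `e' = e C⁻¹`,
`φ' = C φ Cᵀ - (tr (φ A) / card κ) • 1`; then `skf (G ε) x e' φ' → skf (G 0) x e φ`.) -/
def OpenStatement : Prop :=
  ∀ (ι κ : Type) [Fintype ι] [DecidableEq ι] [Fintype κ] [DecidableEq κ] (ε₁ : ℝ)
    (G : ℝ → E ι → Bil (E ι)) (x : E ι), Fintype.card ι = Fintype.card κ + 1 → 0 < ε₁ →
    x ∈ Om ι → (∀ ε ∈ Icc 0 ε₁, IsCyl (G ε)) →
    ContinuousWithinAt (fun ε => (G ε x, fderiv ℝ (G ε) x, fderiv ℝ (fderiv ℝ (G ε)) x))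
      (Icc 0 ε₁) 0 →
    ¬ NonnegTan κ (G 0) x → ∃ ε ∈ Ioc 0 ε₁, ¬ NonnegTan κ (G ε) x

/-- hypotheses of the example metrics -/
structure ExHyp (F₁ F₂ : ℝ → ℝ) (ρ₁ : ℝ) : Prop where
  s1 : ContDiff ℝ ∞ F₁
  s2 : ContDiff ℝ ∞ F₂
  lt : ρ₁ < 1
  z1 : ∀ τ, ρ₁ ≤ τ → F₁ τ = 0
  z2 : ∀ τ, ρ₁ ≤ τ → F₂ τ = 0
  p1 : ∀ τ ∈ Ico (0:ℝ) 1, 0 < 1 + etaF F₁ τ * τ
  p2 : ∀ τ ∈ Ico (0:ℝ) 1, 0 < AF F₂ τ

/-- CRIT (from `DeTurckStatement'`, `EvoStatement`, `SliceStatement`, `CylExStatement`): a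
Ricci-DeTurck flow starting from the critical metric leaves the closed cone.  (Apply
`EvoStatement` to `fun t => pullb (H t) (psiR (.refl ..))` on `D = DomG _ _ (min ρ₂ 1)`.) -/
def CritStatement : Prop :=
  ∀ (p : ℕ) (F₁ F₂ : ℝ → ℝ) (ρ₁ ρ₂ K A0 m0 ν T : ℝ)
    (G : ℝ → E (Option (Fin p) ⊕ Fin 3) → Bil (E (Option (Fin p) ⊕ Fin 3))),
    2 ≤ p → ExHyp F₁ F₂ ρ₁ → 0 < ρ₂ → 0 < K → 0 < A0 →
    (∀ τ, τ < ρ₂ → etaF F₁ τ = K / (1 - K * τ)) →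
    (∀ τ, τ < ρ₂ → AF F₂ τ = A0 - m0 * τ + ν * τ ^ 2 / 2) →
    orbF p 3 K A0 m0 = 0 → orbFt p 3 K A0 m0 ν < 0 →
    0 < T → IsRDT T G → (∀ x ∈ Om (Option (Fin p) ⊕ Fin 3), G 0 x = Gcyl F₁ F₂ x) →
    ∃ t ∈ Ioo 0 T, ∃ x, ‖x‖ = 1 ∧ ¬ NonnegTan (Fin p ⊕ Fin 3) (G t) x

/-- INIT (from `CylExStatement`, `PosLocStatement`, `RoundPosStatement`, `SliceStatement`):
positivity of the example metrics. -/
def InitStatement : Prop :=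
  ∀ (p : ℕ) (F₁ F₂ : ℝ → ℝ) (ρ₁ : ℝ), 2 ≤ p → ExHyp F₁ F₂ ρ₁ →
    (∀ τ ∈ Ico (0:ℝ) 1, PosCond p 2 (fK1 (etaF F₁) τ) (fK0 (etaF F₁) τ)
      (fM (etaF F₁) (AF F₂) τ) (fL (etaF F₁) (AF F₂) τ) (fN (etaF F₁) (AF F₂) τ)) →
    ∀ x : E (Option (Fin p) ⊕ Fin 3), ‖x‖ = 1 → PosTan (Fin p ⊕ Fin 3) (Gcyl F₁ F₂) x

/-- GSM: joint smoothness of the family (see `contDiffOn_Gcyl` in `Helper80_RF/CylEx1.lean`). -/
def GsmStatement : Prop :=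
  ∀ (α β : Type) [Fintype α] [DecidableEq α] [Fintype β] [DecidableEq β] (F₁ : ℝ → ℝ → ℝ)
    (F₂ : ℝ → ℝ), ContDiff ℝ ∞ (fun q : ℝ × ℝ => F₁ q.1 q.2) → ContDiff ℝ ∞ F₂ →
    ContDiffOn ℝ ∞ (fun q : ℝ × E (Option α ⊕ β) => Gcyl (F₁ q.1) F₂ q.2)
      (univ ×ˢ Om (Option α ⊕ β))

/-- MAN (from `SphStatement`, `SliceStatement`; `ric_congr`, `riem_congr` are in `Chr.lean`):
a Ricci flow of cylinder metrics induces a Ricci flow on the sphere. -/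
def ManStatement : Prop :=
  ∀ (ι κ : Type) [Fintype ι] [DecidableEq ι] [Fintype κ] [DecidableEq κ] (n : ℕ)
    [Fact (Module.finrank ℝ (E ι) = n + 1)] (T t₁ : ℝ) (H : ℝ → E ι → Bil (E ι)) (x₁ : E ι),
    Fintype.card ι = Fintype.card κ + 1 → IsRF T H → t₁ ∈ Ioo 0 T →
    (∀ x, ‖x‖ = 1 → PosTan κ (H 0) x) → ‖x₁‖ = 1 → ¬ NonnegTan κ (H t₁) x₁ →
    IsRicciFlow T (fun t => sphF (n := n) (H t)) ∧ PosSecondKind (sphF (n := n) (H 0)) ∧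
      ¬ NonnegSecondKind (sphF (n := n) (H t₁))

/-- ZORN: every Ricci flow extends to a maximal one. -/
def ZornStatement : Prop :=
  ∀ (n : ℕ) (M : Type) [TopologicalSpace M] [ChartedSpace (EuclideanSpace ℝ (Fin n)) M] (T : ℝ)
    (g : ℝ → TField n M), 0 < T → IsRicciFlow T g →
    ∃ (T' : EReal) (g' : ℝ → TField n M), (T : EReal) ≤ T' ∧ IsMaxFlow T' g' ∧
      ∀ t ∈ Ico 0 T, g' t = g t

/-- The final theorem. -/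
def FinalStatement : Prop :=
  ∀ n : ℕ, 5 ≤ n → ∃ (ι : Type) (_ : Fintype ι)
    (_ : Fact (Module.finrank ℝ (EuclideanSpace ℝ ι) = n + 1)) (T : EReal)
    (g : ℝ → TField n (Metric.sphere (0 : EuclideanSpace ℝ ι) 1)),
    0 < T ∧ IsMaxFlow T g ∧ PosSecondKind (g 0) ∧
      ∃ t : ℝ, 0 < t ∧ (t : EReal) < T ∧ ¬ NonnegSecondKind (g t)

end Pool.Agent.RF
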