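import Mathlib

/-!
# Abstract maximal regularity for isometry groups (helper36, MP_a23110_gt)
-/

noncomputable section

open scoped ContDiff Topology
set_option maxSynthPendingDepth 3
open Set

namespace Pool.Agent.RF

/-- Finitely many directions `A` inside a family `Γ` of one-parameter isometry groups acting on a
Banach space, with enough finite vectors, and such that the Casimir operator `∑ X_a²` commutes with
all `X_b` on finite vectors. -/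
structure RotSys (𝓔 : Type) [NormedAddCommGroup 𝓔] [NormedSpace ℝ 𝓔] (Γ A : Type) [Fintype A] where
  T : Γ → ℝ → 𝓔 →L[ℝ] 𝓔
  J : A → Γ
  c : Γ → A → ℝ
  F : ℕ → Submodule ℝ 𝓔
  T_zero : ∀ g f, T g 0 f = f
  T_add : ∀ g s t f, T g (s + t) f = T g s (T g t f)
  norm_T : ∀ g s f, ‖T g s f‖ = ‖f‖
  cont_T : ∀ g f, Continuous fun s => T g s f
  c_le : ∀ g a, |c g a| ≤ 1
  F_mono : Monotone F
  F_fin : ∀ k, FiniteDimensional ℝ (F k)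
  F_inv : ∀ k g s, ∀ f ∈ F k, T g s f ∈ F k
  F_dense : Dense (⋃ k, (F k : Set 𝓔))
  X_lin : ∀ k, ∀ f ∈ F k, ∀ g, deriv (fun s => T g s f) 0 =
    ∑ a, c g a • deriv (fun s => T (J a) s f) 0
  casimir : ∀ k, ∀ f ∈ F k, ∀ b,
    deriv (fun s => T (J b) s (∑ a, deriv (fun r => T (J a) r
      (deriv (fun q => T (J a) q f) 0)) 0)) 0
    = ∑ a, deriv (fun s => T (J a) s (deriv (fun r => T (J a) r
      (deriv (fun q => T (J b) q f) 0)) 0)) 0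

namespace RotSys

variable {𝓔 : Type} [NormedAddCommGroup 𝓔] [NormedSpace ℝ 𝓔] {Γ A : Type} [Fintype A]

/-- `f'` is the derivative of `f` along the one-parameter group `g` -/
def HasGen (R : RotSys 𝓔 Γ A) (g : Γ) (f f' : 𝓔) : Prop :=
  HasDerivAt (fun s => R.T g s f) f' 0

end RotSys

/-- The heat semigroup generated by the Casimir operator; `Y a t = X_a S(t)`. -/
structure Heat {𝓔 : Type} [NormedAddCommGroup 𝓔] [NormedSpace ℝ 𝓔] {Γ A : Type} [Fintype A]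
    (R : RotSys 𝓔 Γ A) where
  S : ℝ → 𝓔 →L[ℝ] 𝓔
  Y : A → ℝ → 𝓔 →L[ℝ] 𝓔
  S_zero : ∀ f, S 0 f = f
  S_add : ∀ s t, 0 ≤ s → 0 ≤ t → ∀ f, S (s + t) f = S s (S t f)
  norm_S : ∀ t, 0 ≤ t → ∀ f, ‖S t f‖ ≤ ‖f‖
  comm : ∀ t, 0 ≤ t → ∀ g s f, S t (R.T g s f) = R.T g s (S t f)
  cont : ∀ f, ContinuousOn (fun t => S t f) (Ici 0)
  gen_Y : ∀ a t, 0 < t → ∀ f, R.HasGen (R.J a) (S t f) (Y a t f)
  gen_dir : ∀ g t, 0 < t → ∀ f, R.HasGen g (S t f) (∑ a, R.c g a • Y a t f)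
  norm_Y : ∀ a t, 0 < t → ∀ f, ‖Y a t f‖ ≤ ‖f‖ / √(2 * t)
  Y_add : ∀ a s t, 0 < s → 0 ≤ t → ∀ f, Y a (s + t) f = Y a s (S t f) ∧ Y a (s + t) f = S t (Y a s f)
  S_gen : ∀ a t, 0 < t → ∀ f f', R.HasGen (R.J a) f f' → Y a t f = S t f'
  /-- the heat equation on `C²` vectors -/
  heat : ∀ (f : 𝓔) (fa faa : A → 𝓔), (∀ a, R.HasGen (R.J a) f (fa a)) →
    (∀ a, R.HasGen (R.J a) (fa a) (faa a)) → ∀ t, 0 ≤ t →
    HasDerivWithinAt (fun t => S t f) (S t (∑ a, faa a)) (Ici 0) t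
  /-- `C²` vectors are `C²` limits of finite vectors -/
  approx : ∀ (f : 𝓔) (fa : A → 𝓔) (fab : A → A → 𝓔), (∀ a, R.HasGen (R.J a) f (fa a)) →
    (∀ a b, R.HasGen (R.J a) (fa b) (fab a b)) → ∀ ε, 0 < ε →
    ∃ (k : ℕ) (p : 𝓔) (pa : A → 𝓔) (pab : A → A → 𝓔), p ∈ R.F k ∧
      (∀ a, pa a ∈ R.F k) ∧ (∀ a b, pab a b ∈ R.F k) ∧
      (∀ a, R.HasGen (R.J a) p (pa a)) ∧ (∀ a b, R.HasGen (R.J a) (pa b) (pab a b)) ∧
      ‖p - f‖ < ε ∧ (∀ a, ‖pa a - fa a‖ < ε) ∧ (∀ a b, ‖pab a b - fab a b‖ < ε)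

/-- L1: Bernstein's estimate in finite dimension. -/
def BernsteinStatement : Prop :=
  ∀ (F : Type) [NormedAddCommGroup F] [NormedSpace ℝ F] [FiniteDimensional ℝ F]
    (A : Type) [Fintype A] (X : A → F →L[ℝ] F),
    (∀ a (s : ℝ) f, ‖NormedSpace.exp (s • X a) f‖ = ‖f‖) →
    (∀ b, (∑ a, X a * X a) * X b = X b * (∑ a, X a * X a)) →
    ∀ t : ℝ, 0 ≤ t → ∀ f,
      ‖NormedSpace.exp (t • ∑ a, X a * X a) f‖ ≤ ‖f‖ ∧
      ∀ b, 2 * t * ‖X b (NormedSpace.exp (t • ∑ a, X a * X a) f)‖ ^ 2 ≤ ‖f‖ ^ 2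

/-- L2: existence of the heat semigroup. -/
def HeatStatement : Prop :=
  ∀ (𝓔 : Type) [NormedAddCommGroup 𝓔] [NormedSpace ℝ 𝓔] [CompleteSpace 𝓔]
    (Γ A : Type) [Fintype A] (R : RotSys 𝓔 Γ A), Nonempty (Heat R)

/-- L3/L4: maximal regularity for Duhamel's integral in Hölder-`1/2` norms along the groups. -/
def MaxRegStatement : Prop :=
  ∀ (𝓔 : Type) [NormedAddCommGroup 𝓔] [NormedSpace ℝ 𝓔] [CompleteSpace 𝓔]
    (Γ A : Type) [Fintype A] (R : RotSys 𝓔 Γ A) (H : Heat R),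
    ∃ C : ℝ, 0 < C ∧ ∀ (T : ℝ), 0 < T → T ≤ 1 → ∀ (M : ℝ) (f : ℝ → 𝓔),
      ContinuousOn f (Icc 0 T) → (∀ t ∈ Icc 0 T, ‖f t‖ ≤ M) →
      (∀ t ∈ Icc 0 T, ∀ g, ∀ s ∈ Icc (0:ℝ) 1, ‖R.T g s (f t) - f t‖ ≤ M * √s) →
      ∃ (va : A → ℝ → 𝓔) (vab : A → A → ℝ → 𝓔),
        let v : ℝ → 𝓔 := fun t => ∫ r in (0:ℝ)..t, H.S (t - r) (f r)
        ContinuousOn v (Icc 0 T) ∧ (∀ a, ContinuousOn (va a) (Icc 0 T)) ∧
        (∀ a b, ContinuousOn (vab a b) (Icc 0 T)) ∧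
        (∀ t ∈ Icc 0 T, (∀ a, R.HasGen (R.J a) (v t) (va a t)) ∧
          (∀ a b, R.HasGen (R.J a) (va b t) (vab a b t)) ∧
          HasDerivWithinAt v (∑ a, vab a a t + f t) (Icc 0 T) t ∧
          ‖v t‖ ≤ C * M * T ^ (1/4 : ℝ) ∧ (∀ a, ‖va a t‖ ≤ C * M * T ^ (1/4 : ℝ)) ∧
          (∀ a b, ‖vab a b t‖ ≤ C * M * T ^ (1/4 : ℝ)) ∧
          ∀ g, ∀ s ∈ Icc (0:ℝ) 1,
            ‖R.T g s (v t) - v t‖ ≤ C * M * T ^ (1/4 : ℝ) * √s ∧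
            (∀ a, ‖R.T g s (va a t) - va a t‖ ≤ C * M * T ^ (1/4 : ℝ) * √s) ∧
            (∀ a b, ‖R.T g s (vab a b t) - vab a b t‖ ≤ C * M * √s))

end Pool.Agent.RF
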