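import Pool.Agent.Helper36_RF.Cl

/-!
# Statements on the classical formulation (MP_a23110_gt)
-/

noncomputable section

open scoped ContDiff Topology
open Set

namespace Pool.Agent.SecondKind

/-- ZORN2: every Ricci flow extends to a maximal one (same proof as `Helper80_RF/Zorn.lean`; the
extension order uses equality `b.2 t = a.2 t`; to check maximality with respect to `SameForm`,
replace a flow `g''` with `SameForm (g'' t) (m t)` by `fun t => if t ∈ interval _ then m t else g'' t`,
using that all components `comp g ψ` on `U` only depend on `g` up to `SameForm`). -/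
def ZornStatement : Prop :=
  ∀ (n : ℕ) (T : ℝ) (g : ℝ → Form n), 0 < T → IsRicciFlow (T : EReal) g →
    ∃ (T' : EReal) (g' : ℝ → Form n), (T : EReal) ≤ T' ∧ IsMaximalRicciFlow T' g' ∧
      ∀ t ∈ Ico 0 T, g' t = g t

end Pool.Agent.SecondKind
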