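import Pool.Agent.Helper36_RF.ClMan
import Pool.Agent.Helper36_RF.ClSt
import Pool.Agent.Helper36_RF.ExistSt

/-!
# The final assembly for the classical formulation (helper36, MP_a23110_gt)
-/

noncomputable section

open scoped ContDiff Topology RealInnerProductSpace Manifold
set_option maxSynthPendingDepth 3
set_option linter.unusedSectionVars false
open Set

namespace Pool.Agent.RF

/-- the Ricci flow of cylinder metrics -/
theorem core (hEx : ExistStatement) (hDT : DeTurckStatement') (hOpen : OpenStatement)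
    (hCrit : CritStatement) (hInit : InitStatement) (hGsm : GsmStatement)
    (hFam : FamStatement) (hCyl : CylExStatement) (p : ℕ) (hp : 2 ≤ p) :
    ∃ (T t : ℝ) (H : ℝ → E (Option (Fin p) ⊕ Fin 3) → Bil (E (Option (Fin p) ⊕ Fin 3)))
      (x' : E (Option (Fin p) ⊕ Fin 3)), IsRF T H ∧ t ∈ Ioo 0 T ∧
      (∀ y, ‖y‖ = 1 → PosTan (Fin p ⊕ Fin 3) (H 0) y) ∧ ‖x'‖ = 1 ∧
      ¬ NonnegTan (Fin p ⊕ Fin 3) (H t) x' := by
  have hcard : Fintype.card (Option (Fin p) ⊕ Fin 3) = Fintype.card (Fin p ⊕ Fin 3) + 1 := by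
    rw [Fintype.card_sum, Fintype.card_option, Fintype.card_sum, Fintype.card_fin,
      Fintype.card_fin]
  obtain ⟨r, hr, hE⟩ := hEx (Option (Fin p) ⊕ Fin 3) (by
    rw [Fintype.card_sum, Fintype.card_option, Fintype.card_fin, Fintype.card_fin]
    omega)
  obtain ⟨F₁, F₂, ρ₁, ε₀, ρ₂, K, A0, m0, ν, s1, s2, hρ₁, hρ₁', hε₀, z1, z2, b1, b2, p1, p2, hpc,
    hρ₂, hK, hA0, hη, hA, hf, hft⟩ := hFam p hp (r / 4) (by positivity)
  have hyp : ∀ ε ∈ Icc 0 ε₀, ExHyp (F₁ ε) F₂ ρ₁ := fun ε hε =>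
    ⟨s1.comp (contDiff_const.prodMk contDiff_id), s2, hρ₁', z1 ε, z2, p1 ε hε, p2⟩
  have hcyl : ∀ ε ∈ Icc 0 ε₀, IsCyl (Gcyl (F₁ ε) F₂ : E (Option (Fin p) ⊕ Fin 3) → _) :=
    fun ε hε => (hCyl (Fin p) (Fin 3) (F₁ ε) F₂ ρ₁ (hyp ε hε).s1 s2 hρ₁' (z1 ε) z2 (p1 ε hε) p2).1
  have h0mem : (0:ℝ) ∈ Icc 0 ε₀ := ⟨le_rfl, hε₀.le⟩
  have hbd : ∀ x : E (Option (Fin p) ⊕ Fin 3), ‖x‖ = 1 → ‖Gcyl (F₁ 0) F₂ x - del _‖ < r := by
    intro x hx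
    have := (hCyl (Fin p) (Fin 3) (F₁ 0) F₂ ρ₁ (hyp 0 h0mem).s1 s2 hρ₁' (z1 0) z2 (p1 0 h0mem)
      p2).2.2.2.2 (r / 4) (r / 4) (b1 0 h0mem) b2 x hx
    linarith
  obtain ⟨T, ε₁, G, hT, hε₁, hG, hcont⟩ := hE (fun ε => Gcyl (F₁ ε) F₂) ε₀ hε₀ hcyl
    (hGsm (Fin p) (Fin 3) F₁ F₂ s1 s2) hbd
  have h0mem' : (0:ℝ) ∈ Icc 0 ε₁ := ⟨le_rfl, hε₁.1.le⟩
  obtain ⟨t, ht, x, hx, hneg⟩ := hCrit p (F₁ 0) F₂ ρ₁ ρ₂ K A0 m0 ν T (G 0) hp (hyp 0 h0mem) hρ₂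
    hK hA0 hη hA hf hft hT (hG 0 h0mem').1 (hG 0 h0mem').2
  have htI : t ∈ Icc 0 T := ⟨ht.1.le, ht.2.le⟩
  have hxO : x ∈ Om (Option (Fin p) ⊕ Fin 3) := by
    intro h0
    rw [h0, norm_zero] at hx
    exact zero_ne_one hx
  obtain ⟨ε, hε, hneg'⟩ := hOpen (Option (Fin p) ⊕ Fin 3) (Fin p ⊕ Fin 3) ε₁ (fun ε => G ε t) x
    hcard hε₁.1 hxO (fun ε hε => (hG ε hε).1.cyl t htI) (hcont t htI x hxO) hneg
  have hεI : ε ∈ Icc 0 ε₁ := ⟨hε.1.le, hε.2⟩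
  have hε0 : ε ∈ Ioc 0 ε₀ := ⟨hε.1, hε.2.trans hε₁.2⟩
  obtain ⟨H, φ, hRF, hH0, hφ, hsurj, hiff⟩ := hDT (Option (Fin p) ⊕ Fin 3) (Fin p ⊕ Fin 3) T
    (G ε) hcard hT (hG ε hεI).1
  obtain ⟨x', hx', hx'1, hφx⟩ := hsurj t htI x hxO hx
  have hnegH : ¬ NonnegTan (Fin p ⊕ Fin 3) (H t) x' := by
    intro h
    apply hneg'
    have := (hiff t htI x' hx' hx'1).1.1 h
    rwa [hφx] at this
  have hpos : ∀ y, ‖y‖ = 1 → PosTan (Fin p ⊕ Fin 3) (H 0) y := by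
    intro y hy
    have hyO : y ∈ Om (Option (Fin p) ⊕ Fin 3) := by
      intro h0
      rw [h0, norm_zero] at hy
      exact zero_ne_one hy
    have h1 := hInit p (F₁ ε) F₂ ρ₁ hp (hyp ε ⟨hε0.1.le, hε0.2⟩) (hpc ε hε0) y hy
    refine posTan_congr ?_ h1
    filter_upwards [(isOpen_Om' _).mem_nhds hyO] with z hz
    rw [hH0 z hz, (hG ε hεI).2 z hz]
  exact ⟨T, t, H, x', hRF, ht, hpos, hx'1, hnegH⟩

/-- The final statement in the classical formulation. -/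
def ClStatement : Prop :=
  ∀ n : ℕ, 5 ≤ n → ∃ (T : EReal) (g : ℝ → SecondKind.Form n), 0 < T ∧
    SecondKind.IsMaximalRicciFlow T g ∧ SecondKind.PosSecondKind (g 0) ∧
      ∃ t : ℝ, 0 < t ∧ (t : EReal) < T ∧ ¬ SecondKind.NonnegSecondKind (g t)

theorem finalCl (hEx : ExistStatement) (hDT : DeTurckStatement') (hOpen : OpenStatement)
    (hCrit : CritStatement) (hInit : InitStatement) (hGsm : GsmStatement)
    (hFam : FamStatement) (hCyl : CylExStatement) (hSph : SphStatement) (hSl : SliceStatement)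
    (hZ : SecondKind.ZornStatement) : ClStatement := by
  intro n hn
  obtain ⟨p, rfl⟩ : ∃ p, n = p + 3 := ⟨n - 3, by omega⟩
  obtain ⟨T, t, H, x', hRF, ht, hpos, hx', hneg⟩ :=
    core hEx hDT hOpen hCrit hInit hGsm hFam hCyl p (by omega)
  have hcard : Fintype.card (Option (Fin p) ⊕ Fin 3) = Fintype.card (Fin (p + 3 + 1)) := by
    rw [Fintype.card_sum, Fintype.card_option, Fintype.card_fin, Fintype.card_fin,
      Fintype.card_fin]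
  have hcard' : Fintype.card (Option (Fin p) ⊕ Fin 3) = Fintype.card (Fin p ⊕ Fin 3) + 1 := by
    rw [Fintype.card_sum, Fintype.card_option, Fintype.card_sum, Fintype.card_fin,
      Fintype.card_fin]
  let σ : (Option (Fin p) ⊕ Fin 3) ≃ Fin (p + 3 + 1) := Fintype.equivOfCardEq hcard
  obtain ⟨m1, m2, m3⟩ := SecondKind.man' σ hSph hSl hcard' hRF ht hpos hx' hneg
  have hT : 0 < T := ht.1.trans ht.2
  obtain ⟨T', g', hT', hmax, hext⟩ := hZ (p + 3) T _ hT m1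
  refine ⟨T', g', ?_, hmax, ?_, t, ht.1, ?_, ?_⟩
  · exact lt_of_lt_of_le (by exact_mod_cast hT) hT'
  · rw [hext 0 ⟨le_rfl, hT⟩]
    exact m2
  · exact lt_of_lt_of_le (by exact_mod_cast ht.2) hT'
  · rw [hext t ⟨ht.1.le, ht.2⟩]
    exact m3

end Pool.Agent.RF
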