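import Pool.Agent.Helper36_RF.Csm
import Pool.Agent.Helper85_RF.RotPair

/-!
# Module DATA: two-jets of smooth families, generators, rotations (helper36, MP_a23110_gt)
-/

noncomputable section

open scoped ContDiff Topology RealInnerProductSpace
set_option maxSynthPendingDepth 3
set_option linter.unusedSectionVars false
open Set Metric

namespace Pool.Agent.RF

variable {ι : Type} [Fintype ι] [DecidableEq ι]

theorem isOpen_uOm (P : Type) [NormedAddCommGroup P] [NormedSpace ℝ P] :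
    IsOpen ((univ : Set P) ×ˢ Om ι) := isOpen_univ.prod isOpen_ne

theorem contDiffOn_lieX_joint {P : Type} [NormedAddCommGroup P] [NormedSpace ℝ P]
    {F : P → E ι → Bil (E ι)}
    (hF : ContDiffOn ℝ ∞ (fun q : P × E ι => F q.1 q.2) (univ ×ˢ Om ι)) (J : E ι →L[ℝ] E ι) :
    ContDiffOn ℝ ∞ (fun q : P × E ι => lieX J (F q.1) q.2) (univ ×ˢ Om ι) := by
  have hop := isOpen_uOm (ι := ι) P
  have h1 : ContDiffOn ℝ ∞ (fderiv ℝ (fun q : P × E ι => F q.1 q.2)) (univ ×ˢ Om ι) :=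
    hF.fderiv_of_isOpen hop (by simp)
  have h2 : ContDiffOn ℝ ∞ (fun q : P × E ι =>
      (fderiv ℝ (fun q : P × E ι => F q.1 q.2) q) ((0 : P), J q.2)) (univ ×ˢ Om ι) :=
    h1.clm_apply (contDiff_const.prodMk (J.contDiff.comp contDiff_snd)).contDiffOn
  have h3 : ContDiffOn ℝ ∞ (fun q : P × E ι =>
      (pull2 J (ContinuousLinearMap.id ℝ (E ι))) (F q.1 q.2)) (univ ×ˢ Om ι) :=
    (pull2 J (ContinuousLinearMap.id ℝ (E ι))).contDiff.comp_contDiffOn hF
  have h4 : ContDiffOn ℝ ∞ (fun q : P × E ι =>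
      (pull2 (ContinuousLinearMap.id ℝ (E ι)) J) (F q.1 q.2)) (univ ×ˢ Om ι) :=
    (pull2 (ContinuousLinearMap.id ℝ (E ι)) J).contDiff.comp_contDiffOn hF
  apply ((h2.add h3).add h4).congr
  intro q hq
  have hd : DifferentiableAt ℝ (fun q : P × E ι => F q.1 q.2) q :=
    (hF.contDiffAt (hop.mem_nhds hq)).differentiableAt (by simp)
  have h5 : HasFDerivAt (F q.1)
      ((fderiv ℝ (fun q : P × E ι => F q.1 q.2) q).comp (ContinuousLinearMap.inr ℝ P (E ι)))
      q.2 := by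
    have := HasFDerivAt.comp q.2 (f := fun x : E ι => (q.1, x))
      (g := fun q : P × E ι => F q.1 q.2) hd.hasFDerivAt (hasFDerivAt_prodMk_right q.1 q.2)
    exact this
  show fderiv ℝ (F q.1) q.2 (J q.2) + _ + _ = _
  rw [h5.fderiv]
  rfl

theorem data (hnem : NemStatement) : DataStatement := by
  intro ι _ _ P _ _ _ F hF
  have h1 : ContDiffOn ℝ ∞ (fun q : P × E ι => (fun a => lieX (Jst a) (F q.1) q.2 : A1 ι))
      (univ ×ˢ Om ι) := by
    rw [contDiffOn_pi]
    intro a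
    exact contDiffOn_lieX_joint hF (Jst a)
  have h2 : ContDiffOn ℝ ∞ (fun q : P × E ι =>
      (fun a b => lieX (Jst a) (lieX (Jst b) (F q.1)) q.2 : A2 ι)) (univ ×ˢ Om ι) := by
    rw [contDiffOn_pi]
    intro a
    rw [contDiffOn_pi]
    intro b
    exact contDiffOn_lieX_joint (F := fun s => lieX (Jst b) (F s))
      (contDiffOn_lieX_joint hF (Jst b)) (Jst a)
  obtain ⟨Q0, a0, b0⟩ := exists_family hnem (fun q : P × E ι => F q.1 q.2) hF
  obtain ⟨Q1, a1, b1⟩ := exists_family hnem _ h1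
  obtain ⟨Q2, a2, b2⟩ := exists_family hnem _ h2
  refine ⟨fun s => (Q0 s, Q1 s, Q2 s), a0.prodMk (a1.prodMk a2), ?_⟩
  intro s
  refine ⟨fun t x => b0 s t x, fun t x a => ?_, fun t x a b => ?_⟩
  · show Q1 s (t, x) a = _
    rw [b1]
  · show Q2 s (t, x) a b = _
    rw [b2]

theorem contDiff_rot : ContDiff ℝ ∞ (fun q : (E ι →L[ℝ] E ι) × ℝ => rot q.1 q.2) := by
  have h1 : ContDiff ℝ ∞ (NormedSpace.exp : (E ι →L[ℝ] E ι) → (E ι →L[ℝ] E ι)) := by
    rw [contDiff_iff_contDiffAt]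
    intro x
    exact (NormedSpace.exp_analytic (𝕂 := ℝ) x).contDiffAt
  exact h1.comp (contDiff_snd.smul contDiff_fst)

/-- the slice map -/
def slL (ι : Type) [Fintype ι] [DecidableEq ι] (t : Icc (0:ℝ) 1) :
    FT ι (Bil (E ι)) →L[ℝ] C(Sph ι, Bil (E ι)) :=
  LinearMap.mkContinuous
    { toFun := fun p => sl p t
      map_add' := fun _ _ => rfl
      map_smul' := fun _ _ => rfl } 1 (by
    intro p
    rw [one_mul]
    refine (ContinuousMap.norm_le _ (norm_nonneg _)).2 ?_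
    intro x
    exact p.norm_apply_le (t, x))

@[simp] theorem slL_apply (t : Icc (0:ℝ) 1) (p : FT ι (Bil (E ι))) : slL ι t p = sl p t := rfl

theorem hasDerivAt_rpull {u : E ι → Bil (E ι)} {J : E ι →L[ℝ] E ι} {x : E ι}
    (hu : DifferentiableAt ℝ u x) :
    HasDerivAt (fun s : ℝ => rpull (rot J s) u x) (lieX J u x) 0 := by
  have h0 : rot J 0 x = x := by rw [rot_zero]; rfl
  have hr := H85.hasDerivAt_rot_apply J 0
  have h1 : HasDerivAt (fun s : ℝ => u (rot J s x)) (fderiv ℝ u x (J x)) 0 := by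
    have h2 : HasFDerivAt u (fderiv ℝ u x) (rot J 0 x) := by rw [h0]; exact hu.hasFDerivAt
    have h3 := h2.comp_hasDerivAt (0:ℝ) (hr x)
    rw [h0] at h3
    exact h3
  have hrot : HasDerivAt (fun s : ℝ => rot J s) J 0 := by
    have := H85.hasDerivAt_rot J 0
    have e : rot J 0 * J = J := by rw [rot_zero]; rfl
    rwa [e] at this
  -- bilinear
  let B1 : (E ι →L[ℝ] E ι) →L[ℝ] Bil (E ι) →L[ℝ] Bil (E ι) :=
    (ContinuousLinearMap.compL ℝ (E ι) (E ι) (E ι →L[ℝ] ℝ)).flip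
  let B2 : (E ι →L[ℝ] E ι) →L[ℝ] Bil (E ι) →L[ℝ] Bil (E ι) :=
    (ContinuousLinearMap.compL ℝ (E ι) (E ι →L[ℝ] ℝ) (E ι →L[ℝ] ℝ)) ∘L
      ((ContinuousLinearMap.compL ℝ (E ι) (E ι) ℝ).flip)
  have h5 : HasDerivAt (fun s : ℝ => B2 (rot J s) (u (rot J s x)))
      (B2 J (u x) + B2 (rot J 0) (fderiv ℝ u x (J x))) 0 := by
    have := ((B2.hasFDerivAt.comp_hasDerivAt (0:ℝ) hrot)).clm_apply h1
    simp only [Function.comp_apply, h0] at this
    exact this
  have h6 : HasDerivAt (fun s : ℝ => B1 (rot J s) (B2 (rot J s) (u (rot J s x))))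
      (B1 J (B2 (rot J 0) (u x)) + B1 (rot J 0) (B2 J (u x) + B2 (rot J 0) (fderiv ℝ u x (J x))))
      0 := by
    have := ((B1.hasFDerivAt.comp_hasDerivAt (0:ℝ) hrot)).clm_apply h5
    simp only [Function.comp_apply, h0] at this
    exact this
  have e1 : B1 J (B2 (rot J 0) (u x)) + B1 (rot J 0) (B2 J (u x) +
      B2 (rot J 0) (fderiv ℝ u x (J x))) = lieX J u x := by
    rw [rot_zero]
    ext v w
    show u x (J v) w + (u x v (J w) + fderiv ℝ u x (J x) v w) = _
    rw [lieX_apply]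
    ring
  rw [e1] at h6
  exact h6

theorem gen (hnem : NemStatement) : GenStatement := by
  intro ι _ _ R hR u hu J f f' hf hf'
  have hsm : ContDiffOn ℝ ∞ (fun q : ℝ × E ι => rpull (rot J.1 q.1) u q.2) (univ ×ˢ Om ι) := by
    apply contDiffOn_rpull hu (ρ := fun s => rot J.1 s)
    · exact (contDiff_rot (ι := ι)).comp (contDiff_const.prodMk contDiff_id)
    · exact H85.norm_rot J
  obtain ⟨Q, hQ1, hQ2⟩ := exists_family hnem (fun q : ℝ × E ι => rpull (rot J.1 q.1) u q.2) hsm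
  let t0 : Icc (0:ℝ) 1 := ⟨0, by simp⟩
  have hT : (fun s => R.T J s f) = fun s => slL ι t0 (Q s) := by
    funext s
    ext1 x
    have hy : ‖rot J.1 s (x : E ι)‖ = 1 := by
      rw [H85.norm_rot]; exact mem_sphere_zero_iff_norm.1 x.2
    let y : Sph ι := ⟨rot J.1 s x, mem_sphere_zero_iff_norm.2 hy⟩
    rw [hR.T_apply J s f x y rfl, hf y]
    show _ = Q s (t0, x)
    rw [hQ2]
    rfl
  have hd : HasDerivAt (fun s => R.T J s f) (slL ι t0 (deriv Q 0)) 0 := by
    rw [hT]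
    exact (slL ι t0).hasFDerivAt.comp_hasDerivAt (0:ℝ)
      ((hQ1.differentiable (by simp)).differentiableAt.hasDerivAt)
  have e : slL ι t0 (deriv Q 0) = f' := by
    ext1 x
    have h1 : HasDerivAt (fun s => Q s (t0, x)) ((deriv Q 0) (t0, x)) 0 :=
      (LipSp.evalL (P := PS ι) (Y := Bil (E ι)) (t0, x)).hasFDerivAt.comp_hasDerivAt (0:ℝ)
        ((hQ1.differentiable (by simp)).differentiableAt.hasDerivAt)
    have h2 : (fun s => Q s (t0, x)) = fun s => rpull (rot J.1 s) u x := by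
      funext s
      rw [hQ2]
    rw [h2] at h1
    have hx : (x : E ι) ∈ Om ι := by
      intro h0
      have := mem_sphere_zero_iff_norm.1 x.2
      rw [h0, norm_zero] at this
      exact zero_ne_one this
    have hux : DifferentiableAt ℝ u x :=
      (hu.contDiffAt (isOpen_ne.mem_nhds hx)).differentiableAt (by simp)
    show (deriv Q 0) (t0, x) = f' x
    rw [hf', h1.unique (hasDerivAt_rpull hux)]
  rw [e] at hd
  exact hd

theorem dist_rot (J : Gam ι) (s : ℝ) (x y : E ι) :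
    dist (rot J.1 s x) (rot J.1 s y) = dist x y := by
  rw [dist_eq_norm, dist_eq_norm, ← map_sub, H85.norm_rot]

theorem rotFT : RotFTStatement := by
  intro ι _ _ hι
  refine ⟨contDiff_rot, ?_⟩
  intro R hR J s p
  have hmem : ∀ x : Sph ι, rot J.1 s (x : E ι) ∈ sphere (0 : E ι) 1 := by
    intro x
    rw [mem_sphere_zero_iff_norm, H85.norm_rot]
    exact mem_sphere_zero_iff_norm.1 x.2
  let ρ : Sph ι → Sph ι := fun x => ⟨rot J.1 s x, hmem x⟩
  have hρ : Continuous ρ := by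
    apply Continuous.subtype_mk
    exact (rot J.1 s).continuous.comp continuous_subtype_val
  have hiso : ∀ b : Bil (E ι), ‖pull2 (rot J.1 s) (rot J.1 s) b‖ ≤ ‖b‖ := fun b =>
    norm_bilinearComp_le b (rot J.1 s) (H85.norm_rot J s)
  let F : C(Icc (0:ℝ) 1 × Sph ι, Bil (E ι)) :=
    ⟨fun q => pull2 (rot J.1 s) (rot J.1 s) (p (q.1, ρ q.2)), by
      apply (pull2 (rot J.1 s) (rot J.1 s)).continuous.comp
      exact p.continuous.comp (continuous_fst.prodMk (hρ.comp continuous_snd))⟩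
  have hdiff : ∀ i, ‖F ((PS ι).k i) - F ((PS ι).k' i)‖ ≤ ‖p‖ * (PS ι).w i := by
    intro i
    obtain ⟨⟨t, x, x'⟩, hx⟩ := i
    have hx' : x ≠ x' := hx
    have hne : ρ x ≠ ρ x' := by
      intro h
      apply hx'
      have h1 : dist (rot J.1 s (x : E ι)) (rot J.1 s (x' : E ι)) = 0 := by
        have : (ρ x : E ι) = (ρ x' : E ι) := congrArg Subtype.val h
        rw [show rot J.1 s (x : E ι) = (ρ x : E ι) from rfl, this]
        exact dist_self _
      rw [dist_rot] at h1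
      exact Subtype.ext (dist_eq_zero.1 h1)
    have h1 := p.norm_diff_le ⟨(t, ρ x, ρ x'), hne⟩
    have h2 : (PS ι).w ⟨(t, ρ x, ρ x'), hne⟩ = (PS ι).w ⟨(t, x, x'), hx⟩ := by
      show √(dist (ρ x) (ρ x')) = √(dist x x')
      congr 1
      exact dist_rot J s x x'
    rw [h2] at h1
    refine le_trans ?_ h1
    show ‖pull2 _ _ (p (t, ρ x)) - pull2 _ _ (p (t, ρ x'))‖ ≤ ‖p (t, ρ x) - p (t, ρ x')‖
    rw [← map_sub]
    exact hiso _
  refine ⟨LipSp.mk' F ‖p‖ hdiff, ?_, ?_⟩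
  · intro t
    ext1 x
    rw [hR.T_apply J s (sl p t) x (ρ x) rfl]
    rfl
  · apply LipSp.norm_le (norm_nonneg _)
    · intro x
      show ‖pull2 _ _ (p (x.1, ρ x.2))‖ ≤ ‖p‖
      exact (hiso _).trans (p.norm_apply_le _)
    · intro i
      exact hdiff i

end Pool.Agent.RF
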