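import Pool.Agent.Helper58_RF.Det
import Pool.Agent.Helper36_RF.MainMod

/-!
# DeTurck's trick, with norm preservation (proof by helper58, MP_a23110_gt)
-/

noncomputable section

open scoped ContDiff Topology RealInnerProductSpace
set_option maxSynthPendingDepth 3
set_option linter.unusedSectionVars false
open Set

namespace Pool.Agent.RF.H58

theorem detP (hFl : FlowStatement) (hCh : ChrStatement) (hNat : NatStatement)
    (hDf : DiffeoStatement) (hRC : RdtCylStatement) : DeTurckStatement' := by
  intro ι κ _ _ _ _ T G hcard hT hR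
  have hG : ContDiffOn ℝ ∞ (unc G) (Icc 0 T ×ˢ Om ι) := hR.smooth
  have hinv : ∀ t ∈ Icc 0 T, ∀ x ∈ Om ι, (G t x).IsInvertible := fun t ht x hx =>
    (hCh ι (G t) (Om ι) (hR.cyl t ht).metric x hx).1
  obtain ⟨φ, hφ, h0, hW, hn, hh, hi, hs⟩ := hFl ι T (fun t => dtW (G t)) hT
    (smooth_dtW hT hG hinv) (fun t ht x hx => ((hRC ι (G t) (hR.cyl t ht)).2 x hx).1)
    (fun t ht c hc x hx => ((hRC ι (G t) (hR.cyl t ht)).2 x hx).2.1 c hc)
  have hm := mapsTo_phi hn
  refine ⟨fun t => pullb (G t) (φ t), φ, ⟨?_, ?_, ?_⟩, ?_, hn, ?_, ?_⟩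
  · intro t ht
    exact isCyl_pull hT hR hφ hDf hn hh hi ht
  · exact smooth_pull hT hG hφ hm
  · exact flow_pull hT hR hφ hW hn hi hDf hRC
  · intro x hx
    have e : φ 0 =ᶠ[𝓝 x] id := by
      filter_upwards [isOpen_Om.mem_nhds hx] with y hy
      exact h0 y hy
    have e2 : fderiv ℝ (φ 0) x = ContinuousLinearMap.id ℝ (E ι) := by
      rw [e.fderiv_eq, fderiv_id]
    ext v w
    rw [pullb_apply, e2, h0 x hx]
    rfl
  · intro t ht y hy hy1
    obtain ⟨x, hx, hxy⟩ := hs t ht y hy
    refine ⟨x, hx, ?_, hxy⟩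
    rw [← hn t ht x hx, hxy, hy1]
  · intro t ht x hx hx1
    have hC := hR.cyl t ht
    obtain ⟨hM, hS, -⟩ := hDf ι ι (G t) (φ t) (Om ι) (Om ι) hC.metric isOpen_Om
      (contDiff_phi hφ hn ht) (fun x hx => hm t ht x hx) (fun x hx => hi t ht x hx)
    obtain ⟨D, hD⟩ := hi t ht x hx
    have hDa : ∀ v, fderiv ℝ (φ t) x v = D v := fun v => by rw [← hD]; rfl
    have hsk : ∀ (e : κ → E ι) (M : Matrix κ κ ℝ), skf (pullb (G t) (φ t)) x e M =
        skf (G t) (φ t x) (fun i => D (e i)) M := by
      intro e M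
      unfold skf
      refine Finset.sum_congr rfl fun i _ => Finset.sum_congr rfl fun j _ =>
        Finset.sum_congr rfl fun k _ => Finset.sum_congr rfl fun l _ => ?_
      rw [pullb_apply, hNat ι ι (pullb (G t) (φ t)) (G t) (φ t) (Om ι) (Om ι) hM hC.metric
        (contDiff_phi hφ hn ht) (fun x hx => hm t ht x hx) hS x hx]
      simp only [hDa]
    have hor : ∀ e : κ → E ι, IsOrtho (pullb (G t) (φ t) x) e ↔
        IsOrtho (G t (φ t x)) (fun i => D (e i)) := by
      intro e
      unfold IsOrtho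
      simp only [pullb_apply, hDa]
    have hin : ∀ w, ⟪φ t x, D w⟫ = ⟪x, w⟫ := by
      intro w
      rw [← hDa]
      exact inner_phi hφ hn ht hx w
    constructor
    · constructor
      · intro h e he1 he2 M hM1 hM2
        have := h (fun i => D.symm (e i)) (fun i => by
          rw [← hin, D.apply_symm_apply]
          exact he1 i) ((hor _).2 (by simpa using he2)) M hM1 hM2
        rw [hsk] at this
        simpa using this
      · intro h e he1 he2 M hM1 hM2
        rw [hsk]
        exact h _ (fun i => by rw [hin]; exact he1 i) ((hor e).1 he2) M hM1 hM2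
    · constructor
      · intro h e he1 he2 M hM1 hM2 hM3
        have := h (fun i => D.symm (e i)) (fun i => by
          rw [← hin, D.apply_symm_apply]
          exact he1 i) ((hor _).2 (by simpa using he2)) M hM1 hM2 hM3
        rw [hsk] at this
        simpa using this
      · intro h e he1 he2 M hM1 hM2 hM3
        rw [hsk]
        exact h _ (fun i => by rw [hin]; exact he1 i) ((hor e).1 he2) M hM1 hM2 hM3

end Pool.Agent.RF.H58
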