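import Pool.Agent.Helper80_RF.CylEx1
import Pool.Agent.Helper36_RF.MainMod

/-!
# Joint smoothness of the example family (helper36, MP_a23110_gt)
-/

noncomputable section

open scoped ContDiff Topology RealInnerProductSpace
set_option maxSynthPendingDepth 3
set_option linter.unusedSectionVars false
open Set

namespace Pool.Agent.RF

theorem gsm : GsmStatement := by
  intro α β _ _ _ _ F₁ F₂ h1 h2
  have hsnd : MapsTo (Prod.snd : ℝ × E (Option α ⊕ β) → E (Option α ⊕ β))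
      (univ ×ˢ Om (Option α ⊕ β)) (Om (Option α ⊕ β)) := fun q hq => hq.2
  have h0 : ContDiffOn ℝ ∞ (fun q : ℝ × E (Option α ⊕ β) =>
      (Gcyl (fun _ => 0) F₂ q.2 : Bil (E (Option α ⊕ β)))) (univ ×ˢ Om (Option α ⊕ β)) :=
    (H80.contDiffOn_Gcyl contDiff_const h2).comp contDiff_snd.contDiffOn hsnd
  have ht : ContDiffOn ℝ ∞ (fun q : ℝ × E (Option α ⊕ β) => tauX q.2)
      (univ ×ˢ Om (Option α ⊕ β)) :=
    (H80.contDiffOn_tauX).comp contDiff_snd.contDiffOn hsnd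
  have hr : ContDiffOn ℝ ∞ (fun q : ℝ × E (Option α ⊕ β) => rk (omX q.2))
      (univ ×ˢ Om (Option α ⊕ β)) :=
    (H80.contDiffOn_rk H80.contDiffOn_omX).comp contDiff_snd.contDiffOn hsnd
  have hF : ContDiffOn ℝ ∞ (fun q : ℝ × E (Option α ⊕ β) => F₁ q.1 (tauX q.2))
      (univ ×ˢ Om (Option α ⊕ β)) :=
    h1.comp_contDiffOn (contDiff_fst.contDiffOn.prodMk ht)
  have e : (fun q : ℝ × E (Option α ⊕ β) => Gcyl (F₁ q.1) F₂ q.2) =
      fun q => Gcyl (fun _ => 0) F₂ q.2 + F₁ q.1 (tauX q.2) • rk (omX q.2) := by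
    funext q
    unfold Gcyl
    rw [zero_smul, add_zero]
    abel
  rw [e]
  exact h0.add (ContDiffOn.smul hF hr)

end Pool.Agent.RF
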