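import Pool.Agent.Helper36_RF.Exist
import Pool.Agent.Helper36_RF.Data
import Pool.Agent.Helper36_RF.ClFinal
import Pool.Agent.Helper36_RF.Gsm
import Pool.Agent.Helper36_RF.DetP
import Pool.Agent.Helper3_RF.Heat
import Pool.Agent.Helper3_RF.HComm
import Pool.Agent.Helper3_RF.Step
import Pool.Agent.Helper3_RF.Jets
import Pool.Agent.Helper5_RF.Nat
import Pool.Agent.Helper5_RF.Diffeo
import Pool.Agent.Helper5_RF.Cyl
import Pool.Agent.Helper5_RF.Slice
import Pool.Agent.Helper9_RF.Sym
import Pool.Agent.Helper9_RF.RdtCyl
import Pool.Agent.Helper9_RF.RdtStr2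
import Pool.Agent.Helper9_RF.Open
import Pool.Agent.Helper13_RF.Fam
import Pool.Agent.Helper13_RF.Flow
import Pool.Agent.Helper13_RF.Sm
import Pool.Agent.Helper25_RF.QstrMain
import Pool.Agent.Helper25_RF.EquivMain
import Pool.Agent.Helper25_RF.Rdtr
import Pool.Agent.Helper38_RF.Reg
import Pool.Agent.Helper38_RF.Round
import Pool.Agent.Helper38_RF.Sph
import Pool.Agent.Helper53_RF.Nem
import Pool.Agent.Helper53_RF.MR3
import Pool.Agent.Helper53_RF.Resc
import Pool.Agent.Helper58_RF.Evo
import Pool.Agent.Helper71_RF.Kop
import Pool.Agent.Helper71_RF.Csol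
import Pool.Agent.Helper80_RF.CylEx2
import Pool.Agent.Helper80_RF.Init
import Pool.Agent.Helper80_RF.Zorn2
import Pool.Agent.Helper83_RF.Curv
import Pool.Agent.Helper83_RF.Ric
import Pool.Agent.Helper85_RF.PosL
import Pool.Agent.Helper85_RF.RotPair
import Pool.Agent.Helper85_RF.RotSys

/-!
# All modules together (MP_a23110_gt)
-/

noncomputable section

set_option maxSynthPendingDepth 3

namespace Pool.Agent.RF

/-- all modules together -/
theorem finalTheorem : ClStatement := by
  have hChr : ChrStatement := chrStatement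
  have hNat : NatStatement := H5.nat hChr
  have hDiff : DiffeoStatement := H5.diffeo hChr hNat
  have hCylS : CylStatement := H5.cyl hChr
  have hSlice : SliceStatement := H5.slice hChr hNat hCylS
  have hSym : SymStatement := H9.sym hChr
  have hRC : RdtCylStatement := H9.rdtCyl hChr hCylS
  have hRS : RdtStructureStatement := H9.rdtStr hChr
  have hRR : RdtRotStatement := Pool.Agent.Helper25RF.rdtRot hDiff
  have hRP : RotPairStatement := H85.rotPair
  have hNem : NemStatement := H53.nemStatement
  have hData : DataStatement := data hNem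
  have hGen : GenStatement := gen hNem
  have hRFT : RotFTStatement := rotFT
  have hEquiv : EquivStatement := Pool.Agent.Helper25RF.equivStatement hRR
  have hResc : RescStatement := H53.resc H13.jointSmooth hRS hChr
  have hKop : KopStatement := H71.kop H3.heat H53.maxReg H3.heatComm hRP
  have hEx : ExistStatement := exist hNem H85.rotSys H3.heat hKop (reg hRP)
    (Pool.Agent.Helper25RF.qStr hRS) hData hRFT (H3.step hEquiv hGen) hRP
    (H71.csol hGen hRC hSym) H3.jets hResc
  have hDT : DeTurckStatement' := H58.detP H13.flow hChr hNat hDiff hRC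
  have hEvo : EvoStatement := H58.evo (Curv83.ricLoc hChr)
  have hCurv : CurvStatement := Curv83.curv hChr
  exact finalCl hEx hDT H9O.openStatement (crit hDT hEvo hSlice H80.cylEx)
    (H80.init H80.cylEx (H85.posLoc hCurv) roundPos hSlice) gsm H13.fam H80.cylEx sph hSlice
    SecondKind.H80.zorn

end Pool.Agent.RF
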