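import Pool.Agent.Helper36_RF.ExistMod

/-!
# Solving the fixed point equation (helper36, MP_a23110_gt)
-/

noncomputable section

open scoped ContDiff Topology RealInnerProductSpace
set_option maxSynthPendingDepth 3
set_option linter.unusedSectionVars false
open Set Metric

namespace Pool.Agent.RF

variable {ι : Type} [Fintype ι] [DecidableEq ι]

variable {R : RotSys C(Sph ι, Bil (E ι)) (Gam ι) (ι × ι)} {C T : ℝ}
    {K : FT ι (Bil (E ι)) →L[ℝ] FT ι (Bil (E ι))}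
    {K1 : ι × ι → FT ι (Bil (E ι)) →L[ℝ] FT ι (Bil (E ι))}
    {K2 : ι × ι → ι × ι → FT ι (Bil (E ι)) →L[ℝ] FT ι (Bil (E ι))}

theorem jet_zero (U : DD ι) : jet K K1 K2 (U, 0) = U := by
  simp [jet]

theorem jet_sub (U : DD ι) (p q : FT ι (Bil (E ι))) :
    jet K K1 K2 (U, p) - jet K K1 K2 (U, q) = (K (p - q), kh1 K1 (p - q), kh2 K2 (p - q)) := by
  simp [jet]

theorem norm_jet_le (h : IsKop R C T K K1 K2) (hC : 0 ≤ C) (hT : 0 ≤ T) (hT1 : T ≤ 1)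
    (U : DD ι) (p : FT ι (Bil (E ι))) : ‖jet K K1 K2 (U, p)‖ ≤ ‖U‖ + C * ‖p‖ := by
  have hT' : T ^ (1/4 : ℝ) ≤ 1 := Real.rpow_le_one hT hT1 (by norm_num)
  have h0 : C * T ^ (1/4 : ℝ) * ‖p‖ ≤ C * ‖p‖ := by
    apply mul_le_mul_of_nonneg_right _ (norm_nonneg _)
    exact mul_le_of_le_one_right hC hT'
  have e : jet K K1 K2 (U, p) = U + (K p, kh1 K1 p, kh2 K2 p) := rfl
  rw [e]
  refine (norm_add_le _ _).trans (add_le_add le_rfl ?_)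
  rw [Prod.norm_def, Prod.norm_def]
  refine max_le ((h.norm_K p).trans h0) (max_le ((norm_kh1_le h hC hT p).trans h0) ?_)
  exact norm_kh2_le h hC p

/-- choice of a small time -/
theorem exists_time (a : ℝ) (ha : 0 < a) : ∃ T : ℝ, 0 < T ∧ T ≤ 1 ∧ T ^ (1/4 : ℝ) ≤ a := by
  have hm : 0 < min 1 a := lt_min one_pos ha
  refine ⟨(min 1 a) ^ (4 : ℕ), by positivity, pow_le_one₀ hm.le (min_le_left _ _), ?_⟩
  rw [show (1/4 : ℝ) = ((4 : ℕ) : ℝ)⁻¹ by norm_num, Real.pow_rpow_inv_natCast hm.le (by norm_num)]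
  exact min_le_right _ _

theorem exists_fix (hnem : NemStatement)
    {c : E ι × Bil (E ι) → A2 ι →L[ℝ] Bil (E ι)} {Gf : E ι × Bil (E ι) × A1 ι → Bil (E ι)}
    {r Cq : ℝ} (hQ : IsQ ι c Gf r Cq) (hC : 0 < C)
    (hKop : ∀ T : ℝ, 0 < T → T ≤ 1 → ∃ K K1 K2, IsKop R C T K K1 K2) :
    ∃ r0 : ℝ, 0 < r0 ∧ r0 ≤ r ∧ ∀ U₀ : DD ι, (∀ q, ‖U₀.1 q - del ι‖ < r0) →
      ∃ (T : ℝ) (K : FT ι (Bil (E ι)) →L[ℝ] FT ι (Bil (E ι)))
        (K1 : ι × ι → FT ι (Bil (E ι)) →L[ℝ] FT ι (Bil (E ι)))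
        (K2 : ι × ι → ι × ι → FT ι (Bil (E ι)) →L[ℝ] FT ι (Bil (E ι)))
        (M η : ℝ) (P : DD ι → FT ι (Bil (E ι))), 0 < T ∧ T ≤ 1 ∧ IsKop R C T K K1 K2 ∧
        0 < M ∧ 0 < η ∧ ContDiffOn ℝ ∞ P (ball U₀ η) ∧
        ∀ U ∈ ball U₀ η, ‖P U‖ ≤ M ∧ FixEq c Gf K K1 K2 U (P U) ∧
          (∀ q, ‖(jet K K1 K2 (U, P U)).1 q - del ι‖ < r) ∧
          ∀ p, ‖p‖ ≤ M → FixEq c Gf K K1 K2 U p → p = P U := by
  have hr : 0 < r := hQ.2.2.1
  have hQ' : IsQ ι c Gf r |Cq| := by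
    obtain ⟨h1, h2, h3, h4, h5⟩ := hQ
    refine ⟨h1, h2, h3, fun x u hx hu => (h4 x u hx hu).trans ?_, h5⟩
    exact mul_le_mul_of_nonneg_right (le_abs_self _) (norm_nonneg _)
  obtain ⟨Θ, hΘ1, hΘ2, CP, hCP, hΘ3⟩ := exists_theta hnem hQ' (abs_nonneg _)
  -- the radius
  set B : ℝ := CP * |Cq| * C with hB
  have hB0 : 0 ≤ B := by positivity
  set r0 : ℝ := min (r / 2) (1 / (8 * (B + 1))) with hr0
  have hr0pos : 0 < r0 := lt_min (by positivity) (by positivity)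
  have hr0r : 2 * r0 ≤ r := by
    have := min_le_left (r / 2) (1 / (8 * (B + 1)))
    rw [← hr0] at this
    linarith
  have hr0B : CP * (|Cq| * (2 * r0) * C) ≤ 1 / 4 := by
    have h1 : r0 ≤ 1 / (8 * (B + 1)) := min_le_right _ _
    have h2 : r0 * (8 * (B + 1)) ≤ 1 := by
      rwa [le_div_iff₀ (by positivity)] at h1
    have h3 : CP * (|Cq| * (2 * r0) * C) = 2 * (B * r0) := by rw [hB]; ring
    rw [h3]
    nlinarith [mul_nonneg hB0 hr0pos.le]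
  refine ⟨r0, hr0pos, by linarith, ?_⟩
  intro U₀ hU₀
  -- the map at `p = 0`
  let Ψ0 : DD ι → FT ι (Bil (E ι)) := fun U => Θ U + LipSp.mapL trL U.2.2
  have hΨ0 : ContDiff ℝ ∞ Ψ0 := by
    apply hΘ1.add
    exact (LipSp.mapL (P := PS ι) (trL (ι := ι))).contDiff.comp (contDiff_snd.comp contDiff_snd)
  obtain ⟨η1, hη1, hη1'⟩ := Metric.continuousAt_iff.1 (hΨ0.continuous.continuousAt (x := U₀)) 1
    one_pos
  set M : ℝ := 2 * (‖Ψ0 U₀‖ + 2) with hMdef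
  have hM : 0 < M := by positivity
  set η : ℝ := min η1 (min 1 (r0 / 2)) with hηdef
  have hη : 0 < η := lt_min hη1 (lt_min one_pos (by positivity))
  have hη_1 : η ≤ 1 := (min_le_right _ _).trans (min_le_left _ _)
  have hη_r : η ≤ r0 / 2 := (min_le_right _ _).trans (min_le_right _ _)
  obtain ⟨CM, hCM, hlipΘ⟩ := hΘ3 (‖U₀‖ + 1 + C * M)
  obtain ⟨T, hT, hT1, hTa⟩ := exists_time (min (r0 / (2 * (C * M + 1))) (1 / (12 * (CM * C + 1))))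
    (lt_min (by positivity) (by positivity))
  obtain ⟨K, K1, K2, hK⟩ := hKop T hT hT1
  have hTr : C * T ^ (1/4 : ℝ) * M ≤ r0 / 2 := by
    have h1 : T ^ (1/4 : ℝ) ≤ r0 / (2 * (C * M + 1)) := hTa.trans (min_le_left _ _)
    rw [le_div_iff₀ (by positivity)] at h1
    have h2 : 0 ≤ T ^ (1/4 : ℝ) := Real.rpow_nonneg hT.le _
    nlinarith
  have hTM : 3 * (CM * (C * T ^ (1/4 : ℝ))) ≤ 1 / 4 := by
    have h1 : T ^ (1/4 : ℝ) ≤ 1 / (12 * (CM * C + 1)) := hTa.trans (min_le_right _ _)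
    rw [le_div_iff₀ (by positivity)] at h1
    have h2 : 0 ≤ T ^ (1/4 : ℝ) := Real.rpow_nonneg hT.le _
    nlinarith
  have hclose : ∀ U ∈ ball U₀ η, ∀ p : FT ι (Bil (E ι)), ‖p‖ ≤ M →
      ∀ q, ‖(jet K K1 K2 (U, p)).1 q - del ι‖ < 2 * r0 := by
    intro U hU p hp q
    rw [mem_ball, dist_eq_norm] at hU
    have e : (jet K K1 K2 (U, p)).1 q - del ι = (U₀.1 q - del ι) + ((U - U₀).1 q + K p q) := by
      show U.1 q + K p q - del ι = (U₀.1 q - del ι) + ((U.1 q - U₀.1 q) + K p q)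
      abel
    rw [e]
    have h1 : ‖(U - U₀).1 q‖ < η := by
      refine lt_of_le_of_lt ?_ hU
      exact ((U - U₀).1.norm_apply_le q).trans (norm_fst_le _)
    have h2 : ‖K p q‖ ≤ r0 / 2 := by
      refine ((K p).norm_apply_le q).trans ((hK.norm_K p).trans ?_)
      refine le_trans ?_ hTr
      have : 0 ≤ C * T ^ (1/4 : ℝ) := by positivity
      exact mul_le_mul_of_nonneg_left hp this
    calc _ ≤ ‖U₀.1 q - del ι‖ + ‖(U - U₀).1 q + K p q‖ := norm_add_le _ _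
      _ ≤ ‖U₀.1 q - del ι‖ + (‖(U - U₀).1 q‖ + ‖K p q‖) := add_le_add le_rfl (norm_add_le _ _)
      _ < r0 + (r0 / 2 + r0 / 2) := by
          have := hU₀ q
          linarith
      _ = 2 * r0 := by ring
  let Ψ : DD ι × FT ι (Bil (E ι)) → FT ι (Bil (E ι)) := fun z =>
    Θ (jet K K1 K2 z) + LipSp.mapL trL z.1.2.2
  have hΨ : ContDiff ℝ ∞ Ψ := by
    apply (hΘ1.comp contDiff_jet).add
    exact (LipSp.mapL (P := PS ι) (trL (ι := ι))).contDiff.comp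
      (contDiff_snd.comp (contDiff_snd.comp contDiff_fst))
  have hlip : ∀ U ∈ ball U₀ η, ∀ p q : FT ι (Bil (E ι)), ‖p‖ ≤ M → ‖q‖ ≤ M →
      ‖Ψ (U, p) - Ψ (U, q)‖ ≤ (1/2 : ℝ) * ‖p - q‖ := by
    intro U hU p q hp hq
    have hUn : ‖U‖ ≤ ‖U₀‖ + 1 := by
      rw [mem_ball, dist_eq_norm] at hU
      calc ‖U‖ = ‖U₀ + (U - U₀)‖ := by rw [add_sub_cancel]
        _ ≤ ‖U₀‖ + ‖U - U₀‖ := norm_add_le _ _
        _ ≤ _ := by linarith
    have hj : ∀ p : FT ι (Bil (E ι)), ‖p‖ ≤ M → ‖jet K K1 K2 (U, p)‖ ≤ ‖U₀‖ + 1 + C * M := by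
      intro p hp
      refine (norm_jet_le hK hC.le hT.le hT1 U p).trans (add_le_add hUn ?_)
      exact mul_le_mul_of_nonneg_left hp hC.le
    have h1 := hlipΘ (jet K K1 K2 (U, p)) (jet K K1 K2 (U, q)) (hj p hp) (hj q hq) (2 * r0)
      (by positivity) hr0r (fun z => (hclose U hU p hp z).le)
    have e : Ψ (U, p) - Ψ (U, q) = Θ (jet K K1 K2 (U, p)) - Θ (jet K K1 K2 (U, q)) := by
      show Θ (jet K K1 K2 (U, p)) + _ - (Θ (jet K K1 K2 (U, q)) + _) = _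
      abel
    rw [e]
    refine h1.trans ?_
    have hs := jet_sub (K := K) (K1 := K1) (K2 := K2) U p q
    have s1 : (jet K K1 K2 (U, p)).1 - (jet K K1 K2 (U, q)).1 = K (p - q) := congrArg Prod.fst hs
    have s2 : (jet K K1 K2 (U, p)).2.1 - (jet K K1 K2 (U, q)).2.1 = kh1 K1 (p - q) :=
      congrArg (fun z => z.2.1) hs
    have s3 : (jet K K1 K2 (U, p)).2.2 - (jet K K1 K2 (U, q)).2.2 = kh2 K2 (p - q) :=
      congrArg (fun z => z.2.2) hs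
    rw [s1, s2, s3]
    have b1 := hK.norm_K (p - q)
    have b2 := norm_kh1_le hK hC.le hT.le (p - q)
    have b3 := norm_kh2_le hK hC.le (p - q)
    have b4 := norm_kh2_le' hK hC.le hT.le (p - q)
    have hn := norm_nonneg (p - q)
    have t1 : CP * (|Cq| * (2 * r0) * ‖kh2 K2 (p - q)‖) ≤ (1 / 4) * ‖p - q‖ := by
      calc CP * (|Cq| * (2 * r0) * ‖kh2 K2 (p - q)‖)
          ≤ CP * (|Cq| * (2 * r0) * (C * ‖p - q‖)) := by
            apply mul_le_mul_of_nonneg_left _ hCP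
            exact mul_le_mul_of_nonneg_left b3 (by positivity)
        _ = CP * (|Cq| * (2 * r0) * C) * ‖p - q‖ := by ring
        _ ≤ _ := mul_le_mul_of_nonneg_right hr0B hn
    have t2 : CM * (‖K (p - q)‖ + ‖kh1 K1 (p - q)‖ + ‖(kh2 K2 (p - q)).1.1‖) ≤
        (1 / 4) * ‖p - q‖ := by
      calc CM * (‖K (p - q)‖ + ‖kh1 K1 (p - q)‖ + ‖(kh2 K2 (p - q)).1.1‖)
          ≤ CM * (3 * (C * T ^ (1/4 : ℝ) * ‖p - q‖)) := by
            apply mul_le_mul_of_nonneg_left _ hCM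
            linarith
        _ = 3 * (CM * (C * T ^ (1/4 : ℝ))) * ‖p - q‖ := by ring
        _ ≤ _ := mul_le_mul_of_nonneg_right hTM hn
    linarith
  have hmap : ∀ U ∈ ball U₀ η, ∀ p : FT ι (Bil (E ι)), ‖p‖ ≤ M → ‖Ψ (U, p)‖ < M := by
    intro U hU p hp
    have h1 := hlip U hU p 0 hp (by rw [norm_zero]; exact hM.le)
    have h2 : Ψ (U, 0) = Ψ0 U := by
      show Θ (jet K K1 K2 (U, 0)) + _ = Θ U + _
      rw [jet_zero]
    rw [h2, sub_zero] at h1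
    have h3 : dist (Ψ0 U) (Ψ0 U₀) < 1 := hη1' (lt_of_lt_of_le (mem_ball.1 hU) (min_le_left _ _))
    rw [dist_eq_norm] at h3
    have h4 : ‖Ψ0 U‖ ≤ ‖Ψ0 U₀‖ + ‖Ψ0 U - Ψ0 U₀‖ := by
      calc ‖Ψ0 U‖ = ‖Ψ0 U₀ + (Ψ0 U - Ψ0 U₀)‖ := by rw [add_sub_cancel]
        _ ≤ _ := norm_add_le _ _
    have h5 : ‖Ψ (U, p)‖ ≤ ‖Ψ (U, p) - Ψ0 U‖ + ‖Ψ0 U‖ := by
      calc ‖Ψ (U, p)‖ = ‖(Ψ (U, p) - Ψ0 U) + Ψ0 U‖ := by rw [sub_add_cancel]
        _ ≤ _ := norm_add_le _ _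
    linarith
  obtain ⟨P, hP1, hP2⟩ := fixpoint_family Ψ hΨ U₀ M η hM hmap hlip
  have hfix : ∀ U p, FixEq c Gf K K1 K2 U p ↔ Ψ (U, p) = p := by
    intro U p
    have h1 : ∀ q, Ψ (U, p) q = PiB (q.2 : E ι)
        (c ((q.2 : E ι), (jet K K1 K2 (U, p)).1 q) ((jet K K1 K2 (U, p)).2.2 q)
        + Gf ((q.2 : E ι), (jet K K1 K2 (U, p)).1 q, (jet K K1 K2 (U, p)).2.1 q))
        + ∑ a, U.2.2 q a a := by
      intro q
      show Θ (jet K K1 K2 (U, p)) q + LipSp.mapL trL U.2.2 q = _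
      rw [hΘ2, LipSp.mapL_apply, trL_apply]
    constructor
    · intro h
      apply LipSp.ext'
      intro q
      rw [h1]
      exact (h q).symm
    · intro h q
      rw [← h1, h]
  refine ⟨T, K, K1, K2, M, η, P, hT, hT1, hK, hM, hη, hP2, ?_⟩
  intro U hU
  obtain ⟨g1, g2, g3⟩ := hP1 U hU
  refine ⟨g1.le, (hfix U (P U)).2 g2, fun q => (hclose U hU _ g1.le q).trans_le hr0r, ?_⟩
  intro p hp hpe
  exact g3 p hp ((hfix U p).1 hpe)

end Pool.Agent.RF
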