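import Mathlib

/-!
# Ricci flow on the sphere and the curvature operator of the second kind (MP_a23110_gt)

Metrics on the closed manifold `S^n = {x ∈ ℝ^(n+1) : ∑ x_i² = 1}` are described by their components
with respect to all smooth local parametrizations `ψ : U → S^n`, `U ⊆ ℝ^n` open; all curvature
quantities are given by the classical formulas in local coordinates.
-/

noncomputable section

open scoped ContDiff

namespace Pool.Agent.SecondKind

section Coordinates

variable {n : ℕ}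

/-- fields `y ↦ (h_{ij}(y))` of `n × n` matrices on `ℝ^n` -/
def Coord (n : ℕ) : Type := (Fin n → ℝ) → Fin n → Fin n → ℝ

/-- the partial derivative `∂_k f` at `y` -/
def pd (k : Fin n) (f : (Fin n → ℝ) → ℝ) (y : Fin n → ℝ) : ℝ := fderiv ℝ f y (Pi.single k 1)

/-- the entries `h^{kl}` of the inverse matrix -/
def inv (h : Coord n) (k l : Fin n) (y : Fin n → ℝ) : ℝ := (Matrix.of (h y))⁻¹ k l

/-- Christoffel symbols `Γ^k_{ij} = ½ ∑_l h^{kl} (∂_i h_{jl} + ∂_j h_{il} - ∂_l h_{ij})` -/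
def christoffel (h : Coord n) (k i j : Fin n) (y : Fin n → ℝ) : ℝ :=
  ∑ l, inv h k l y * (pd i (fun z => h z j l) y + pd j (fun z => h z i l) y
    - pd l (fun z => h z i j) y) / 2

/-- The components of the curvature tensor, `R(∂_i,∂_j)∂_k = ∑_m (curv h i j k m) ∂_m`, where
`R(X,Y)Z = ∇_X ∇_Y Z - ∇_Y ∇_X Z - ∇_[X,Y] Z`. -/
def curv (h : Coord n) (i j k m : Fin n) (y : Fin n → ℝ) : ℝ :=
  pd i (christoffel h m j k) y - pd j (christoffel h m i k) y
    + ∑ p, (christoffel h m i p y * christoffel h p j k y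
      - christoffel h m j p y * christoffel h p i k y)

/-- `R_{ijkl} = ⟨R(∂_i,∂_j)∂_k, ∂_l⟩`; thus `R_{ijji}` has the sign of the sectional curvature -/
def riem4 (h : Coord n) (i j k l : Fin n) (y : Fin n → ℝ) : ℝ := ∑ m, curv h i j k m y * h y m l

/-- the Ricci tensor `Ric_{jk}`, the trace of `X ↦ R(X,∂_j)∂_k` -/
def ricci (h : Coord n) (j k : Fin n) (y : Fin n → ℝ) : ℝ := ∑ i, curv h i j k i y

/-- `R(a,b,c,d)` for vectors with components `a p, b q, c r, d s` -/
def riemV (h : Coord n) (y a b c d : Fin n → ℝ) : ℝ :=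
  ∑ p, ∑ q, ∑ r, ∑ s, a p * b q * c r * d s * riem4 h p q r s y

/-- the vectors `e 1, …, e n` are orthonormal for the metric `h` at `y` -/
def IsFrame (h : Coord n) (y : Fin n → ℝ) (e : Fin n → Fin n → ℝ) : Prop :=
  ∀ i j, ∑ p, ∑ q, e i p * e j q * h y p q = if i = j then 1 else 0

/-- the curvature operator of the second kind, `∑ R(e_i,e_k,e_j,e_l) φ_kl φ_ij` -/
def secondKind (h : Coord n) (y : Fin n → ℝ) (e φ : Fin n → Fin n → ℝ) : ℝ :=
  ∑ i, ∑ j, ∑ k, ∑ l, riemV h y (e i) (e k) (e j) (e l) * φ k l * φ i j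

/-- `φ` is a traceless symmetric matrix -/
def IsTraceless (φ : Fin n → Fin n → ℝ) : Prop := (∀ i j, φ i j = φ j i) ∧ ∑ i, φ i i = 0

/-- positivity of the curvature operator of the second kind at `y` -/
def PosAt (h : Coord n) (y : Fin n → ℝ) : Prop :=
  ∀ e, IsFrame h y e → ∀ φ, IsTraceless φ → φ ≠ 0 → 0 < secondKind h y e φ

/-- nonnegativity of the curvature operator of the second kind at `y` -/
def NonnegAt (h : Coord n) (y : Fin n → ℝ) : Prop :=
  ∀ e, IsFrame h y e → ∀ φ, IsTraceless φ → 0 ≤ secondKind h y e φ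

end Coordinates

section Sphere

variable {n : ℕ}

/-- functions `g x v w` of a point `x` and two vectors `v, w`; only the values at points `x ∈ S^n`
and tangent vectors `v, w` matter -/
def Form (n : ℕ) : Type := (Fin (n + 1) → ℝ) → (Fin (n + 1) → ℝ) → (Fin (n + 1) → ℝ) → ℝ

/-- `x` is a point of the unit sphere `S^n` -/
def OnSphere (x : Fin (n + 1) → ℝ) : Prop := ∑ i, x i ^ 2 = 1

/-- `v` is a tangent vector of `S^n` at `x` -/
def Tangent (x v : Fin (n + 1) → ℝ) : Prop := OnSphere x ∧ ∑ i, x i * v i = 0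

/-- `ψ` is a smooth local parametrization of `S^n` defined on the open set `U ⊆ ℝ^n` -/
structure IsParam (U : Set (Fin n → ℝ)) (ψ : (Fin n → ℝ) → Fin (n + 1) → ℝ) : Prop where
  isOpen : IsOpen U
  smooth : ContDiffOn ℝ ∞ ψ U
  sphere : ∀ y ∈ U, OnSphere (ψ y)
  immersion : ∀ y ∈ U, Function.Injective (fderiv ℝ ψ y)

/-- the components `g(∂_i ψ, ∂_j ψ)` of `g` in the parametrization `ψ` -/
def comp (g : Form n) (ψ : (Fin n → ℝ) → Fin (n + 1) → ℝ) : Coord n :=
  fun y i j => g (ψ y) (fderiv ℝ ψ y (Pi.single i 1)) (fderiv ℝ ψ y (Pi.single j 1))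

/-- `g` is a smooth Riemannian metric on `S^n` -/
structure IsMetric (g : Form n) : Prop where
  add : ∀ x u v w, Tangent x u → Tangent x v → Tangent x w → g x (u + v) w = g x u w + g x v w
  smul : ∀ x (a : ℝ) v w, Tangent x v → Tangent x w → g x (a • v) w = a * g x v w
  symm : ∀ x v w, Tangent x v → Tangent x w → g x v w = g x w v
  pos : ∀ x v, Tangent x v → v ≠ 0 → 0 < g x v v
  smooth : ∀ U ψ, IsParam U ψ → ∀ i j, ContDiffOn ℝ ∞ (fun y => comp g ψ y i j) U

/-- positive curvature operator of the second kind everywhere on `S^n` -/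
def PosSecondKind (g : Form n) : Prop := ∀ U ψ, IsParam U ψ → ∀ y ∈ U, PosAt (comp g ψ) y

/-- nonnegative curvature operator of the second kind everywhere on `S^n` -/
def NonnegSecondKind (g : Form n) : Prop := ∀ U ψ, IsParam U ψ → ∀ y ∈ U, NonnegAt (comp g ψ) y

/-- the interval `[0,T)`, where `T ≤ ∞` -/
def interval (T : EReal) : Set ℝ := {t | 0 ≤ t ∧ (t : EReal) < T}

/-- `g t`, `t ∈ [0,T)`, is a smooth Ricci flow `∂_t g = -2 Ric` on `S^n`; here `T ≤ ∞` -/
structure IsRicciFlow (T : EReal) (g : ℝ → Form n) : Prop where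
  metric : ∀ t ∈ interval T, IsMetric (g t)
  smooth : ∀ U ψ, IsParam U ψ → ∀ i j,
    ContDiffOn ℝ ∞ (fun q : ℝ × (Fin n → ℝ) => comp (g q.1) ψ q.2 i j) (interval T ×ˢ U)
  flow : ∀ U ψ, IsParam U ψ → ∀ t ∈ interval T, ∀ y ∈ U, ∀ i j,
    HasDerivWithinAt (fun s => comp (g s) ψ y i j) (-2 * ricci (comp (g t) ψ) i j y)
      (interval T) t

/-- `g` and `g'` agree on tangent vectors of `S^n` -/
def SameForm (g g' : Form n) : Prop := ∀ x v w, Tangent x v → Tangent x w → g x v w = g' x v w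

/-- a Ricci flow on `[0,T)` that cannot be extended to a longer time interval -/
def IsMaximalRicciFlow (T : EReal) (g : ℝ → Form n) : Prop :=
  IsRicciFlow T g ∧ ∀ (T' : EReal) (g' : ℝ → Form n), T < T' → IsRicciFlow T' g' →
    ¬ ∀ t ∈ interval T, SameForm (g' t) (g t)

end Sphere

end Pool.Agent.SecondKind
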