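import Mathlib

/-!
# A smooth contraction principle (helper36, MP_a23110_gt)
-/

noncomputable section

open scoped ContDiff Topology
set_option maxSynthPendingDepth 3
open Set Metric

namespace Pool.Agent.RF

variable {D X : Type} [NormedAddCommGroup D] [NormedSpace ℝ D] [CompleteSpace D]
  [NormedAddCommGroup X] [NormedSpace ℝ X] [CompleteSpace X]

/-- Fixed points of a smooth family of contractions depend smoothly on the parameter. -/
theorem fixpoint_family (Ψ : D × X → X) (hΨ : ContDiff ℝ ∞ Ψ) (U₀ : D) (M η : ℝ)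
    (hM : 0 < M)
    (hmap : ∀ U ∈ ball U₀ η, ∀ p : X, ‖p‖ ≤ M → ‖Ψ (U, p)‖ < M)
    (hlip : ∀ U ∈ ball U₀ η, ∀ p q : X, ‖p‖ ≤ M → ‖q‖ ≤ M →
      ‖Ψ (U, p) - Ψ (U, q)‖ ≤ (1/2 : ℝ) * ‖p - q‖) :
    ∃ P : D → X, (∀ U ∈ ball U₀ η, ‖P U‖ < M ∧ Ψ (U, P U) = P U ∧
      ∀ q, ‖q‖ ≤ M → Ψ (U, q) = q → q = P U) ∧ ContDiffOn ℝ ∞ P (ball U₀ η) := by
  classical
  -- existence of the fixed point
  have hex : ∀ U ∈ ball U₀ η, ∃ p : X, ‖p‖ ≤ M ∧ Ψ (U, p) = p := by
    intro U hU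
    have hself : MapsTo (fun p => Ψ (U, p)) (closedBall (0:X) M) (closedBall (0:X) M) := by
      intro p hp
      rw [mem_closedBall_zero_iff] at hp ⊢
      exact (hmap U hU p hp).le
    have hcomplete : IsComplete (closedBall (0:X) M) := isClosed_closedBall.isComplete
    have hc : ContractingWith (1/2 : NNReal) (MapsTo.restrict (fun p => Ψ (U, p)) _ _ hself) := by
      refine ⟨by norm_num, ?_⟩
      apply LipschitzWith.of_dist_le_mul
      intro p q
      have h1 := hlip U hU p.1 q.1 (mem_closedBall_zero_iff.1 p.2) (mem_closedBall_zero_iff.1 q.2)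
      rw [Subtype.dist_eq, Subtype.dist_eq, dist_eq_norm, dist_eq_norm]
      simpa using h1
    obtain ⟨y, hy, hfix, -⟩ := ContractingWith.exists_fixedPoint' hcomplete hself hc
      (x := (0:X)) (by simp [hM.le]) (edist_ne_top _ _)
    exact ⟨y, mem_closedBall_zero_iff.1 hy, hfix⟩
  choose! P hP1 hP2 using hex
  have huniq : ∀ U ∈ ball U₀ η, ∀ q, ‖q‖ ≤ M → Ψ (U, q) = q → q = P U := by
    intro U hU q hq hfix
    have h1 := hlip U hU q (P U) hq (hP1 U hU)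
    rw [hfix, hP2 U hU] at h1
    have h2 : ‖q - P U‖ = 0 := by
      have := norm_nonneg (q - P U)
      linarith
    exact sub_eq_zero.1 (norm_eq_zero.1 h2)
  have hlt : ∀ U ∈ ball U₀ η, ‖P U‖ < M := by
    intro U hU
    have := hmap U hU (P U) (hP1 U hU)
    rwa [hP2 U hU] at this
  refine ⟨P, fun U hU => ⟨hlt U hU, hP2 U hU, huniq U hU⟩, ?_⟩
  intro U hU
  apply ContDiffAt.contDiffWithinAt
  -- the implicit function theorem
  let Θ : D × X → X := fun q => q.2 - Ψ q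
  have hΘ : ContDiffAt ℝ ∞ Θ (U, P U) := (contDiff_snd.sub hΨ).contDiffAt
  have hdΨ : HasFDerivAt Ψ (fderiv ℝ Ψ (U, P U)) (U, P U) :=
    (hΨ.differentiable (by simp)).differentiableAt.hasFDerivAt
  have hfd : fderiv ℝ Θ (U, P U) ∘L .inr ℝ D X =
      ContinuousLinearMap.id ℝ X - fderiv ℝ Ψ (U, P U) ∘L .inr ℝ D X := by
    have : HasFDerivAt Θ (ContinuousLinearMap.snd ℝ D X - fderiv ℝ Ψ (U, P U)) (U, P U) :=
      hasFDerivAt_snd.sub hdΨ
    rw [this.fderiv]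
    ext v
    simp
  have hnorm : ‖fderiv ℝ Ψ (U, P U) ∘L .inr ℝ D X‖ ≤ 1/2 := by
    have h1 : HasFDerivAt (fun p => Ψ (U, p)) (fderiv ℝ Ψ (U, P U) ∘L .inr ℝ D X) (P U) := by
      have h2 : HasFDerivAt (fun p : X => (U, p)) (ContinuousLinearMap.inr ℝ D X) (P U) :=
        hasFDerivAt_prodMk_right U (P U)
      exact HasFDerivAt.comp (P U) hdΨ h2
    refine h1.le_of_lip' (by norm_num) ?_
    have h3 : ball (0:X) M ∈ 𝓝 (P U) := isOpen_ball.mem_nhds (mem_ball_zero_iff.2 (hlt U hU))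
    filter_upwards [h3] with q hq
    exact hlip U hU q (P U) (mem_ball_zero_iff.1 hq).le (hP1 U hU)
  have hinv : (fderiv ℝ Θ (U, P U) ∘L .inr ℝ D X).IsInvertible := by
    rw [hfd]
    have hlt1 : ‖fderiv ℝ Ψ (U, P U) ∘L .inr ℝ D X‖ < 1 := by linarith
    let u := Units.oneSub (fderiv ℝ Ψ (U, P U) ∘L .inr ℝ D X : X →L[ℝ] X) hlt1
    refine ⟨ContinuousLinearEquiv.unitsEquiv ℝ X u, ?_⟩
    rfl
  have hne : (∞ : WithTop ℕ∞) ≠ 0 := by simp
  set φ := hΘ.implicitFunction hne hinv with hφ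
  have hφs : ContDiffAt ℝ ∞ φ U := hΘ.contDiffAt_implicitFunction hne hinv
  have hφ0 : φ U = P U := hΘ.implicitFunction_apply_self hne hinv
  have hev : ∀ᶠ V in 𝓝 U, Θ (V, φ V) = Θ (U, P U) :=
    hΘ.eventually_apply_implicitFunction hne hinv
  have hev2 : ∀ᶠ V in 𝓝 U, ‖φ V‖ < M := by
    have hc : ContinuousAt (fun V => ‖φ V‖) U := hφs.continuousAt.norm
    have : ‖φ U‖ < M := by rw [hφ0]; exact hlt U hU
    exact hc.eventually_lt continuousAt_const this
  have hev3 : ∀ᶠ V in 𝓝 U, V ∈ ball U₀ η := isOpen_ball.mem_nhds hU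
  have heq : P =ᶠ[𝓝 U] φ := by
    filter_upwards [hev, hev2, hev3] with V h1 h2 h3
    have h4 : φ V - Ψ (V, φ V) = 0 := by
      have : Θ (U, P U) = 0 := by simp [Θ, hP2 U hU]
      rw [this] at h1
      exact h1
    exact (huniq V h3 (φ V) h2.le (sub_eq_zero.1 h4).symm).symm
  exact hφs.congr_of_eventuallyEq heq

end Pool.Agent.RF
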