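import Pool.Agent.Helper36_RF.Psi
import Pool.Agent.Helper36_RF.Fix

/-!
# The fixed point equation for the Ricci-DeTurck flow (helper36, MP_a23110_gt)
-/

noncomputable section

open scoped ContDiff Topology RealInnerProductSpace
set_option maxSynthPendingDepth 3
set_option linter.unusedSectionVars false
open Set Metric

namespace Pool.Agent.RF

variable {ι : Type} [Fintype ι] [DecidableEq ι]

instance instCS0 : CompleteSpace (FT ι (Bil (E ι))) := LipSp.instCS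
instance instCS1 : CompleteSpace (FT ι (A1 ι)) := LipSp.instCS
instance instCS2 : CompleteSpace (FT ι (A2 ι)) := LipSp.instCS
instance instCS12 : CompleteSpace (FT ι (A1 ι) × FT ι (A2 ι)) := CompleteSpace.prod
instance instCSD : CompleteSpace (DD ι) := CompleteSpace.prod

/-- assemble a family of operators into a `Pi`-valued one -/
def kh1 (K1 : ι × ι → FT ι (Bil (E ι)) →L[ℝ] FT ι (Bil (E ι))) :
    FT ι (Bil (E ι)) →L[ℝ] FT ι (A1 ι) :=
  ∑ a, (LipSp.mapL (P := PS ι)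
    (ContinuousLinearMap.single ℝ (fun _ : ι × ι => Bil (E ι)) a)) ∘L K1 a

theorem kh1_apply (K1 : ι × ι → FT ι (Bil (E ι)) →L[ℝ] FT ι (Bil (E ι))) (p : FT ι (Bil (E ι)))
    (q : Icc (0:ℝ) 1 × Sph ι) (a : ι × ι) : kh1 K1 p q a = K1 a p q := by
  have h1 : ∀ s : Finset (ι × ι), (∑ b ∈ s, (LipSp.mapL (P := PS ι)
      (ContinuousLinearMap.single ℝ (fun _ : ι × ι => Bil (E ι)) b)) ∘L K1 b) p q a
      = ∑ b ∈ s, (Pi.single b (K1 b p q) : A1 ι) a := by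
    intro s
    induction s using Finset.induction_on with
    | empty => simp
    | insert b s hb ih =>
      rw [Finset.sum_insert hb, Finset.sum_insert hb, ← ih]
      rfl
  unfold kh1
  rw [h1, Finset.sum_eq_single a]
  · simp
  · intro b _ hb
    rw [Pi.single_eq_of_ne (Ne.symm hb)]
  · simp

def kh2 (K2 : ι × ι → ι × ι → FT ι (Bil (E ι)) →L[ℝ] FT ι (Bil (E ι))) :
    FT ι (Bil (E ι)) →L[ℝ] FT ι (A2 ι) :=
  ∑ a, (LipSp.mapL (P := PS ι)
    (ContinuousLinearMap.single ℝ (fun _ : ι × ι => A1 ι) a)) ∘L kh1 (K2 a)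

theorem kh2_apply (K2 : ι × ι → ι × ι → FT ι (Bil (E ι)) →L[ℝ] FT ι (Bil (E ι)))
    (p : FT ι (Bil (E ι))) (q : Icc (0:ℝ) 1 × Sph ι) (a b : ι × ι) :
    kh2 K2 p q a b = K2 a b p q := by
  have h1 : ∀ s : Finset (ι × ι), (∑ d ∈ s, (LipSp.mapL (P := PS ι)
      (ContinuousLinearMap.single ℝ (fun _ : ι × ι => A1 ι) d)) ∘L kh1 (K2 d)) p q a
      = ∑ d ∈ s, (Pi.single d (kh1 (K2 d) p q) : A2 ι) a := by
    intro s
    induction s using Finset.induction_on with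
    | empty => simp
    | insert d s hd ih =>
      rw [Finset.sum_insert hd, Finset.sum_insert hd, ← ih]
      rfl
  unfold kh2
  rw [h1, Finset.sum_eq_single a]
  · simp [kh1_apply]
  · intro d _ hd
    rw [Pi.single_eq_of_ne (Ne.symm hd)]
  · simp

/-- trace -/
def trL : A2 ι →L[ℝ] Bil (E ι) :=
  ∑ a, (ContinuousLinearMap.proj (R := ℝ) (φ := fun _ : ι × ι => Bil (E ι)) a) ∘L
    (ContinuousLinearMap.proj (R := ℝ) (φ := fun _ : ι × ι => A1 ι) a)

theorem trL_apply (w : A2 ι) : trL w = ∑ a, w a a := by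
  unfold trL
  rw [ContinuousLinearMap.sum_apply]
  rfl

variable {R : RotSys C(Sph ι, Bil (E ι)) (Gam ι) (ι × ι)} {C T : ℝ}
    {K : FT ι (Bil (E ι)) →L[ℝ] FT ι (Bil (E ι))}
    {K1 : ι × ι → FT ι (Bil (E ι)) →L[ℝ] FT ι (Bil (E ι))}
    {K2 : ι × ι → ι × ι → FT ι (Bil (E ι)) →L[ℝ] FT ι (Bil (E ι))}

theorem norm_kh1_le (h : IsKop R C T K K1 K2) (hC : 0 ≤ C) (hT : 0 ≤ T) (p : FT ι (Bil (E ι))) :
    ‖kh1 K1 p‖ ≤ C * T ^ (1/4 : ℝ) * ‖p‖ := by
  have h0 : 0 ≤ C * T ^ (1/4 : ℝ) * ‖p‖ := by positivity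
  refine LipSp.norm_le h0 (fun x => ?_) (fun i => ?_)
  · rw [pi_norm_le_iff_of_nonneg h0]
    intro a
    rw [kh1_apply]
    exact ((K1 a p).norm_apply_le x).trans (h.norm_K1 a p)
  · have hw := ((PS ι).w_pos i).le
    rw [pi_norm_le_iff_of_nonneg (mul_nonneg h0 hw)]
    intro a
    rw [Pi.sub_apply, kh1_apply, kh1_apply]
    exact ((K1 a p).norm_diff_le i).trans (mul_le_mul_of_nonneg_right (h.norm_K1 a p) hw)

theorem norm_kh2_le (h : IsKop R C T K K1 K2) (hC : 0 ≤ C) (p : FT ι (Bil (E ι))) :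
    ‖kh2 K2 p‖ ≤ C * ‖p‖ := by
  have h0 : 0 ≤ C * ‖p‖ := by positivity
  refine LipSp.norm_le h0 (fun x => ?_) (fun i => ?_)
  · rw [pi_norm_le_iff_of_nonneg h0]
    intro a
    rw [pi_norm_le_iff_of_nonneg h0]
    intro b
    rw [kh2_apply]
    exact ((K2 a b p).norm_apply_le x).trans (h.norm_K2 a b p)
  · have hw := ((PS ι).w_pos i).le
    rw [pi_norm_le_iff_of_nonneg (mul_nonneg h0 hw)]
    intro a
    rw [pi_norm_le_iff_of_nonneg (mul_nonneg h0 hw)]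
    intro b
    rw [Pi.sub_apply, Pi.sub_apply, kh2_apply, kh2_apply]
    exact ((K2 a b p).norm_diff_le i).trans (mul_le_mul_of_nonneg_right (h.norm_K2 a b p) hw)

theorem norm_kh2_le' (h : IsKop R C T K K1 K2) (hC : 0 ≤ C) (hT : 0 ≤ T)
    (p : FT ι (Bil (E ι))) :
    ‖(kh2 K2 p).1.1‖ ≤ C * T ^ (1/4 : ℝ) * ‖p‖ := by
  have h0 : 0 ≤ C * T ^ (1/4 : ℝ) * ‖p‖ := by positivity
  rw [ContinuousMap.norm_le _ h0]
  intro x
  show ‖kh2 K2 p x‖ ≤ _
  rw [pi_norm_le_iff_of_nonneg h0]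
  intro a
  rw [pi_norm_le_iff_of_nonneg h0]
  intro b
  rw [kh2_apply]
  exact ((K2 a b p).1.1.norm_coe_le_norm x).trans (h.norm_K2' a b p)

/-- the 2-jet of `U + K p` -/
def jet (K : FT ι (Bil (E ι)) →L[ℝ] FT ι (Bil (E ι)))
    (K1 : ι × ι → FT ι (Bil (E ι)) →L[ℝ] FT ι (Bil (E ι)))
    (K2 : ι × ι → ι × ι → FT ι (Bil (E ι)) →L[ℝ] FT ι (Bil (E ι)))
    (q : DD ι × FT ι (Bil (E ι))) : DD ι :=
  (q.1.1 + K q.2, q.1.2.1 + kh1 K1 q.2, q.1.2.2 + kh2 K2 q.2)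

theorem contDiff_jet : ContDiff ℝ ∞ (jet K K1 K2) := by
  unfold jet
  apply ContDiff.prodMk
  · exact (contDiff_fst.comp contDiff_fst).add (K.contDiff.comp contDiff_snd)
  apply ContDiff.prodMk
  · exact (contDiff_fst.comp (contDiff_snd.comp contDiff_fst)).add
      ((kh1 K1).contDiff.comp contDiff_snd)
  · exact (contDiff_snd.comp (contDiff_snd.comp contDiff_fst)).add
      ((kh2 K2).contDiff.comp contDiff_snd)

end Pool.Agent.RF
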