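import Pool.Agent.Helper36_RF.MainMod
import Pool.Agent.Helper36_RF.Chr

/-!
# Module CRIT (helper36, MP_a23110_gt)
-/

noncomputable section

open scoped ContDiff Topology RealInnerProductSpace
set_option maxSynthPendingDepth 3
set_option linter.unusedSectionVars false
open Set

namespace Pool.Agent.RF

section PullSmooth

variable {ι κ : Type} [Fintype ι] [DecidableEq ι] [Fintype κ] [DecidableEq κ]

theorem contDiffOn_bilinearComp {X : Type*} [NormedAddCommGroup X] [NormedSpace ℝ X]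
    {b : X → Bil (E ι)} {D : X → E κ →L[ℝ] E ι} {s : Set X}
    (hb : ContDiffOn ℝ ∞ b s) (hD : ContDiffOn ℝ ∞ D s) :
    ContDiffOn ℝ ∞ (fun x => (b x).bilinearComp (D x) (D x)) s := by
  let B1 : (E κ →L[ℝ] E ι) →L[ℝ] (E ι →L[ℝ] E κ →L[ℝ] ℝ) →L[ℝ] Bil (E κ) :=
    (ContinuousLinearMap.compL ℝ (E κ) (E ι) (E κ →L[ℝ] ℝ)).flip
  let B2 : (E κ →L[ℝ] E ι) →L[ℝ] Bil (E ι) →L[ℝ] (E ι →L[ℝ] E κ →L[ℝ] ℝ) :=
    (ContinuousLinearMap.compL ℝ (E ι) (E ι →L[ℝ] ℝ) (E κ →L[ℝ] ℝ)) ∘L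
      ((ContinuousLinearMap.compL ℝ (E κ) (E ι) ℝ).flip)
  have h2 : ContDiffOn ℝ ∞ (fun x => B2 (D x) (b x)) s :=
    (B2.contDiff.comp_contDiffOn hD).clm_apply hb
  exact (B1.contDiff.comp_contDiffOn hD).clm_apply h2

/-- pullback of a smooth time dependent field -/
theorem contDiffOn_pullb_time {T : ℝ} {H : ℝ → E ι → Bil (E ι)} {I : Set ℝ}
    (hI : I ⊆ Icc 0 T)
    (hH : ContDiffOn ℝ ∞ (fun q : ℝ × E ι => H q.1 q.2) (Icc 0 T ×ˢ Om ι))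
    {ψ : E κ → E ι} {U : Set (E κ)} (hU : IsOpen U) (hψ : ContDiffOn ℝ ∞ ψ U)
    (hm : MapsTo ψ U (Om ι)) :
    ContDiffOn ℝ ∞ (fun q : ℝ × E κ => pullb (H q.1) ψ q.2) (I ×ˢ U) := by
  have hs : MapsTo (Prod.snd : ℝ × E κ → E κ) (I ×ˢ U) U := fun q hq => hq.2
  have h1 : ContDiffOn ℝ ∞ (fun q : ℝ × E κ => ψ q.2) (I ×ˢ U) :=
    hψ.comp contDiff_snd.contDiffOn hs
  have h2 : ContDiffOn ℝ ∞ (fun q : ℝ × E κ => fderiv ℝ ψ q.2) (I ×ˢ U) :=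
    (hψ.fderiv_of_isOpen hU (by simp)).comp contDiff_snd.contDiffOn hs
  have h3 : ContDiffOn ℝ ∞ (fun q : ℝ × E κ => H q.1 (ψ q.2)) (I ×ˢ U) := by
    have h4 : ContDiffOn ℝ ∞ (fun q : ℝ × E κ => (q.1, ψ q.2)) (I ×ˢ U) :=
      contDiff_fst.contDiffOn.prodMk h1
    exact hH.comp h4 (fun q hq => ⟨hI hq.1, hm hq.2⟩)
  exact contDiffOn_bilinearComp h3 h2

end PullSmooth

theorem om_of_norm_one {ι : Type} [Fintype ι] {x : E ι} (hx : ‖x‖ = 1) : x ∈ Om ι := by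
  intro h0
  rw [h0, norm_zero] at hx
  exact zero_ne_one hx

theorem isOpen_DomG' (α β : Type) [Fintype α] [DecidableEq α] [Fintype β] [DecidableEq β]
    (ρ : ℝ) : IsOpen (DomG α β ρ) := by
  apply IsOpen.inter
  · exact isOpen_lt (((prr : E (α ⊕ β) →L[ℝ] E β).continuous.norm).pow 2) continuous_const
  · exact isOpen_lt (((prl : E (α ⊕ β) →L[ℝ] E α).continuous.norm).pow 2) continuous_const

theorem crit (hDT : DeTurckStatement') (hEvo : EvoStatement) (hSl : SliceStatement)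
    (hCyl : CylExStatement) : CritStatement := by
  intro p F₁ F₂ ρ₁ ρ₂ K A0 m0 ν T G hp hE hρ₂ hK hA0 hη hA hf hft hT hG hG0
  have hcard : Fintype.card (Option (Fin p) ⊕ Fin 3) = Fintype.card (Fin p ⊕ Fin 3) + 1 := by
    rw [Fintype.card_sum, Fintype.card_option, Fintype.card_sum, Fintype.card_fin,
      Fintype.card_fin]
  obtain ⟨hcyl, hprof, hpsi, -, -⟩ := hCyl (Fin p) (Fin 3) F₁ F₂ ρ₁ hE.s1 hE.s2 hE.lt hE.z1 hE.z2
    hE.p1 hE.p2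
  obtain ⟨hsm, hall⟩ := hpsi (.refl ℝ _)
  obtain ⟨H, φ, hRF, hH0, hφ, -, hiff⟩ := hDT (Option (Fin p) ⊕ Fin 3) (Fin p ⊕ Fin 3) T
    G hcard hT hG
  let ψ : E (Fin p ⊕ Fin 3) → E (Option (Fin p) ⊕ Fin 3) := psiR (.refl ℝ _)
  let D : Set (E (Fin p ⊕ Fin 3)) := DomG (Fin p) (Fin 3) (min ρ₂ 1)
  have hDo : IsOpen D := isOpen_DomG' _ _ _
  have hDsub : D ⊆ DomG (Fin p) (Fin 3) 1 := fun y hy => ⟨lt_of_lt_of_le hy.1 (min_le_right _ _),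
    hy.2⟩
  have h0D : (0 : E (Fin p ⊕ Fin 3)) ∈ D := by
    refine ⟨?_, ?_⟩
    · rw [map_zero, norm_zero]
      have : 0 < min ρ₂ 1 := lt_min hρ₂ one_pos
      simpa using this
    · rw [map_zero, norm_zero]; norm_num
  have hψD : ContDiffOn ℝ ∞ ψ D := hsm.mono hDsub
  have h1 : ∀ y ∈ D, ‖ψ y‖ = 1 := fun y hy => (hall y (hDsub hy)).1
  have hm : MapsTo ψ D (Om _) := fun y hy => om_of_norm_one (h1 y hy)
  have hinj : ∀ y ∈ D, Function.Injective (fderiv ℝ ψ y) := fun y hy => (hall y (hDsub hy)).2.1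
  have hsl := fun (t : ℝ) (ht : t ∈ Icc 0 T) =>
    hSl (Option (Fin p) ⊕ Fin 3) (Fin p ⊕ Fin 3) (H t) ψ D hcard (hRF.cyl t ht) hDo hψD h1 hinj
  obtain ⟨t, ht, htT, hneg⟩ := hEvo (Fin p) (Fin 3) K A0 m0 ν T D (fun t => pullb (H t) ψ)
    (by rw [Fintype.card_fin]; exact hp) (by rw [Fintype.card_fin]; norm_num) hK hA0 hT
    (by rw [Fintype.card_fin, Fintype.card_fin]; exact_mod_cast hf)
    (by rw [Fintype.card_fin, Fintype.card_fin]; exact_mod_cast hft) hDo h0D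
    (contDiffOn_pullb_time subset_rfl hRF.smooth hDo hψD hm)
    (fun t ht => (hsl t ht).1)
    (by
      intro y hy
      have e1 : pullb (H 0) ψ y = pullb (Gcyl F₁ F₂) ψ y := by
        unfold pullb
        rw [hH0 _ (hm hy), hG0 _ (hm hy)]
      rw [e1, (hall y (hDsub hy)).2.2]
      have hτ : ‖(prr y : E (Fin 3))‖ ^ 2 < ρ₂ := lt_of_lt_of_le hy.1 (min_le_left _ _)
      unfold gloc g1 g3
      rw [hη _ hτ, hA _ hτ])
    (by
      intro t ht y hy v w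
      rw [(hsl t ht).2.2 y hy |>.1 v w]
      exact hRF.flow t ht (ψ y) (hm hy) _ _)
    T hT
  have htI : t ∈ Icc 0 T := ⟨ht.1.le, ht.2⟩
  refine ⟨t, ⟨ht.1, htT⟩, φ t (ψ 0), ?_, ?_⟩
  · rw [hφ t htI _ (hm h0D)]
    exact h1 0 h0D
  · intro h
    apply hneg
    rw [((hsl t htI).2.2 0 h0D).2.2]
    exact (hiff t htI (ψ 0) (hm h0D) (h1 0 h0D)).1.2 h

end Pool.Agent.RF
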