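import Pool.Agent.Helper36_RF.Cfix

/-!
# Smoothness of the solution under rotations (helper36, MP_a23110_gt)
-/

noncomputable section

open scoped ContDiff Topology RealInnerProductSpace
set_option maxSynthPendingDepth 3
set_option linter.unusedSectionVars false
open Set Metric

namespace Pool.Agent.RF

variable {ι : Type} [Fintype ι] [DecidableEq ι]

/-- iterated rotations -/
def rho : (m : ℕ) → (Fin m → Gam ι) → (Fin m → ℝ) → E ι →L[ℝ] E ι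
  | 0, _, _ => ContinuousLinearMap.id ℝ (E ι)
  | m + 1, J, s => rho m (fun i => J i.succ) (fun i => s i.succ) ∘L rot (J 0).1 (s 0)

theorem rpull_rpull (ρ ρ' : E ι →L[ℝ] E ι) (u : E ι → Bil (E ι)) :
    rpull ρ (rpull ρ' u) = rpull (ρ' ∘L ρ) u := rfl

theorem rpull_id (u : E ι → Bil (E ι)) : rpull (ContinuousLinearMap.id ℝ (E ι)) u = u := rfl

theorem IsData.unique {u : E ι → Bil (E ι)} {U U' : DD ι} (h : IsData u U) (h' : IsData u U') :
    U = U' := by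
  refine Prod.ext ?_ (Prod.ext ?_ ?_)
  · apply LipSp.ext'
    rintro ⟨t, x⟩
    rw [h.1, h'.1]
  · apply LipSp.ext'
    rintro ⟨t, x⟩
    funext a
    rw [h.2.1, h'.2.1]
  · apply LipSp.ext'
    rintro ⟨t, x⟩
    funext a b
    rw [h.2.2, h'.2.2]

theorem contDiff_rho (hRFT : RotFTStatement) (hι : 2 ≤ Fintype.card ι) (m : ℕ)
    (J : Fin m → Gam ι) : ContDiff ℝ ∞ (fun s : Fin m → ℝ => rho m J s) := by
  induction m with
  | zero => exact contDiff_const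
  | succ m ih =>
    have h1 : ContDiff ℝ ∞ (fun s : Fin (m + 1) → ℝ => rot (J 0).1 (s 0)) :=
      ((hRFT ι hι).1).comp (contDiff_const.prodMk (contDiff_apply ℝ ℝ (0 : Fin (m + 1))))
    have h2 : ContDiff ℝ ∞ (fun s : Fin (m + 1) → ℝ =>
        rho m (fun i => J i.succ) (fun i => s i.succ)) := by
      apply (ih (fun i => J i.succ)).comp
      rw [contDiff_pi]
      intro i
      exact contDiff_apply ℝ ℝ (i.succ)
    exact h2.clm_comp h1

theorem norm_rho (hRP : RotPairStatement) (hι : 2 ≤ Fintype.card ι) (m : ℕ)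
    (J : Fin m → Gam ι) (s : Fin m → ℝ) (x : E ι) : ‖rho m J s x‖ = ‖x‖ := by
  induction m generalizing x with
  | zero => rfl
  | succ m ih =>
    show ‖rho m _ _ (rot (J 0).1 (s 0) x)‖ = ‖x‖
    rw [ih, (hRP ι hι).1]

theorem rot_zero (J : E ι →L[ℝ] E ι) : rot J 0 = ContinuousLinearMap.id ℝ (E ι) := by
  unfold rot
  rw [zero_smul, NormedSpace.exp_zero]
  rfl

theorem rho_zero (m : ℕ) (J : Fin m → Gam ι) :
    rho m J (0 : Fin m → ℝ) = ContinuousLinearMap.id ℝ (E ι) := by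
  induction m with
  | zero => rfl
  | succ m ih =>
    show rho m _ (0 : Fin m → ℝ) ∘L rot (J 0).1 0 = _
    rw [ih, rot_zero]
    rfl

/-- joint smoothness of pulled back fields -/
theorem contDiffOn_rpull {P : Type} [NormedAddCommGroup P] [NormedSpace ℝ P]
    {u : E ι → Bil (E ι)} (hu : ContDiffOn ℝ ∞ u (Om ι)) {ρ : P → E ι →L[ℝ] E ι}
    (hρ : ContDiff ℝ ∞ ρ) (hn : ∀ s x, ‖ρ s x‖ = ‖x‖) :
    ContDiffOn ℝ ∞ (fun q : P × E ι => rpull (ρ q.1) u q.2) (univ ×ˢ Om ι) := by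
  have h1 : ContDiff ℝ ∞ (fun q : P × E ι => ρ q.1 q.2) :=
    (hρ.comp contDiff_fst).clm_apply contDiff_snd
  have h2 : ContDiffOn ℝ ∞ (fun q : P × E ι => u (ρ q.1 q.2)) (univ ×ˢ Om ι) := by
    apply hu.comp h1.contDiffOn
    intro q hq
    have : ‖ρ q.1 q.2‖ ≠ 0 := by rw [hn]; exact norm_ne_zero_iff.2 hq.2
    exact norm_ne_zero_iff.1 this
  have h3 : ContDiff ℝ ∞ (fun q : P × E ι => pull2 (ρ q.1) (ρ q.1)) :=
    contDiff_pull2 (hρ.comp contDiff_fst) (hρ.comp contDiff_fst)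
  exact h3.contDiffOn.clm_apply h2

theorem contDiffOn_rpull' {u : E ι → Bil (E ι)} (hu : ContDiffOn ℝ ∞ u (Om ι))
    {ρ : E ι →L[ℝ] E ι} (hn : ∀ x, ‖ρ x‖ = ‖x‖) : ContDiffOn ℝ ∞ (rpull ρ u) (Om ι) := by
  have h2 : ContDiffOn ℝ ∞ (fun x : E ι => u (ρ x)) (Om ι) := by
    apply hu.comp ρ.contDiff.contDiffOn
    intro x hx
    have : ‖ρ x‖ ≠ 0 := by rw [hn]; exact norm_ne_zero_iff.2 hx
    exact norm_ne_zero_iff.1 this
  exact (pull2 ρ ρ).contDiff.comp_contDiffOn h2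

variable {R : RotSys C(Sph ι, Bil (E ι)) (Gam ι) (ι × ι)} {C T : ℝ}
    {K : FT ι (Bil (E ι)) →L[ℝ] FT ι (Bil (E ι))}
    {K1 : ι × ι → FT ι (Bil (E ι)) →L[ℝ] FT ι (Bil (E ι))}
    {K2 : ι × ι → ι × ι → FT ι (Bil (E ι)) →L[ℝ] FT ι (Bil (E ι))}
    {c : E ι × Bil (E ι) → A2 ι →L[ℝ] Bil (E ι)} {Gf : E ι × Bil (E ι) × A1 ι → Bil (E ι)}
    {r Cq : ℝ}

theorem iterated_step (hData : DataStatement) (hRFT : RotFTStatement) (hStep : StepStatement)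
    (hRP : RotPairStatement) (hι : 2 ≤ Fintype.card ι) (H : Heat R) (hR : IsRotSys R)
    (hQ : IsQ ι c Gf r Cq) (hr1 : r < 1) (hT : 0 < T) (hK : IsKop R C T K K1 K2)
    (u : E ι → Bil (E ι)) (U : DD ι) (p : FT ι (Bil (E ι))) (hu : ContDiffOn ℝ ∞ u (Om ι))
    (hsym : ∀ x ∈ Om ι, ∀ v w, u x v w = u x w v) (hU : IsData u U)
    (hfix : FixEq c Gf K K1 K2 U p) (hcl : ∀ q, ‖(jet K K1 K2 (U, p)).1 q - del ι‖ < r)
    (m : ℕ) (J : Fin m → Gam ι) (s : Fin m → ℝ) (U' : DD ι)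
    (hU' : IsData (rpull (rho m J s) u) U') :
    ∃ p' : FT ι (Bil (E ι)), ‖p'‖ ≤ ‖p‖ ∧ FixEq c Gf K K1 K2 U' p' ∧
      (∀ q, ‖(jet K K1 K2 (U', p')).1 q - del ι‖ < r) ∧
      ∀ t, sl (jet K K1 K2 (U', p')).1 t = TT R m J s (sl (jet K K1 K2 (U, p)).1 t) := by
  induction m generalizing U' with
  | zero =>
    have : U' = U := IsData.unique hU' hU
    subst this
    exact ⟨p, le_rfl, hfix, hcl, fun t => rfl⟩
  | succ m ih =>
    let J' : Fin m → Gam ι := fun i => J i.succ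
    let s' : Fin m → ℝ := fun i => s i.succ
    have hsm := contDiffOn_rpull hu (contDiff_rho hRFT hι m J') (norm_rho hRP hι m J')
    obtain ⟨𝒰, -, h𝒰⟩ := hData ι (Fin m → ℝ) (fun s => rpull (rho m J' s) u) hsm
    obtain ⟨p1, h1, h2, h3, h4⟩ := ih J' s' (𝒰 s') (h𝒰 s')
    obtain ⟨p', h5, h6⟩ := (hRFT ι hι).2 R hR (J 0) (s 0) p1
    have hu1 : ContDiffOn ℝ ∞ (rpull (rho m J' s') u) (Om ι) :=
      contDiffOn_rpull' hu (norm_rho hRP hι m J' s')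
    have hsym1 : ∀ x ∈ Om ι, ∀ v w, rpull (rho m J' s') u x v w = rpull (rho m J' s') u x w v := by
      intro x hx v w
      apply hsym
      have : ‖rho m J' s' x‖ ≠ 0 := by
        rw [norm_rho hRP hι]; exact norm_ne_zero_iff.2 hx
      exact norm_ne_zero_iff.1 this
    obtain ⟨g1, g2, g3⟩ := hStep ι hι R H hR c Gf r Cq hQ hr1 C T K K1 K2 hT hK
      (rpull (rho m J' s') u) (𝒰 s') p1 hu1 hsym1 (h𝒰 s') h2 h3 (J 0) (s 0) U' p' hU' h5
    refine ⟨p', h6.trans h1, g1, g2, ?_⟩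
    intro t
    rw [g3, h4]
    rfl

/-- all rotational orbits of the solution are smooth -/
theorem smooth_orbit (hData : DataStatement) (hRFT : RotFTStatement) (hStep : StepStatement)
    (hRP : RotPairStatement) (hι : 2 ≤ Fintype.card ι) (H : Heat R) (hR : IsRotSys R)
    (hQ : IsQ ι c Gf r Cq) (hr1 : r < 1) (hT : 0 < T) (hK : IsKop R C T K K1 K2)
    {M η : ℝ} {U₀ : DD ι} {P : DD ι → FT ι (Bil (E ι))} (hP : ContDiffOn ℝ ∞ P (ball U₀ η))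
    (hPf : ∀ U ∈ ball U₀ η, ‖P U‖ ≤ M ∧ FixEq c Gf K K1 K2 U (P U) ∧
          (∀ q, ‖(jet K K1 K2 (U, P U)).1 q - del ι‖ < r) ∧
          ∀ p, ‖p‖ ≤ M → FixEq c Gf K K1 K2 U p → p = P U)
    (u : E ι → Bil (E ι)) (U : DD ι) (hu : ContDiffOn ℝ ∞ u (Om ι))
    (hsym : ∀ x ∈ Om ι, ∀ v w, u x v w = u x w v) (hU : IsData u U) (hUb : U ∈ ball U₀ η)
    (m : ℕ) (J : Fin m → Gam ι) :
    ∃ q : (Fin m → ℝ) → FT ι (Bil (E ι)), ContDiffAt ℝ ∞ q 0 ∧
      ∀ᶠ s in 𝓝 0, ∀ t, sl (q s) t = TT R m J s (sl (jet K K1 K2 (U, P U)).1 t) := by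
  have hsm := contDiffOn_rpull hu (contDiff_rho hRFT hι m J) (norm_rho hRP hι m J)
  obtain ⟨𝒰, h𝒰1, h𝒰⟩ := hData ι (Fin m → ℝ) (fun s => rpull (rho m J s) u) hsm
  have h0 : 𝒰 0 = U := by
    apply IsData.unique (h𝒰 0)
    have : rpull (rho m J 0) u = u := by rw [rho_zero, rpull_id]
    show IsData (rpull (rho m J 0) u) U
    rw [this]
    exact hU
  have hnear : ∀ᶠ s in 𝓝 (0 : Fin m → ℝ), 𝒰 s ∈ ball U₀ η := by
    apply h𝒰1.continuous.continuousAt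
    rw [h0]
    exact isOpen_ball.mem_nhds hUb
  obtain ⟨-, hf, hcl, -⟩ := hPf U hUb
  refine ⟨fun s => (jet K K1 K2 (𝒰 s, P (𝒰 s))).1, ?_, ?_⟩
  · have h1 : ContDiffAt ℝ ∞ (fun s => (𝒰 s, P (𝒰 s))) (0 : Fin m → ℝ) := by
      apply h𝒰1.contDiffAt.prodMk
      have h2 : ContDiffAt ℝ ∞ P (𝒰 0) := by
        rw [h0]
        exact (hP U hUb).contDiffAt (isOpen_ball.mem_nhds hUb)
      exact h2.comp 0 h𝒰1.contDiffAt
    exact (contDiff_fst.comp contDiff_jet).contDiffAt.comp 0 h1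
  · filter_upwards [hnear] with s hs t
    obtain ⟨p', h1, h2, -, h4⟩ := iterated_step hData hRFT hStep hRP hι H hR hQ hr1 hT hK u U
      (P U) hu hsym hU hf hcl m J s (𝒰 s) (h𝒰 s)
    have h5 : p' = P (𝒰 s) := (hPf (𝒰 s) hs).2.2.2 p' (h1.trans (hPf U hUb).1) h2
    rw [← h5]
    exact h4 t

end Pool.Agent.RF
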