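import Pool.Agent.Helper36_RF.Csm
import Pool.Agent.Helper71_RF.Csol

/-!
# Local existence for the Ricci-DeTurck flow (helper36, MP_a23110_gt)
-/

noncomputable section

open scoped ContDiff Topology RealInnerProductSpace
set_option maxSynthPendingDepth 3
set_option linter.unusedSectionVars false
open Set Metric

namespace Pool.Agent.RF

theorem IsQ.mono {ι : Type} [Fintype ι] [DecidableEq ι]
    {c : E ι × Bil (E ι) → (ι × ι → ι × ι → Bil (E ι)) →L[ℝ] Bil (E ι)}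
    {Gf : E ι × Bil (E ι) × (ι × ι → Bil (E ι)) → Bil (E ι)} {r C : ℝ} (h : IsQ ι c Gf r C)
    {r' : ℝ} (h0 : 0 < r') (h1 : r' ≤ r) : IsQ ι c Gf r' C :=
  ⟨h.1, h.2.1, h0, fun x u hx hu => h.2.2.2.1 x u hx (hu.trans h1),
    fun u hu hh x hx hux => h.2.2.2.2 u hu hh x hx (hux.trans h1)⟩

/-- the two-jet at a point of the homogeneous extension, in terms of the data -/
theorem jets_hat {ι : Type} [Fintype ι] [DecidableEq ι] (hJet : JetStatement) (W : DD ι)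
    (t : Icc (0:ℝ) 1) (hsm : ContDiffOn ℝ ∞ (hat W.1 t) (Om ι))
    (h : ∀ x : Sph ι, (∀ a, W.2.1 (t, x) a = lieX (Jst a) (hat W.1 t) x) ∧
          ∀ a b, W.2.2 (t, x) a b = lieX (Jst a) (lieX (Jst b) (hat W.1 t)) x)
    (x : E ι) (hx : x ∈ Om ι) :
    hat W.1 t x = (‖x‖ ^ 2)⁻¹ • W.1 (t, H71.dir x hx) ∧
    (fun a => lieX (Jst a) (hat W.1 t) x) = (‖x‖ ^ 2)⁻¹ • W.2.1 (t, H71.dir x hx) ∧
    (fun a b => lieX (Jst a) (lieX (Jst b) (hat W.1 t)) x)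
      = (‖x‖ ^ 2)⁻¹ • W.2.2 (t, H71.dir x hx) := by
  have hn : 0 < ‖x‖ := norm_pos_iff.2 hx
  have hh : Homog (hat W.1 t) := H71.hat_homog _ _
  have hxe : ‖x‖ • (H71.dir x hx : E ι) = x := H71.norm_smul_dir x hx
  have hO : (H71.dir x hx : E ι) ∈ Om ι := H71.sph_mem_Om _
  have h1 := hJet ι
  refine ⟨?_, ?_, ?_⟩
  · have e := hh ‖x‖ hn _ hO
    rw [hxe, H71.hat_sph] at e
    exact e
  · funext a
    have e := (h1.1 _ hsm hh (Jst a)).2 ‖x‖ hn _ hO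
    rw [hxe] at e
    rw [e, Pi.smul_apply, (h _).1]
  · funext a b
    have hb := h1.1 _ hsm hh (Jst b)
    have e := (h1.1 _ hb.1 hb.2 (Jst a)).2 ‖x‖ hn _ hO
    rw [hxe] at e
    rw [e, Pi.smul_apply, Pi.smul_apply, (h _).2]

theorem exist (hnem : NemStatement) (hRS : RotSysStatement) (hHeat : HeatStatement)
    (hKop : KopStatement) (hReg : RegStatement) (hQS : QStrStatement) (hData : DataStatement)
    (hRFT : RotFTStatement) (hStep : StepStatement) (hRP : RotPairStatement)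
    (hCsol : CsolStatement) (hJet : JetStatement) (hResc : RescStatement) : ExistStatement := by
  intro ι _ _ hι
  obtain ⟨c, Gf, r₁, Cq, hc, hG, hr₁, hb, hq⟩ := hQS ι
  have hQ₁ : IsQ ι c Gf r₁ Cq := ⟨hc, hG, hr₁, hb, hq⟩
  have hQ : IsQ ι c Gf (min r₁ (1/2)) Cq := hQ₁.mono (lt_min hr₁ (by norm_num)) (min_le_left _ _)
  have hr1 : min r₁ (1/2) < 1 := lt_of_le_of_lt (min_le_right _ _) (by norm_num)
  generalize min r₁ (1/2) = r at hQ hr1
  obtain ⟨R, hR⟩ := hRS ι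
  obtain ⟨H⟩ := hHeat _ _ _ R
  obtain ⟨C, hC, hK⟩ := hKop ι hι R hR
  obtain ⟨r0, hr0, hr0r, hfix⟩ := exists_fix hnem hQ hC hK
  refine ⟨r0, hr0, ?_⟩
  intro u ε₀ hε₀ hcyl hsm hclose
  obtain ⟨𝒰, h𝒰1, h𝒰2⟩ := hData ι ℝ u hsm
  have hcl0 : ∀ q, ‖(𝒰 0).1 q - del ι‖ < r0 := by
    rintro ⟨t, x⟩
    rw [(h𝒰2 0).1]
    exact hclose x (mem_sphere_zero_iff_norm.1 x.2)
  obtain ⟨T, K, K1, K2, M, η, P, hT, hT1, hKop', hM, hη, hP, hPf⟩ := hfix (𝒰 0) hcl0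
  obtain ⟨δ, hδ, hδ'⟩ := Metric.continuousAt_iff.1 (h𝒰1.continuous.continuousAt (x := (0:ℝ))) η hη
  have hε₁pos : 0 < min ε₀ (δ / 2) := lt_min hε₀ (by positivity)
  have hball : ∀ ε ∈ Icc (0:ℝ) (min ε₀ (δ / 2)), 𝒰 ε ∈ ball (𝒰 0) η := by
    intro ε hε
    apply hδ'
    rw [Real.dist_eq, sub_zero, abs_of_nonneg hε.1]
    have := hε.2.trans (min_le_right _ _)
    linarith
  have hcyl' : ∀ ε ∈ Icc (0:ℝ) (min ε₀ (δ / 2)), IsCyl (u ε) := fun ε hε =>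
    hcyl ε ⟨hε.1, hε.2.trans (min_le_left _ _)⟩
  generalize hε₁ : min ε₀ (δ / 2) = ε₁ at hε₁pos hball hcyl'
  have hε₁0 : ε₁ ≤ ε₀ := hε₁ ▸ min_le_left _ _
  -- the solution
  let w : ℝ → DD ι := fun ε => jet K K1 K2 (𝒰 ε, P (𝒰 ε))
  have hreg : ∀ ε ∈ Icc (0:ℝ) ε₁, (∀ t ∈ Icc (0:ℝ) 1, ContDiffOn ℝ ∞ (hat (w ε).1 t) (Om ι)) ∧
      ∀ k : ℕ, ContinuousOn (fun q : ℝ × E ι => iteratedFDeriv ℝ k (hat (w ε).1 q.1) q.2)
        (Icc 0 1 ×ˢ Om ι) := by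
    intro ε hε
    apply hReg ι hι R hR
    intro m J
    exact smooth_orbit hData hRFT hStep hRP hι H hR hQ hr1 hT hKop' hP hPf (u ε) (𝒰 ε)
      (hcyl' ε hε).metric.smooth (hcyl' ε hε).metric.symm (h𝒰2 ε) (hball ε hε) m J
  have hsol := fun (ε : ℝ) (hε : ε ∈ Icc (0:ℝ) ε₁) =>
    hCsol ι hι R hR c Gf r Cq hQ hr1 C T K K1 K2 hT hKop' (u ε) (𝒰 ε) (P (𝒰 ε))
      (hcyl' ε hε) (h𝒰2 ε) (hPf (𝒰 ε) (hball ε hε)).2.1 (hPf (𝒰 ε) (hball ε hε)).2.2.1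
      (hreg ε hε).1
  refine ⟨T, ε₁, fun ε t => hat (w ε).1 (t / T), hT, ⟨hε₁pos, hε₁0⟩, ?_, ?_⟩
  · intro ε hε
    obtain ⟨h1, h2⟩ := hsol ε hε
    refine ⟨?_, ?_⟩
    · apply hResc ι T (hat (w ε).1) hT
      · intro t ht
        exact (h2 ⟨t, ht⟩).1
      · exact (hreg ε hε).2
      · intro t ht x hx v v'
        exact (h2 ⟨t, ht⟩).2.2 x hx v v'
    · intro x hx
      show hat (w ε).1 (0 / T) x = u ε x
      rw [zero_div]
      exact h1 x hx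
  · intro t ht x hx
    have hτ : t / T ∈ Icc (0:ℝ) 1 := ⟨div_nonneg ht.1 hT.le, (div_le_one hT).2 ht.2⟩
    obtain ⟨L1, L2, hL1, hL2, hL⟩ := (hJet ι).2
    have hw : ContinuousAt w 0 := by
      have h1 : ContinuousAt (fun ε => (𝒰 ε, P (𝒰 ε))) (0:ℝ) := by
        apply h𝒰1.continuous.continuousAt.prodMk
        have h2 : ContinuousAt P (𝒰 0) :=
          ((hP (𝒰 0) (mem_ball_self hη)).contDiffAt
            (isOpen_ball.mem_nhds (mem_ball_self hη))).continuousAt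
        exact ContinuousAt.comp (f := 𝒰) h2 h𝒰1.continuous.continuousAt
      exact (contDiff_jet (K := K) (K1 := K1) (K2 := K2)).continuous.continuousAt.comp h1
    -- the jets at `x`
    let y : Sph ι := H71.dir x hx
    let τ : Icc (0:ℝ) 1 := ⟨t / T, hτ⟩
    let V : ℝ → Bil (E ι) × A1 ι × A2 ι := fun ε =>
      ((‖x‖ ^ 2)⁻¹ • (w ε).1 (τ, y), (‖x‖ ^ 2)⁻¹ • (w ε).2.1 (τ, y),
        (‖x‖ ^ 2)⁻¹ • (w ε).2.2 (τ, y))
    have hV : ContinuousAt V 0 := by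
      have e0 : ContinuousAt (fun ε => (w ε).1 (τ, y)) 0 :=
        ((LipSp.evalL (P := PS ι) (Y := Bil (E ι)) (τ, y)).continuous.comp
          continuous_fst).continuousAt.comp hw
      have e1 : ContinuousAt (fun ε => (w ε).2.1 (τ, y)) 0 :=
        ((LipSp.evalL (P := PS ι) (Y := A1 ι) (τ, y)).continuous.comp
          (continuous_fst.comp continuous_snd)).continuousAt.comp hw
      have e2 : ContinuousAt (fun ε => (w ε).2.2 (τ, y)) 0 :=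
        ((LipSp.evalL (P := PS ι) (Y := A2 ι) (τ, y)).continuous.comp
          (continuous_snd.comp continuous_snd)).continuousAt.comp hw
      have g0 : ContinuousAt (fun ε => (‖x‖ ^ 2)⁻¹ • (w ε).1 (τ, y)) 0 :=
        (continuous_const_smul ((‖x‖ ^ 2)⁻¹)).continuousAt.comp e0
      have g1 : ContinuousAt (fun ε => (‖x‖ ^ 2)⁻¹ • (w ε).2.1 (τ, y)) 0 :=
        (continuous_const_smul ((‖x‖ ^ 2)⁻¹)).continuousAt.comp e1
      have g2 : ContinuousAt (fun ε => (‖x‖ ^ 2)⁻¹ • (w ε).2.2 (τ, y)) 0 :=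
        (continuous_const_smul ((‖x‖ ^ 2)⁻¹)).continuousAt.comp e2
      exact g0.prodMk (g1.prodMk g2)
    have hVeq : ∀ ε ∈ Icc (0:ℝ) ε₁,
        (hat (w ε).1 (t / T) x, fderiv ℝ (hat (w ε).1 (t / T)) x,
          fderiv ℝ (fderiv ℝ (hat (w ε).1 (t / T))) x)
        = ((V ε).1, L1 x ((V ε).1, (V ε).2.1), L2 x (V ε)) := by
      intro ε hε
      obtain ⟨h1, h2⟩ := hsol ε hε
      have hs := (hreg ε hε).1 (t / T) hτ
      obtain ⟨j0, j1, j2⟩ := jets_hat hJet (w ε) τ hs (h2 τ).2.1 x hx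
      obtain ⟨l1, l2⟩ := hL (hat (w ε).1 (t / T)) hs (H71.hat_homog _ _) x hx
      have j0' : hat (w ε).1 (t / T) x = (V ε).1 := j0
      have j1' : (fun a => lieX (Jst a) (hat (w ε).1 (t / T)) x) = (V ε).2.1 := j1
      have j2' : (fun a b => lieX (Jst a) (lieX (Jst b) (hat (w ε).1 (t / T))) x)
        = (V ε).2.2 := j2
      rw [j1', j0'] at l1
      rw [j2', j1', j0'] at l2
      rw [l1, l2, j0']
    have hcont : ContinuousAt (fun ε => ((V ε).1, L1 x ((V ε).1, (V ε).2.1), L2 x (V ε))) 0 := by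
      have f0 : ContinuousAt (fun ε => (V ε).1) 0 := continuous_fst.continuousAt.comp hV
      have f1 : ContinuousAt (fun ε => (V ε).2.1) 0 :=
        (continuous_fst.comp continuous_snd).continuousAt.comp hV
      exact f0.prodMk (((hL1 x hx).continuousAt.comp (f0.prodMk f1)).prodMk
        ((hL2 x hx).continuousAt.comp hV))
    apply hcont.continuousWithinAt.congr
    · intro ε hε
      exact hVeq ε hε
    · exact hVeq 0 ⟨le_rfl, hε₁pos.le⟩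

end Pool.Agent.RF
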