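import Pool.Agent.Helper36_RF.Contr

/-!
# Modules of the existence theorem for the Ricci-DeTurck flow (helper36, MP_a23110_gt)

Every `...Statement : Prop` below is a self-contained module: prove it in your own file (taking the
indicated statements as hypotheses).
-/

noncomputable section

open scoped ContDiff Topology RealInnerProductSpace
set_option maxSynthPendingDepth 3
set_option linter.unusedSectionVars false
open Set Metric

namespace Pool.Agent.RF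

variable {ι : Type} [Fintype ι] [DecidableEq ι]

/-- pullback by a linear map -/
def rpull (ρ : E ι →L[ℝ] E ι) (u : E ι → Bil (E ι)) (x : E ι) : Bil (E ι) :=
  (u (ρ x)).bilinearComp ρ ρ

/-- `U` is the (time independent) 2-jet, with respect to rotations, of the field `u` -/
def IsData (u : E ι → Bil (E ι)) (U : DD ι) : Prop :=
  (∀ t (x : Sph ι), U.1 (t, x) = u x) ∧
  (∀ t (x : Sph ι) a, U.2.1 (t, x) a = lieX (Jst a) u x) ∧
  (∀ t (x : Sph ι) a b, U.2.2 (t, x) a b = lieX (Jst a) (lieX (Jst b) u) x)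

/-- the fixed point equation `p = Π (c(x,W₀) W₂ + Gf(x,W₀,W₁)) + ∑ X_a² U`, `W = jet (U + K p)` -/
def FixEq (c : E ι × Bil (E ι) → A2 ι →L[ℝ] Bil (E ι)) (Gf : E ι × Bil (E ι) × A1 ι → Bil (E ι))
    (K : FT ι (Bil (E ι)) →L[ℝ] FT ι (Bil (E ι)))
    (K1 : ι × ι → FT ι (Bil (E ι)) →L[ℝ] FT ι (Bil (E ι)))
    (K2 : ι × ι → ι × ι → FT ι (Bil (E ι)) →L[ℝ] FT ι (Bil (E ι)))
    (U : DD ι) (p : FT ι (Bil (E ι))) : Prop :=
  ∀ q : Icc (0:ℝ) 1 × Sph ι, p q =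
    PiB (q.2 : E ι) (c ((q.2 : E ι), (jet K K1 K2 (U, p)).1 q) ((jet K K1 K2 (U, p)).2.2 q)
      + Gf ((q.2 : E ι), (jet K K1 K2 (U, p)).1 q, (jet K K1 K2 (U, p)).2.1 q))
    + ∑ a, U.2.2 q a a

/-- EX2 (module DATA, from `NemStatement`; use `exists_family` in `Sfam.lean`): smooth families of
fields have smooth families of data. -/
def DataStatement : Prop :=
  ∀ (ι : Type) [Fintype ι] [DecidableEq ι] (P : Type) [NormedAddCommGroup P] [NormedSpace ℝ P]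
    [FiniteDimensional ℝ P] (F : P → E ι → Bil (E ι)),
    ContDiffOn ℝ ∞ (fun q : P × E ι => F q.1 q.2) (univ ×ˢ Om ι) →
    ∃ U : P → DD ι, ContDiff ℝ ∞ U ∧ ∀ s, IsData (F s) (U s)

/-- EX3 (module DATA, from `NemStatement`): generators of restrictions of smooth fields.
(`s ↦ T_J(s) f` is the restriction of `rpull (rot J s) u`, a smooth curve by `exists_family`.) -/
def GenStatement : Prop :=
  ∀ (ι : Type) [Fintype ι] [DecidableEq ι]
    (R : RotSys C(Sph ι, Bil (E ι)) (Gam ι) (ι × ι)), IsRotSys R →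
    ∀ u : E ι → Bil (E ι), ContDiffOn ℝ ∞ u (Om ι) →
    ∀ (J : Gam ι) (f f' : C(Sph ι, Bil (E ι))),
      (∀ x : Sph ι, f x = u x) → (∀ x : Sph ι, f' x = lieX J.1 u x) → R.HasGen J f f'

/-- EX4 (module DATA): smoothness of the iterated rotations, and the rotations on `FT`. -/
def RotFTStatement : Prop :=
  ∀ (ι : Type) [Fintype ι] [DecidableEq ι], 2 ≤ Fintype.card ι →
    ContDiff ℝ ∞ (fun q : (E ι →L[ℝ] E ι) × ℝ => rot q.1 q.2) ∧
    ∀ (R : RotSys C(Sph ι, Bil (E ι)) (Gam ι) (ι × ι)), IsRotSys R →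
    ∀ (J : Gam ι) (s : ℝ) (p : FT ι (Bil (E ι))), ∃ p' : FT ι (Bil (E ι)),
      (∀ t, sl p' t = R.T J s (sl p t)) ∧ ‖p'‖ ≤ ‖p‖

/-- EX5 (module STEP, from `EquivStatement`, `GenStatement`, `RotPairStatement`): the fixed point
equation is rotation equivariant.  (Casimir terms: for `K p` use `IsKop.eqn` and `IsKop.rot`, for
the smooth field `u` use `Heat.heat` at `t = 0` and `Heat.comm`; symmetry of `K p` by `IsKop.comm`
with the flip; then `EquivStatement`, uniqueness of derivatives, `PiB_comp`.) -/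
def StepStatement : Prop :=
  ∀ (ι : Type) [Fintype ι] [DecidableEq ι], 2 ≤ Fintype.card ι → ∀
    (R : RotSys C(Sph ι, Bil (E ι)) (Gam ι) (ι × ι)) (_ : Heat R), IsRotSys R →
    ∀ (c : E ι × Bil (E ι) → A2 ι →L[ℝ] Bil (E ι)) (Gf : E ι × Bil (E ι) × A1 ι → Bil (E ι))
      (r C : ℝ), IsQ ι c Gf r C → r < 1 →
    ∀ (C' T : ℝ) (K : FT ι (Bil (E ι)) →L[ℝ] FT ι (Bil (E ι)))
      (K1 : ι × ι → FT ι (Bil (E ι)) →L[ℝ] FT ι (Bil (E ι)))
      (K2 : ι × ι → ι × ι → FT ι (Bil (E ι)) →L[ℝ] FT ι (Bil (E ι))),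
      0 < T → IsKop R C' T K K1 K2 →
    ∀ (u : E ι → Bil (E ι)) (U : DD ι) (p : FT ι (Bil (E ι))), ContDiffOn ℝ ∞ u (Om ι) →
      (∀ x ∈ Om ι, ∀ v w, u x v w = u x w v) → IsData u U → FixEq c Gf K K1 K2 U p →
      (∀ q, ‖(jet K K1 K2 (U, p)).1 q - del ι‖ < r) →
    ∀ (J : Gam ι) (s : ℝ) (U' : DD ι) (p' : FT ι (Bil (E ι))),
      IsData (rpull (rot J.1 s) u) U' → (∀ t, sl p' t = R.T J s (sl p t)) →
      FixEq c Gf K K1 K2 U' p' ∧ (∀ q, ‖(jet K K1 K2 (U', p')).1 q - del ι‖ < r) ∧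
      ∀ t, sl (jet K K1 K2 (U', p')).1 t = R.T J s (sl (jet K K1 K2 (U, p)).1 t)

/-- EX6 (module CSOL, from `GenStatement`, `RdtCylStatement`, `SymStatement`): a smooth solution of
the fixed point equation with cylindrical initial data consists of cylinder metrics and solves the
Ricci-DeTurck equation.  (`p` is fixed by `PiB` as `∑ X_a² u` is; hence so is `K p` by
`IsKop.comm`; hence `hat w t` is a cylinder metric; `rdt` of it is symmetric and kills `x`, so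
`PiB` may be dropped in `FixEq`.) -/
def CsolStatement : Prop :=
  ∀ (ι : Type) [Fintype ι] [DecidableEq ι], 2 ≤ Fintype.card ι → ∀
    (R : RotSys C(Sph ι, Bil (E ι)) (Gam ι) (ι × ι)), IsRotSys R →
    ∀ (c : E ι × Bil (E ι) → A2 ι →L[ℝ] Bil (E ι)) (Gf : E ι × Bil (E ι) × A1 ι → Bil (E ι))
      (r C : ℝ), IsQ ι c Gf r C → r < 1 →
    ∀ (C' T : ℝ) (K : FT ι (Bil (E ι)) →L[ℝ] FT ι (Bil (E ι)))
      (K1 : ι × ι → FT ι (Bil (E ι)) →L[ℝ] FT ι (Bil (E ι)))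
      (K2 : ι × ι → ι × ι → FT ι (Bil (E ι)) →L[ℝ] FT ι (Bil (E ι))),
      0 < T → IsKop R C' T K K1 K2 →
    ∀ (u : E ι → Bil (E ι)) (U : DD ι) (p : FT ι (Bil (E ι))), IsCyl u → IsData u U →
      FixEq c Gf K K1 K2 U p → (∀ q, ‖(jet K K1 K2 (U, p)).1 q - del ι‖ < r) →
      (∀ t ∈ Icc (0:ℝ) 1, ContDiffOn ℝ ∞ (hat (jet K K1 K2 (U, p)).1 t) (Om ι)) →
      (∀ x ∈ Om ι, hat (jet K K1 K2 (U, p)).1 0 x = u x) ∧
      ∀ t : Icc (0:ℝ) 1, IsCyl (hat (jet K K1 K2 (U, p)).1 t) ∧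
        (∀ x : Sph ι,
          (∀ a, (jet K K1 K2 (U, p)).2.1 (t, x) a
            = lieX (Jst a) (hat (jet K K1 K2 (U, p)).1 t) x) ∧
          ∀ a b, (jet K K1 K2 (U, p)).2.2 (t, x) a b
            = lieX (Jst a) (lieX (Jst b) (hat (jet K K1 K2 (U, p)).1 t)) x) ∧
        ∀ x ∈ Om ι, ∀ v v', HasDerivWithinAt (fun s => hat (jet K K1 K2 (U, p)).1 s x v v')
          (T * rdt (hat (jet K K1 K2 (U, p)).1 t) x v v') (Icc 0 1) t

/-- EX7 (module JETS): the 2-jet of a homogeneous field in terms of Lie derivatives.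
(`|x|² v = ∑_{k,i} √2 v_k x_i Jst(k,i) x + ⟨x,v⟩ x` and `D u(x) x = -2 u(x)`.) -/
def JetStatement : Prop :=
  ∀ (ι : Type) [Fintype ι] [DecidableEq ι],
    (∀ u : E ι → Bil (E ι), ContDiffOn ℝ ∞ u (Om ι) → Homog u → ∀ J : E ι →L[ℝ] E ι,
      ContDiffOn ℝ ∞ (lieX J u) (Om ι) ∧ Homog (lieX J u)) ∧
    ∃ (L1 : E ι → (Bil (E ι) × A1 ι) → (E ι →L[ℝ] Bil (E ι)))
      (L2 : E ι → (Bil (E ι) × A1 ι × A2 ι) → (E ι →L[ℝ] E ι →L[ℝ] Bil (E ι))),
      (∀ x ∈ Om ι, Continuous (L1 x)) ∧ (∀ x ∈ Om ι, Continuous (L2 x)) ∧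
      ∀ u : E ι → Bil (E ι), ContDiffOn ℝ ∞ u (Om ι) → Homog u → ∀ x ∈ Om ι,
        fderiv ℝ u x = L1 x (u x, fun a => lieX (Jst a) u x) ∧
        fderiv ℝ (fderiv ℝ u) x = L2 x (u x, (fun a => lieX (Jst a) u x),
          fun a b => lieX (Jst a) (lieX (Jst b) u) x)

/-- EX8 (module RESC, from `JointSmoothStatement`, `RdtStructureStatement`, `ChrStatement`):
joint smoothness and rescaling of time. -/
def RescStatement : Prop :=
  ∀ (ι : Type) [Fintype ι] [DecidableEq ι] (T : ℝ) (w : ℝ → E ι → Bil (E ι)), 0 < T →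
    (∀ t ∈ Icc (0:ℝ) 1, IsCyl (w t)) →
    (∀ k : ℕ, ContinuousOn (fun q : ℝ × E ι => iteratedFDeriv ℝ k (w q.1) q.2)
      (Icc 0 1 ×ˢ Om ι)) →
    (∀ t ∈ Icc (0:ℝ) 1, ∀ x ∈ Om ι, ∀ v v', HasDerivWithinAt (fun s => w s x v v')
      (T * rdt (w t) x v v') (Icc 0 1) t) →
    IsRDT T (fun t => w (t / T))

end Pool.Agent.RF
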