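import Mathlib

/-!
# Coordinate Riemannian geometry (helper36, MP_a23110_gt)

Metrics are fields of bilinear forms `G : V → Bil V` on open subsets of a finite dimensional
space `V`.  `chris`, `riem`, `ric` are the usual coordinate expressions of the Levi-Civita
connection, the curvature tensor `R(u,v)w = ∇_u ∇_v w - ∇_v ∇_u w` and the Ricci tensor.
-/

noncomputable section

open scoped ContDiff Topology RealInnerProductSpace
set_option maxSynthPendingDepth 3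
open Set

namespace Pool.Agent.RF

/-- bilinear forms on `V` -/
abbrev Bil (V : Type*) [NormedAddCommGroup V] [NormedSpace ℝ V] := V →L[ℝ] V →L[ℝ] ℝ

section General

variable {V : Type*} [NormedAddCommGroup V] [NormedSpace ℝ V]

/-- The Koszul expression `z ↦ ½ (D_v G(w,z) + D_w G(v,z) - D_z G(v,w))`. -/
def kos (D : V →L[ℝ] Bil V) (v w : V) : V →L[ℝ] ℝ :=
  (1/2 : ℝ) • (D v w + D w v - ((ContinuousLinearMap.apply ℝ ℝ w).comp
    ((ContinuousLinearMap.apply ℝ (V →L[ℝ] ℝ) v).comp D)))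

/-- Christoffel symbols: `G(Γ(v,w), z) = ½ (D_v G(w,z) + D_w G(v,z) - D_z G(v,w))`. -/
def chris (G : V → Bil V) (x v w : V) : V := (G x).inverse (kos (fderiv ℝ G x) v w)

/-- Curvature tensor `R(u,v)w`. -/
def riem (G : V → Bil V) (x u v w : V) : V :=
  fderiv ℝ (fun y => chris G y v w) x u - fderiv ℝ (fun y => chris G y u w) x v
    + chris G x u (chris G x v w) - chris G x v (chris G x u w)

/-- `G` is a smooth Riemannian metric on the open set `U`. -/
structure IsMetricOn (G : V → Bil V) (U : Set V) : Prop where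
  isOpen : IsOpen U
  smooth : ContDiffOn ℝ ∞ G U
  symm : ∀ x ∈ U, ∀ v w, G x v w = G x w v
  pos : ∀ x ∈ U, ∀ v, v ≠ 0 → 0 < G x v v

end General

section Euclid

variable {ι κ : Type} [Fintype ι] [DecidableEq ι] [Fintype κ] [DecidableEq κ]

/-- Euclidean space with coordinates indexed by `ι`. -/
abbrev E (ι : Type) [Fintype ι] := EuclideanSpace ℝ ι

/-- the Euclidean inner product as a bilinear form -/
def del (ι : Type) [Fintype ι] : Bil (E ι) := innerSL ℝ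

@[simp] theorem del_apply (v w : E ι) : del ι v w = ⟪v, w⟫ := rfl

/-- standard basis vector -/
def eb (i : ι) : E ι := EuclideanSpace.single i (1 : ℝ)

/-- Ricci tensor `Ric(v,w) = trace (u ↦ R(u,v)w)`. -/
def ric (G : E ι → Bil (E ι)) (x v w : E ι) : ℝ := ∑ i, (riem G x (eb i) v w) i

/-- The curvature operator of the second kind, `∑ R(e_i,e_k,e_j,e_l) φ_kl φ_ij`, in the frame `e`
(with `R(a,b,c,d) = G(R(a,b)c,d)`, so that `R(a,b,b,a)` is the sectional curvature). -/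
def skf (G : E ι → Bil (E ι)) (x : E ι) (e : κ → E ι) (φ : Matrix κ κ ℝ) : ℝ :=
  ∑ i, ∑ j, ∑ k, ∑ l, G x (riem G x (e i) (e k) (e j)) (e l) * φ k l * φ i j

/-- orthonormal frame -/
def IsOrtho (g : Bil (E ι)) (e : κ → E ι) : Prop := ∀ i j, g (e i) (e j) = if i = j then 1 else 0

/-- positive curvature operator of the second kind at `x` -/
def PosSK (G : E ι → Bil (E ι)) (x : E ι) : Prop :=
  ∀ e : ι → E ι, IsOrtho (G x) e → ∀ φ : Matrix ι ι ℝ, φ.IsSymm → φ.trace = 0 → φ ≠ 0 →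
    0 < skf G x e φ

/-- nonnegative curvature operator of the second kind at `x` -/
def NonnegSK (G : E ι → Bil (E ι)) (x : E ι) : Prop :=
  ∀ e : ι → E ι, IsOrtho (G x) e → ∀ φ : Matrix ι ι ℝ, φ.IsSymm → φ.trace = 0 →
    0 ≤ skf G x e φ

/-- The same on the orthogonal complement of the position vector (`κ` indexes frames of it). -/
def PosTan (κ : Type) [Fintype κ] [DecidableEq κ] (G : E ι → Bil (E ι)) (x : E ι) : Prop :=
  ∀ e : κ → E ι, (∀ i, ⟪x, e i⟫ = 0) → IsOrtho (G x) e →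
    ∀ φ : Matrix κ κ ℝ, φ.IsSymm → φ.trace = 0 → φ ≠ 0 → 0 < skf G x e φ

def NonnegTan (κ : Type) [Fintype κ] [DecidableEq κ] (G : E ι → Bil (E ι)) (x : E ι) : Prop :=
  ∀ e : κ → E ι, (∀ i, ⟪x, e i⟫ = 0) → IsOrtho (G x) e →
    ∀ φ : Matrix κ κ ℝ, φ.IsSymm → φ.trace = 0 → 0 ≤ skf G x e φ

/-- The punctured space. -/
def Om (ι : Type) [Fintype ι] : Set (E ι) := {x | x ≠ 0}

/-- Cylinder metrics: Riemannian metrics `dρ² + g` on `E ι \ {0} ≅ ℝ × S`, `ρ = log |x|`,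
with `g` a Riemannian metric on the unit sphere `S`. -/
structure IsCyl (G : E ι → Bil (E ι)) : Prop where
  metric : IsMetricOn G (Om ι)
  homog : ∀ c : ℝ, 0 < c → ∀ x ∈ Om ι, G (c • x) = (c ^ 2)⁻¹ • G x
  radial : ∀ x ∈ Om ι, ∀ w, G x x w = ⟪x, w⟫ / ‖x‖ ^ 2

/-- Christoffel symbols of the round cylinder `|x|⁻² ⟨·,·⟩`. -/
def bgchris (x v w : E ι) : E ι := -(‖x‖ ^ 2)⁻¹ • (⟪x, v⟫ • w + ⟪x, w⟫ • v - ⟪v, w⟫ • x)

/-- entries of the inverse metric -/
def ginv (g : Bil (E ι)) (k l : ι) : ℝ := (g.inverse (EuclideanSpace.proj k)) l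

/-- DeTurck vector field with respect to the round cylinder. -/
def dtW (G : E ι → Bil (E ι)) (x : E ι) : E ι :=
  ∑ k, ∑ l, ginv (G x) k l • (chris G x (eb k) (eb l) - bgchris x (eb k) (eb l))

/-- Ricci-DeTurck operator `-2 Ric + L_W G`. -/
def rdt (G : E ι → Bil (E ι)) (x v w : E ι) : ℝ :=
  -2 * ric G x v w + fderiv ℝ G x (dtW G x) v w + G x (fderiv ℝ (dtW G) x v) w
    + G x v (fderiv ℝ (dtW G) x w)

/-- Ricci flow of cylinder metrics on `[0,T]`. -/
structure IsRF (T : ℝ) (G : ℝ → E ι → Bil (E ι)) : Prop where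
  cyl : ∀ t ∈ Icc 0 T, IsCyl (G t)
  smooth : ContDiffOn ℝ ∞ (fun p : ℝ × E ι => G p.1 p.2) (Icc 0 T ×ˢ Om ι)
  flow : ∀ t ∈ Icc 0 T, ∀ x ∈ Om ι, ∀ v w,
    HasDerivWithinAt (fun s => G s x v w) (-2 * ric (G t) x v w) (Icc 0 T) t

/-- Ricci-DeTurck flow of cylinder metrics on `[0,T]`. -/
structure IsRDT (T : ℝ) (G : ℝ → E ι → Bil (E ι)) : Prop where
  cyl : ∀ t ∈ Icc 0 T, IsCyl (G t)
  smooth : ContDiffOn ℝ ∞ (fun p : ℝ × E ι => G p.1 p.2) (Icc 0 T ×ˢ Om ι)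
  flow : ∀ t ∈ Icc 0 T, ∀ x ∈ Om ι, ∀ v w,
    HasDerivWithinAt (fun s => G s x v w) (rdt (G t) x v w) (Icc 0 T) t

/-- the condition `(★)`: `ψ` is affine (totally geodesic) for the two connections -/
def StarOn (G : E κ → Bil (E κ)) (H : E ι → Bil (E ι)) (ψ : E κ → E ι) (U : Set (E κ)) : Prop :=
  ∀ y ∈ U, ∀ v w, fderiv ℝ (fun z => fderiv ℝ ψ z w) y v
    + chris H (ψ y) (fderiv ℝ ψ y v) (fderiv ℝ ψ y w) = fderiv ℝ ψ y (chris G y v w)

/-- pullback of a field of bilinear forms -/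
def pullb (H : E ι → Bil (E ι)) (ψ : E κ → E ι) (y : E κ) : Bil (E κ) :=
  ((H (ψ y)).bilinearComp (fderiv ℝ ψ y) (fderiv ℝ ψ y))

@[simp] theorem pullb_apply (H : E ι → Bil (E ι)) (ψ : E κ → E ι) (y v w : E κ) :
    pullb H ψ y v w = H (ψ y) (fderiv ℝ ψ y v) (fderiv ℝ ψ y w) := rfl

end Euclid

theorem kos_apply {V : Type*} [NormedAddCommGroup V] [NormedSpace ℝ V] (D : V →L[ℝ] Bil V)
    (v w z : V) : kos D v w z = (1/2 : ℝ) * (D v w z + D w v z - D z v w) := rfl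

end Pool.Agent.RF
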