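import Mathlib

/-!
# Continuous functions with a weighted difference seminorm (helper36, MP_a23110_gt)
-/

noncomputable section

open scoped ContDiff Topology
set_option maxSynthPendingDepth 3
set_option linter.unusedSectionVars false
open Set

namespace Pool.Agent.RF

/-- A system of pairs of points with positive weights. -/
structure PairSys (K I : Type) where
  k : I → K
  k' : I → K
  w : I → ℝ
  w_pos : ∀ i, 0 < w i

section

variable {K I : Type} [TopologicalSpace K] [CompactSpace K] (P : PairSys K I)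
variable (Y : Type) [NormedAddCommGroup Y] [NormedSpace ℝ Y]

/-- Continuous functions `f : K → Y` such that `‖f(k i) - f(k' i)‖ ≤ C w i`, realised as a closed
subspace of `C(K,Y) × ℓ^∞(I,Y)` (pairs `(f, q)` with `w i • q i = f (k i) - f (k' i)`), with the
norm `max ‖f‖ ‖q‖`. -/
def lipSub : Submodule ℝ (C(K, Y) × lp (fun _ : I => Y) ⊤) where
  carrier := {p | ∀ i, P.w i • p.2 i = p.1 (P.k i) - p.1 (P.k' i)}
  add_mem' := by
    intro a b ha hb i
    have h1 := ha i
    have h2 := hb i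
    simp only [Prod.fst_add, Prod.snd_add, lp.coeFn_add, Pi.add_apply, smul_add,
      ContinuousMap.add_apply, h1, h2]
    abel
  zero_mem' := by intro i; simp
  smul_mem' := by
    intro c x hx i
    have h1 := hx i
    simp only [Prod.smul_fst, Prod.smul_snd, lp.coeFn_smul, Pi.smul_apply,
      ContinuousMap.smul_apply, ← smul_sub, ← h1]
    rw [smul_comm]

/-- The Banach space of continuous functions with finite weighted difference seminorm. -/
def LipSp : Type := lipSub P Y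

instance LipSp.instNACG : NormedAddCommGroup (LipSp P Y) :=
  inferInstanceAs (NormedAddCommGroup (lipSub P Y))

instance LipSp.instNS : NormedSpace ℝ (LipSp P Y) :=
  inferInstanceAs (NormedSpace ℝ (lipSub P Y))

end

namespace LipSp

variable {K I : Type} [TopologicalSpace K] [CompactSpace K] {P : PairSys K I}
variable {Y : Type} [NormedAddCommGroup Y] [NormedSpace ℝ Y]

instance : CoeFun (LipSp P Y) (fun _ => K → Y) := ⟨fun p => p.1.1⟩

theorem rel (p : LipSp P Y) (i : I) : P.w i • p.1.2 i = p (P.k i) - p (P.k' i) := p.2 i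

@[simp] theorem add_apply (p q : LipSp P Y) (x : K) : (p + q) x = p x + q x := rfl
@[simp] theorem sub_apply (p q : LipSp P Y) (x : K) : (p - q) x = p x - q x := rfl
@[simp] theorem smul_apply (c : ℝ) (p : LipSp P Y) (x : K) : (c • p) x = c • p x := rfl
@[simp] theorem zero_apply (x : K) : (0 : LipSp P Y) x = 0 := rfl

theorem continuous (p : LipSp P Y) : Continuous p := p.1.1.continuous

theorem ext' {p q : LipSp P Y} (h : ∀ x, p x = q x) : p = q := by
  apply Subtype.ext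
  have h1 : p.1.1 = q.1.1 := ContinuousMap.ext h
  apply Prod.ext h1
  apply lp.ext
  funext i
  have h2 := p.rel i
  have h3 := q.rel i
  have : P.w i • p.1.2 i = P.w i • q.1.2 i := by rw [h2, h3, h, h]
  exact smul_right_injective _ (P.w_pos i).ne' this

theorem norm_fst_le (p : LipSp P Y) : ‖p.1.1‖ ≤ ‖p‖ := _root_.norm_fst_le p.1

theorem norm_apply_le (p : LipSp P Y) (x : K) : ‖p x‖ ≤ ‖p‖ :=
  (p.1.1.norm_coe_le_norm x).trans p.norm_fst_le

theorem norm_diff_le (p : LipSp P Y) (i : I) : ‖p (P.k i) - p (P.k' i)‖ ≤ ‖p‖ * P.w i := by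
  rw [← p.rel i, norm_smul, Real.norm_of_nonneg (P.w_pos i).le, mul_comm]
  have h := (lp.norm_apply_le_norm ENNReal.top_ne_zero p.1.2 i).trans (_root_.norm_snd_le p.1)
  exact mul_le_mul_of_nonneg_right h (P.w_pos i).le

theorem norm_le {p : LipSp P Y} {M : ℝ} (hM : 0 ≤ M) (h1 : ∀ x, ‖p x‖ ≤ M)
    (h2 : ∀ i, ‖p (P.k i) - p (P.k' i)‖ ≤ M * P.w i) : ‖p‖ ≤ M := by
  have e1 : ‖p.1.1‖ ≤ M := (ContinuousMap.norm_le _ hM).2 h1
  have e2 : ‖p.1.2‖ ≤ M := by
    apply lp.norm_le_of_forall_le hM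
    intro i
    have h := h2 i
    rw [← p.rel i, norm_smul, Real.norm_of_nonneg (P.w_pos i).le, mul_comm M] at h
    exact le_of_mul_le_mul_left h (P.w_pos i)
  exact max_le e1 e2

/-- constructor from a continuous function with a bound on differences -/
def mk' (f : C(K, Y)) (C : ℝ) (h : ∀ i, ‖f (P.k i) - f (P.k' i)‖ ≤ C * P.w i) : LipSp P Y :=
  ⟨(f, ⟨fun i => (P.w i)⁻¹ • (f (P.k i) - f (P.k' i)), by
    apply memℓp_infty
    refine ⟨C, ?_⟩
    rintro _ ⟨i, rfl⟩
    have hw := P.w_pos i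
    simp only [norm_smul, norm_inv, Real.norm_of_nonneg hw.le]
    rw [inv_mul_le_iff₀ hw, mul_comm]
    exact h i⟩), by
    intro i
    show P.w i • ((P.w i)⁻¹ • (f (P.k i) - f (P.k' i))) = _
    rw [smul_smul, mul_inv_cancel₀ (P.w_pos i).ne', one_smul]⟩

@[simp] theorem mk'_apply (f : C(K, Y)) (C : ℝ) (h) (x : K) :
    (mk' f C h : LipSp P Y) x = f x := rfl

theorem isClosed : IsClosed (lipSub P Y : Set (C(K, Y) × lp (fun _ : I => Y) ⊤)) := by
  have : (lipSub P Y : Set (C(K, Y) × lp (fun _ : I => Y) ⊤)) =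
      ⋂ i, {p | P.w i • p.2 i = p.1 (P.k i) - p.1 (P.k' i)} := by
    ext p; simp [lipSub, Set.mem_iInter]
  rw [this]
  apply isClosed_iInter
  intro i
  apply isClosed_eq
  · apply Continuous.const_smul
    have h : LipschitzWith 1 (fun q : lp (fun _ : I => Y) ⊤ => (q : I → Y) i) := by
      apply LipschitzWith.of_dist_le_mul
      intro a b
      rw [dist_eq_norm, dist_eq_norm, NNReal.coe_one, one_mul]
      exact lp.norm_apply_le_norm ENNReal.top_ne_zero (a - b) i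
    exact h.continuous.comp continuous_snd
  · have h1 : Continuous fun p : C(K, Y) × lp (fun _ : I => Y) ⊤ => p.1 (P.k i) :=
      (continuous_eval_const _).comp continuous_fst
    have h2 : Continuous fun p : C(K, Y) × lp (fun _ : I => Y) ⊤ => p.1 (P.k' i) :=
      (continuous_eval_const _).comp continuous_fst
    exact h1.sub h2

instance instCS [CompleteSpace Y] : CompleteSpace (LipSp P Y) :=
  (isClosed.completeSpace_coe : CompleteSpace (lipSub P Y))

/-- evaluation at a point -/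
def evalL (x : K) : LipSp P Y →L[ℝ] Y :=
  LinearMap.mkContinuous
    { toFun := fun p => p x, map_add' := fun _ _ => rfl, map_smul' := fun _ _ => rfl } 1
    (by intro p; simpa using p.norm_apply_le x)

@[simp] theorem evalL_apply (x : K) (p : LipSp P Y) : evalL x p = p x := rfl

/-- constant functions -/
def constL : Y →L[ℝ] LipSp P Y :=
  LinearMap.mkContinuous
    { toFun := fun y => mk' (ContinuousMap.const K y) 0 (by intro i; simp)
      map_add' := fun _ _ => ext' fun _ => rfl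
      map_smul' := fun _ _ => ext' fun _ => rfl } 1
    (by
      intro y
      rw [one_mul]
      refine norm_le (norm_nonneg y) (fun x => le_rfl) (fun i => ?_)
      simp only [LinearMap.coe_mk, AddHom.coe_mk, mk'_apply, ContinuousMap.const_apply, sub_self,
        norm_zero]
      exact mul_nonneg (norm_nonneg _) (P.w_pos i).le)

@[simp] theorem constL_apply (y : Y) (x : K) : (constL y : LipSp P Y) x = y := rfl

variable {Y₁ Y₂ Y₃ : Type} [NormedAddCommGroup Y₁] [NormedSpace ℝ Y₁] [NormedAddCommGroup Y₂]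
  [NormedSpace ℝ Y₂] [NormedAddCommGroup Y₃] [NormedSpace ℝ Y₃]

/-- pointwise application of a bilinear map, with the refined (tame) product estimate -/
def bil (B : Y₁ →L[ℝ] Y₂ →L[ℝ] Y₃) (p : LipSp P Y₁) (q : LipSp P Y₂) : LipSp P Y₃ :=
  mk' ⟨fun x => B (p x) (q x), by
      exact (B.continuous.comp p.continuous).clm_apply q.continuous⟩
    (‖B‖ * (‖p.1.1‖ * ‖q‖ + ‖p‖ * ‖q.1.1‖)) (by
      intro i
      show ‖B (p (P.k i)) (q (P.k i)) - B (p (P.k' i)) (q (P.k' i))‖ ≤ _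
      have e : B (p (P.k i)) (q (P.k i)) - B (p (P.k' i)) (q (P.k' i)) =
          B (p (P.k i)) (q (P.k i) - q (P.k' i)) + B (p (P.k i) - p (P.k' i)) (q (P.k' i)) := by
        simp only [map_sub, _root_.sub_apply]; abel
      rw [e]
      have h1 : ‖B (p (P.k i)) (q (P.k i) - q (P.k' i))‖ ≤ ‖B‖ * ‖p.1.1‖ * (‖q‖ * P.w i) :=
        (B.le_opNorm₂ _ _).trans (mul_le_mul (mul_le_mul_of_nonneg_left
          (p.1.1.norm_coe_le_norm _) (norm_nonneg _)) (q.norm_diff_le i) (norm_nonneg _)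
          (by positivity))
      have h2 : ‖B (p (P.k i) - p (P.k' i)) (q (P.k' i))‖ ≤ ‖B‖ * (‖p‖ * P.w i) * ‖q.1.1‖ :=
        (B.le_opNorm₂ _ _).trans (mul_le_mul (mul_le_mul_of_nonneg_left
          (p.norm_diff_le i) (norm_nonneg _)) (q.1.1.norm_coe_le_norm _) (norm_nonneg _)
          (mul_nonneg (norm_nonneg _) (mul_nonneg (norm_nonneg _) (P.w_pos i).le)))
      calc _ ≤ _ := norm_add_le _ _
        _ ≤ ‖B‖ * ‖p.1.1‖ * (‖q‖ * P.w i) + ‖B‖ * (‖p‖ * P.w i) * ‖q.1.1‖ := add_le_add h1 h2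
        _ = _ := by ring)

@[simp] theorem bil_apply (B : Y₁ →L[ℝ] Y₂ →L[ℝ] Y₃) (p : LipSp P Y₁) (q : LipSp P Y₂) (x : K) :
    bil B p q x = B (p x) (q x) := rfl

theorem norm_bil_le (B : Y₁ →L[ℝ] Y₂ →L[ℝ] Y₃) (p : LipSp P Y₁) (q : LipSp P Y₂) :
    ‖bil B p q‖ ≤ ‖B‖ * (‖p.1.1‖ * ‖q‖ + ‖p‖ * ‖q.1.1‖) := by
  have hp : 0 ≤ ‖B‖ * (‖p.1.1‖ * ‖q‖ + ‖p‖ * ‖q.1.1‖) := by positivity
  refine norm_le hp (fun x => ?_) (fun i => ?_)
  · rw [bil_apply]
    have h1 : ‖B (p x) (q x)‖ ≤ ‖B‖ * ‖p.1.1‖ * ‖q‖ :=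
      (B.le_opNorm₂ _ _).trans (mul_le_mul (mul_le_mul_of_nonneg_left
        (p.1.1.norm_coe_le_norm _) (norm_nonneg _)) (q.norm_apply_le x) (norm_nonneg _)
        (by positivity))
    have h2 : 0 ≤ ‖B‖ * (‖p‖ * ‖q.1.1‖) := by positivity
    calc _ ≤ _ := h1
      _ ≤ ‖B‖ * (‖p.1.1‖ * ‖q‖) + ‖B‖ * (‖p‖ * ‖q.1.1‖) := by linarith
      _ = _ := by ring
  · have h := (bil B p q).rel i
    rw [← h, norm_smul, Real.norm_of_nonneg (P.w_pos i).le, mul_comm]
    refine mul_le_mul_of_nonneg_right ?_ (P.w_pos i).le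
    -- the second component was built with this bound
    have hw := P.w_pos i
    have e : (bil B p q).1.2 i = (P.w i)⁻¹ • (B (p (P.k i)) (q (P.k i)) -
        B (p (P.k' i)) (q (P.k' i))) := rfl
    rw [e, norm_smul, norm_inv, Real.norm_of_nonneg hw.le, inv_mul_le_iff₀ hw, mul_comm]
    have e2 : B (p (P.k i)) (q (P.k i)) - B (p (P.k' i)) (q (P.k' i)) =
        B (p (P.k i)) (q (P.k i) - q (P.k' i)) + B (p (P.k i) - p (P.k' i)) (q (P.k' i)) := by
      simp only [map_sub, _root_.sub_apply]; abel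
    rw [e2]
    have h1 : ‖B (p (P.k i)) (q (P.k i) - q (P.k' i))‖ ≤ ‖B‖ * ‖p.1.1‖ * (‖q‖ * P.w i) :=
      (B.le_opNorm₂ _ _).trans (mul_le_mul (mul_le_mul_of_nonneg_left
        (p.1.1.norm_coe_le_norm _) (norm_nonneg _)) (q.norm_diff_le i) (norm_nonneg _)
        (by positivity))
    have h2 : ‖B (p (P.k i) - p (P.k' i)) (q (P.k' i))‖ ≤ ‖B‖ * (‖p‖ * P.w i) * ‖q.1.1‖ :=
      (B.le_opNorm₂ _ _).trans (mul_le_mul (mul_le_mul_of_nonneg_left
        (p.norm_diff_le i) (norm_nonneg _)) (q.1.1.norm_coe_le_norm _) (norm_nonneg _)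
        (mul_nonneg (norm_nonneg _) (mul_nonneg (norm_nonneg _) (P.w_pos i).le)))
    calc _ ≤ _ := norm_add_le _ _
      _ ≤ ‖B‖ * ‖p.1.1‖ * (‖q‖ * P.w i) + ‖B‖ * (‖p‖ * P.w i) * ‖q.1.1‖ := add_le_add h1 h2
      _ = _ := by ring

/-- `bil` as a continuous bilinear map -/
def bilL (B : Y₁ →L[ℝ] Y₂ →L[ℝ] Y₃) : LipSp P Y₁ →L[ℝ] LipSp P Y₂ →L[ℝ] LipSp P Y₃ :=
  LinearMap.mkContinuous₂
    (LinearMap.mk₂ ℝ (bil B) (fun _ _ _ => ext' fun _ => by simp)
      (fun _ _ _ => ext' fun _ => by simp) (fun _ _ _ => ext' fun _ => by simp)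
      (fun _ _ _ => ext' fun _ => by simp)) (2 * ‖B‖) (by
      intro p q
      refine (norm_bil_le B p q).trans ?_
      have h1 := p.norm_fst_le
      have h2 := q.norm_fst_le
      have h3 : ‖p.1.1‖ * ‖q‖ ≤ ‖p‖ * ‖q‖ := mul_le_mul_of_nonneg_right h1 (norm_nonneg _)
      have h4 : ‖p‖ * ‖q.1.1‖ ≤ ‖p‖ * ‖q‖ := mul_le_mul_of_nonneg_left h2 (norm_nonneg _)
      calc _ ≤ ‖B‖ * (‖p‖ * ‖q‖ + ‖p‖ * ‖q‖) :=
            mul_le_mul_of_nonneg_left (add_le_add h3 h4) (norm_nonneg _)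
        _ = 2 * ‖B‖ * ‖p‖ * ‖q‖ := by ring)

@[simp] theorem bilL_apply (B : Y₁ →L[ℝ] Y₂ →L[ℝ] Y₃) (p : LipSp P Y₁) (q : LipSp P Y₂) :
    bilL B p q = bil B p q := rfl

/-- pointwise application of a continuous linear map -/
def mapL (L : Y₁ →L[ℝ] Y₂) : LipSp P Y₁ →L[ℝ] LipSp P Y₂ :=
  LinearMap.mkContinuous
    { toFun := fun p => mk' ⟨fun x => L (p x), L.continuous.comp p.continuous⟩ (‖L‖ * ‖p‖) (by
        intro i
        show ‖L (p (P.k i)) - L (p (P.k' i))‖ ≤ _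
        rw [← map_sub, mul_assoc]
        exact (L.le_opNorm _).trans (mul_le_mul_of_nonneg_left (p.norm_diff_le i) (norm_nonneg _)))
      map_add' := fun _ _ => ext' fun _ => by simp
      map_smul' := fun _ _ => ext' fun _ => by simp } ‖L‖
    (by
      intro p
      refine norm_le (by positivity) (fun x => ?_) (fun i => ?_)
      · exact (L.le_opNorm _).trans (mul_le_mul_of_nonneg_left (p.norm_apply_le x) (norm_nonneg _))
      · show ‖L (p (P.k i)) - L (p (P.k' i))‖ ≤ _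
        rw [← map_sub, mul_assoc]
        exact (L.le_opNorm _).trans (mul_le_mul_of_nonneg_left (p.norm_diff_le i) (norm_nonneg _)))

@[simp] theorem mapL_apply (L : Y₁ →L[ℝ] Y₂) (p : LipSp P Y₁) (x : K) : mapL L p x = L (p x) := rfl

end LipSp

/-- N2: Nemytskii operators of smooth functions are smooth and Lipschitz on bounded sets. -/
def NemStatement : Prop :=
  ∀ (K I : Type) [TopologicalSpace K] [CompactSpace K] (P : PairSys K I)
    (Y₁ Y₂ : Type) [NormedAddCommGroup Y₁] [NormedSpace ℝ Y₁] [FiniteDimensional ℝ Y₁]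
    [NormedAddCommGroup Y₂] [NormedSpace ℝ Y₂] (F : Y₁ → Y₂), ContDiff ℝ ∞ F →
    ∃ N : LipSp P Y₁ → LipSp P Y₂, (∀ p x, N p x = F (p x)) ∧ ContDiff ℝ ∞ N ∧
      ∀ M : ℝ, ∃ C : ℝ, ∀ p q : LipSp P Y₁, ‖p‖ ≤ M → ‖q‖ ≤ M → ‖N p - N q‖ ≤ C * ‖p - q‖

end Pool.Agent.RF
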