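import Pool.Agent.Helper36_RF.Pull
import Pool.Agent.Helper36_RF.ExistSt

/-!
# The nonlinear operator in the fixed point equation (helper36, MP_a23110_gt)
-/

noncomputable section

open scoped ContDiff Topology RealInnerProductSpace
set_option maxSynthPendingDepth 3
set_option linter.unusedSectionVars false
open Set

namespace Pool.Agent.RF

/-- families of bilinear forms indexed by the directions -/
abbrev A1 (ι : Type) [Fintype ι] : Type := ι × ι → Bil (E ι)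
abbrev A2 (ι : Type) [Fintype ι] : Type := ι × ι → ι × ι → Bil (E ι)

/-- 2-jets (with respect to rotations) of time dependent sections -/
abbrev DD (ι : Type) [Fintype ι] [DecidableEq ι] : Type :=
  FT ι (Bil (E ι)) × FT ι (A1 ι) × FT ι (A2 ι)

variable {ι : Type} [Fintype ι] [DecidableEq ι]

/-- pairing with the coordinate function -/
def pairX {Y : Type} [NormedAddCommGroup Y] [NormedSpace ℝ Y] (W : FT ι Y) :
    FT ι (E ι × Y) :=
  LipSp.mapL (ContinuousLinearMap.inl ℝ (E ι) Y) (xi ι) +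
    LipSp.mapL (ContinuousLinearMap.inr ℝ (E ι) Y) W

@[simp] theorem pairX_apply {Y : Type} [NormedAddCommGroup Y] [NormedSpace ℝ Y] (W : FT ι Y)
    (q : Icc (0:ℝ) 1 × Sph ι) : pairX W q = ((q.2 : E ι), W q) := by
  simp [pairX]

theorem pairX_sub {Y : Type} [NormedAddCommGroup Y] [NormedSpace ℝ Y] (W W' : FT ι Y) :
    pairX W - pairX W' = LipSp.mapL (ContinuousLinearMap.inr ℝ (E ι) Y) (W - W') := by
  simp [pairX, map_sub]

theorem norm_mapL_le {Y₁ Y₂ : Type} [NormedAddCommGroup Y₁] [NormedSpace ℝ Y₁]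
    [NormedAddCommGroup Y₂] [NormedSpace ℝ Y₂] (L : Y₁ →L[ℝ] Y₂) (p : FT ι Y₁) :
    ‖LipSp.mapL L p‖ ≤ ‖L‖ * ‖p‖ := by
  refine LipSp.norm_le (by positivity) (fun x => ?_) (fun i => ?_)
  · exact (L.le_opNorm _).trans (mul_le_mul_of_nonneg_left (p.norm_apply_le x) (norm_nonneg _))
  · rw [LipSp.mapL_apply, LipSp.mapL_apply, ← map_sub, mul_assoc]
    exact (L.le_opNorm _).trans (mul_le_mul_of_nonneg_left (p.norm_diff_le i) (norm_nonneg _))

theorem norm_inr_le {Y : Type} [NormedAddCommGroup Y] [NormedSpace ℝ Y] :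
    ‖ContinuousLinearMap.inr ℝ (E ι) Y‖ ≤ 1 := by
  apply ContinuousLinearMap.opNorm_le_bound _ zero_le_one
  intro y
  simp [Prod.norm_def]

theorem norm_pairX_le {Y : Type} [NormedAddCommGroup Y] [NormedSpace ℝ Y] (W : FT ι Y) :
    ‖pairX W‖ ≤ ‖LipSp.mapL (ContinuousLinearMap.inl ℝ (E ι) Y) (xi ι)‖ + ‖W‖ := by
  refine (norm_add_le _ _).trans (add_le_add le_rfl ?_)
  refine (norm_mapL_le _ _).trans ?_
  exact mul_le_of_le_one_left (norm_nonneg _) norm_inr_le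

theorem norm_pairX_sub_le {Y : Type} [NormedAddCommGroup Y] [NormedSpace ℝ Y] (W W' : FT ι Y) :
    ‖pairX W - pairX W'‖ ≤ ‖W - W'‖ := by
  rw [pairX_sub]
  exact (norm_mapL_le _ _).trans (mul_le_of_le_one_left (norm_nonneg _) norm_inr_le)

theorem contDiff_pairX {Y : Type} [NormedAddCommGroup Y] [NormedSpace ℝ Y] :
    ContDiff ℝ ∞ (pairX : FT ι Y → FT ι (E ι × Y)) := by
  unfold pairX
  exact contDiff_const.add (LipSp.mapL (P := PS ι) (ContinuousLinearMap.inr ℝ (E ι) Y)).contDiff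

/-- pairing of two functions -/
def pair2 {Y Z : Type} [NormedAddCommGroup Y] [NormedSpace ℝ Y] [NormedAddCommGroup Z]
    [NormedSpace ℝ Z] (W : FT ι Y × FT ι Z) : FT ι (Y × Z) :=
  LipSp.mapL (ContinuousLinearMap.inl ℝ Y Z) W.1 + LipSp.mapL (ContinuousLinearMap.inr ℝ Y Z) W.2

@[simp] theorem pair2_apply {Y Z : Type} [NormedAddCommGroup Y] [NormedSpace ℝ Y]
    [NormedAddCommGroup Z] [NormedSpace ℝ Z] (W : FT ι Y × FT ι Z)
    (q : Icc (0:ℝ) 1 × Sph ι) : pair2 W q = (W.1 q, W.2 q) := by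
  simp [pair2]

theorem contDiff_pair2 {Y Z : Type} [NormedAddCommGroup Y] [NormedSpace ℝ Y]
    [NormedAddCommGroup Z] [NormedSpace ℝ Z] :
    ContDiff ℝ ∞ (pair2 : FT ι Y × FT ι Z → FT ι (Y × Z)) := by
  unfold pair2
  exact ((LipSp.mapL (P := PS ι) (ContinuousLinearMap.inl ℝ Y Z)).contDiff.comp contDiff_fst).add
    ((LipSp.mapL (P := PS ι) (ContinuousLinearMap.inr ℝ Y Z)).contDiff.comp contDiff_snd)

theorem norm_pair2_le {Y Z : Type} [NormedAddCommGroup Y] [NormedSpace ℝ Y]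
    [NormedAddCommGroup Z] [NormedSpace ℝ Z] (W : FT ι Y × FT ι Z) :
    ‖pair2 W‖ ≤ ‖W.1‖ + ‖W.2‖ := by
  refine (norm_add_le _ _).trans (add_le_add ?_ ?_)
  · refine (norm_mapL_le _ _).trans (mul_le_of_le_one_left (norm_nonneg _) ?_)
    apply ContinuousLinearMap.opNorm_le_bound _ zero_le_one
    intro y; simp [Prod.norm_def]
  · refine (norm_mapL_le _ _).trans (mul_le_of_le_one_left (norm_nonneg _) ?_)
    apply ContinuousLinearMap.opNorm_le_bound _ zero_le_one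
    intro y; simp [Prod.norm_def]

theorem pair2_sub {Y Z : Type} [NormedAddCommGroup Y] [NormedSpace ℝ Y]
    [NormedAddCommGroup Z] [NormedSpace ℝ Z] (W W' : FT ι Y × FT ι Z) :
    pair2 W - pair2 W' = pair2 (W - W') := by
  apply LipSp.ext'
  intro x
  simp

/-- the nonlinear operator `Θ(W) = Π (c(x,W₀) W₂ + Gf(x,W₀,W₁))` -/
theorem exists_theta (hnem : NemStatement)
    {c : E ι × Bil (E ι) → A2 ι →L[ℝ] Bil (E ι)}
    {Gf : E ι × Bil (E ι) × A1 ι → Bil (E ι)} {r Cq : ℝ} (hQ : IsQ ι c Gf r Cq) (hCq : 0 ≤ Cq) :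
    ∃ Θ : DD ι → FT ι (Bil (E ι)), ContDiff ℝ ∞ Θ ∧
      (∀ W q, Θ W q = PiB (q.2 : E ι) (c ((q.2 : E ι), W.1 q) (W.2.2 q)
        + Gf ((q.2 : E ι), W.1 q, W.2.1 q))) ∧
      ∃ CP : ℝ, 0 ≤ CP ∧ ∀ M : ℝ, ∃ CM : ℝ, 0 ≤ CM ∧ ∀ W W' : DD ι, ‖W‖ ≤ M → ‖W'‖ ≤ M →
        ∀ ρ, 0 ≤ ρ → ρ ≤ r → (∀ q, ‖W.1 q - del ι‖ ≤ ρ) →
        ‖Θ W - Θ W'‖ ≤ CP * (Cq * ρ * ‖W.2.2 - W'.2.2‖)
          + CM * (‖W.1 - W'.1‖ + ‖W.2.1 - W'.2.1‖ + ‖(W.2.2 - W'.2.2).1.1‖) := by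
  obtain ⟨hc, hG, hr, hcb, -⟩ := hQ
  obtain ⟨Nc, hNc1, hNc2, hNc3⟩ := hnem _ _ (PS ι) (E ι × Bil (E ι)) (A2 ι →L[ℝ] Bil (E ι)) c hc
  obtain ⟨Ng, hNg1, hNg2, hNg3⟩ := hnem _ _ (PS ι) (E ι × Bil (E ι) × A1 ι) (Bil (E ι)) Gf hG
  obtain ⟨Np, hNp1, -, -⟩ := hnem _ _ (PS ι) (E ι) (Bil (E ι) →L[ℝ] Bil (E ι)) PiB contDiff_PiB
  -- the projection as an operator
  let Pop : FT ι (Bil (E ι)) →L[ℝ] FT ι (Bil (E ι)) :=
    LipSp.bilL (P := PS ι) (ContinuousLinearMap.id ℝ (Bil (E ι) →L[ℝ] Bil (E ι))) (Np (xi ι))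
  have hPi : ∀ p q, Pop p q = PiB (q.2 : E ι) (p q) := by
    intro p q
    show (Np (xi ι) q) (p q) = _
    rw [hNp1]; rfl
  let ev : (A2 ι →L[ℝ] Bil (E ι)) →L[ℝ] A2 ι →L[ℝ] Bil (E ι) :=
    ContinuousLinearMap.id ℝ (A2 ι →L[ℝ] Bil (E ι))
  have hev : ‖ev‖ ≤ 1 := ContinuousLinearMap.norm_id_le
  let Θ : DD ι → FT ι (Bil (E ι)) := fun W =>
    Pop (LipSp.bil ev (Nc (pairX W.1)) W.2.2 + Ng (pairX (pair2 (W.1, W.2.1))))
  refine ⟨Θ, ?_, ?_, ‖Pop‖, norm_nonneg _, ?_⟩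
  · apply Pop.contDiff.comp
    apply ContDiff.add
    · have h1 : ContDiff ℝ ∞ (fun W : DD ι => LipSp.bilL (P := PS ι) ev (Nc (pairX W.1)) W.2.2) := by
        apply ContDiff.clm_apply
        · apply (LipSp.bilL (P := PS ι) ev).contDiff.comp
          exact hNc2.comp (contDiff_pairX.comp contDiff_fst)
        · exact contDiff_snd.comp contDiff_snd
      exact h1
    · apply hNg2.comp
      apply contDiff_pairX.comp
      apply contDiff_pair2.comp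
      exact contDiff_fst.prodMk (contDiff_fst.comp contDiff_snd)
  · intro W q
    rw [hPi]
    congr 1
    show (Nc (pairX W.1) q) (W.2.2 q) + Ng (pairX (pair2 (W.1, W.2.1))) q = _
    rw [hNc1, hNg1, pairX_apply, pairX_apply, pair2_apply]
  · intro M
    let X0 : ℝ := ‖LipSp.mapL (P := PS ι) (ContinuousLinearMap.inl ℝ (E ι) (Bil (E ι))) (xi ι)‖
    let X1 : ℝ := ‖LipSp.mapL (P := PS ι)
      (ContinuousLinearMap.inl ℝ (E ι) (Bil (E ι) × A1 ι)) (xi ι)‖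
    obtain ⟨C1, hC1⟩ := hNc3 (X0 + M)
    obtain ⟨C2, hC2⟩ := hNg3 (X1 + (M + M))
    -- a bound for `‖Nc (pairX W.1)‖`
    obtain ⟨B, hB⟩ : ∃ B : ℝ, ∀ W : DD ι, ‖W‖ ≤ M → ‖Nc (pairX W.1)‖ ≤ B := by
      refine ⟨|C1| * (2 * (X0 + M)) + ‖Nc 0‖, fun W hW => ?_⟩
      have hW1 : ‖W.1‖ ≤ M := (norm_fst_le W).trans hW
      have h1 : ‖pairX W.1‖ ≤ X0 + M := (norm_pairX_le _).trans (add_le_add le_rfl hW1)
      have h0 : ‖(0 : FT ι (E ι × Bil (E ι)))‖ ≤ X0 + M := by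
        rw [norm_zero]; exact (norm_nonneg _).trans h1
      have h2 := hC1 _ _ h1 h0
      have h3 : C1 * ‖pairX W.1 - 0‖ ≤ |C1| * (2 * (X0 + M)) := by
        calc C1 * ‖pairX W.1 - 0‖ ≤ |C1| * ‖pairX W.1 - 0‖ :=
              mul_le_mul_of_nonneg_right (le_abs_self _) (norm_nonneg _)
          _ ≤ |C1| * (2 * (X0 + M)) := by
              apply mul_le_mul_of_nonneg_left _ (abs_nonneg _)
              rw [sub_zero]
              have := norm_nonneg (pairX W.1)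
              linarith
      calc ‖Nc (pairX W.1)‖ = ‖(Nc (pairX W.1) - Nc 0) + Nc 0‖ := by rw [sub_add_cancel]
        _ ≤ ‖Nc (pairX W.1) - Nc 0‖ + ‖Nc 0‖ := norm_add_le _ _
        _ ≤ _ := add_le_add (h2.trans h3) le_rfl
    refine ⟨‖Pop‖ * (|B| + 2 * |C1| * |M| + 2 * |C2|), by positivity, ?_⟩
    intro W W' hW hW' ρ hρ0 hρ hcl
    have hM : 0 ≤ M := (norm_nonneg W).trans hW
    have hW1 : ‖W.1‖ ≤ M := (norm_fst_le W).trans hW
    have hW1' : ‖W'.1‖ ≤ M := (norm_fst_le W').trans hW'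
    have hW2 : ‖W.2.1‖ ≤ M := (norm_fst_le W.2).trans ((norm_snd_le W).trans hW)
    have hW2' : ‖W'.2.1‖ ≤ M := (norm_fst_le W'.2).trans ((norm_snd_le W').trans hW')
    have hW3' : ‖W'.2.2‖ ≤ M := (norm_snd_le W'.2).trans ((norm_snd_le W').trans hW')
    have hdiff : Θ W - Θ W' = Pop (LipSp.bil ev (Nc (pairX W.1)) (W.2.2 - W'.2.2)
        + LipSp.bil ev (Nc (pairX W.1) - Nc (pairX W'.1)) W'.2.2
        + (Ng (pairX (pair2 (W.1, W.2.1))) - Ng (pairX (pair2 (W'.1, W'.2.1))))) := by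
      show Pop _ - Pop _ = _
      rw [← map_sub]
      congr 1
      apply LipSp.ext'
      intro x
      simp only [LipSp.sub_apply, LipSp.add_apply, LipSp.bil_apply, map_sub, _root_.sub_apply]
      abel
    -- first term
    have e1 : ‖LipSp.bil ev (Nc (pairX W.1)) (W.2.2 - W'.2.2)‖ ≤
        Cq * ρ * ‖W.2.2 - W'.2.2‖ + |B| * ‖(W.2.2 - W'.2.2).1.1‖ := by
      refine (LipSp.norm_bil_le _ _ _).trans ?_
      have h1 : ‖(Nc (pairX W.1)).1.1‖ ≤ Cq * ρ := by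
        rw [ContinuousMap.norm_le _ (by positivity)]
        intro q
        have hx : ‖(q.2 : E ι)‖ = 1 := mem_sphere_zero_iff_norm.1 q.2.2
        have h2 := hcb (q.2 : E ι) (W.1 q) hx ((hcl q).trans hρ)
        have h3 : (Nc (pairX W.1)).1.1 q = c ((q.2 : E ι), W.1 q) := by
          have := hNc1 (pairX W.1) q
          rw [pairX_apply] at this
          exact this
        rw [h3]
        exact h2.trans (mul_le_mul_of_nonneg_left (hcl q) hCq)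
      have h2 : ‖Nc (pairX W.1)‖ ≤ |B| := (hB W hW).trans (le_abs_self B)
      have h3 : 0 ≤ ‖(Nc (pairX W.1)).1.1‖ * ‖W.2.2 - W'.2.2‖ +
          ‖Nc (pairX W.1)‖ * ‖(W.2.2 - W'.2.2).1.1‖ := by positivity
      calc _ ≤ 1 * (‖(Nc (pairX W.1)).1.1‖ * ‖W.2.2 - W'.2.2‖ +
              ‖Nc (pairX W.1)‖ * ‖(W.2.2 - W'.2.2).1.1‖) := mul_le_mul_of_nonneg_right hev h3
        _ ≤ _ := by
            rw [one_mul]
            exact add_le_add (mul_le_mul_of_nonneg_right h1 (norm_nonneg _))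
              (mul_le_mul_of_nonneg_right h2 (norm_nonneg _))
    have e2 : ‖LipSp.bil ev (Nc (pairX W.1) - Nc (pairX W'.1)) W'.2.2‖ ≤
        2 * |C1| * |M| * ‖W.1 - W'.1‖ := by
      have h1 := hC1 (pairX W.1) (pairX W'.1) ((norm_pairX_le _).trans (add_le_add le_rfl hW1))
        ((norm_pairX_le _).trans (add_le_add le_rfl hW1'))
      have h2 : ‖Nc (pairX W.1) - Nc (pairX W'.1)‖ ≤ |C1| * ‖W.1 - W'.1‖ := by
        refine h1.trans ?_
        calc C1 * _ ≤ |C1| * ‖pairX W.1 - pairX W'.1‖ :=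
              mul_le_mul_of_nonneg_right (le_abs_self _) (norm_nonneg _)
          _ ≤ _ := mul_le_mul_of_nonneg_left (norm_pairX_sub_le _ _) (abs_nonneg _)
      refine (LipSp.norm_bil_le _ _ _).trans ?_
      have h3 := (Nc (pairX W.1) - Nc (pairX W'.1)).norm_fst_le
      have h4 := (W'.2.2).norm_fst_le
      have h5 : ‖W'.2.2‖ ≤ |M| := hW3'.trans (le_abs_self M)
      have h6 : 0 ≤ ‖(Nc (pairX W.1) - Nc (pairX W'.1)).1.1‖ * ‖W'.2.2‖ +
          ‖Nc (pairX W.1) - Nc (pairX W'.1)‖ * ‖(W'.2.2).1.1‖ := by positivity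
      have h7 : ‖(Nc (pairX W.1) - Nc (pairX W'.1)).1.1‖ * ‖W'.2.2‖ ≤
          (|C1| * ‖W.1 - W'.1‖) * |M| :=
        mul_le_mul (h3.trans h2) h5 (norm_nonneg _) (by positivity)
      have h8 : ‖Nc (pairX W.1) - Nc (pairX W'.1)‖ * ‖(W'.2.2).1.1‖ ≤
          (|C1| * ‖W.1 - W'.1‖) * |M| :=
        mul_le_mul h2 (h4.trans h5) (norm_nonneg _) (by positivity)
      calc _ ≤ 1 * (‖(Nc (pairX W.1) - Nc (pairX W'.1)).1.1‖ * ‖W'.2.2‖ +
          ‖Nc (pairX W.1) - Nc (pairX W'.1)‖ * ‖(W'.2.2).1.1‖) :=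
            mul_le_mul_of_nonneg_right hev h6
        _ ≤ _ := by rw [one_mul]; nlinarith [h7, h8]
    have e3 : ‖Ng (pairX (pair2 (W.1, W.2.1))) - Ng (pairX (pair2 (W'.1, W'.2.1)))‖ ≤
        2 * |C2| * (‖W.1 - W'.1‖ + ‖W.2.1 - W'.2.1‖) := by
      have g1 : ‖pairX (pair2 (W.1, W.2.1))‖ ≤ X1 + (M + M) :=
        (norm_pairX_le _).trans (add_le_add le_rfl ((norm_pair2_le _).trans (add_le_add hW1 hW2)))
      have g2 : ‖pairX (pair2 (W'.1, W'.2.1))‖ ≤ X1 + (M + M) :=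
        (norm_pairX_le _).trans (add_le_add le_rfl ((norm_pair2_le _).trans (add_le_add hW1' hW2')))
      have h1 := hC2 _ _ g1 g2
      refine h1.trans ?_
      have h2 : ‖pairX (pair2 (W.1, W.2.1)) - pairX (pair2 (W'.1, W'.2.1))‖ ≤
          ‖W.1 - W'.1‖ + ‖W.2.1 - W'.2.1‖ := by
        refine (norm_pairX_sub_le _ _).trans ?_
        rw [pair2_sub]
        exact norm_pair2_le _
      calc C2 * _ ≤ |C2| * ‖pairX (pair2 (W.1, W.2.1)) - pairX (pair2 (W'.1, W'.2.1))‖ :=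
            mul_le_mul_of_nonneg_right (le_abs_self _) (norm_nonneg _)
        _ ≤ |C2| * (‖W.1 - W'.1‖ + ‖W.2.1 - W'.2.1‖) :=
            mul_le_mul_of_nonneg_left h2 (abs_nonneg _)
        _ ≤ _ := by
            have : 0 ≤ |C2| * (‖W.1 - W'.1‖ + ‖W.2.1 - W'.2.1‖) := by positivity
            linarith
    rw [hdiff]
    refine (Pop.le_opNorm _).trans ?_
    have htot : ‖LipSp.bil ev (Nc (pairX W.1)) (W.2.2 - W'.2.2)
        + LipSp.bil ev (Nc (pairX W.1) - Nc (pairX W'.1)) W'.2.2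
        + (Ng (pairX (pair2 (W.1, W.2.1))) - Ng (pairX (pair2 (W'.1, W'.2.1))))‖ ≤
        Cq * ρ * ‖W.2.2 - W'.2.2‖ + (|B| + 2 * |C1| * |M| + 2 * |C2|) *
          (‖W.1 - W'.1‖ + ‖W.2.1 - W'.2.1‖ + ‖(W.2.2 - W'.2.2).1.1‖) := by
      refine (norm_add_le _ _).trans ?_
      refine (add_le_add (norm_add_le _ _) le_rfl).trans ?_
      have a1 := norm_nonneg (W.1 - W'.1)
      have a2 := norm_nonneg (W.2.1 - W'.2.1)
      have a3 := norm_nonneg ((W.2.2 - W'.2.2).1.1)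
      have b1 := abs_nonneg B
      have b2 : 0 ≤ |C1| * |M| := by positivity
      have b3 := abs_nonneg C2
      nlinarith [e1, e2, e3, mul_nonneg b1 a1, mul_nonneg b1 a2, mul_nonneg b1 a3,
        mul_nonneg b2 a1, mul_nonneg b2 a2, mul_nonneg b2 a3, mul_nonneg b3 a1,
        mul_nonneg b3 a2, mul_nonneg b3 a3]
    calc _ ≤ ‖Pop‖ * (Cq * ρ * ‖W.2.2 - W'.2.2‖ + (|B| + 2 * |C1| * |M| + 2 * |C2|) *
          (‖W.1 - W'.1‖ + ‖W.2.1 - W'.2.1‖ + ‖(W.2.2 - W'.2.2).1.1‖)) :=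
          mul_le_mul_of_nonneg_left htot (norm_nonneg _)
      _ = _ := by ring

end Pool.Agent.RF
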