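import Pool.Agent.Helper36_RF.Sfam

/-!
# Pullback of bilinear forms and the projection to tangential symmetric forms
-/

noncomputable section

open scoped ContDiff Topology RealInnerProductSpace
set_option maxSynthPendingDepth 3
set_option linter.unusedSectionVars false
open Set

namespace Pool.Agent.RF

variable {ι : Type} [Fintype ι] [DecidableEq ι]

/-- `(v,w) ↦ b(Rv, Sw)`, linear in `b` -/
def pull2 (R S : E ι →L[ℝ] E ι) : Bil (E ι) →L[ℝ] Bil (E ι) :=
  ((ContinuousLinearMap.compL ℝ (E ι) (E ι) (E ι →L[ℝ] ℝ)).flip R) ∘L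
    ((ContinuousLinearMap.compL ℝ (E ι) (E ι →L[ℝ] ℝ) (E ι →L[ℝ] ℝ))
      ((ContinuousLinearMap.compL ℝ (E ι) (E ι) ℝ).flip S))

@[simp] theorem pull2_apply (R S : E ι →L[ℝ] E ι) (b : Bil (E ι)) (v w : E ι) :
    pull2 R S b v w = b (R v) (S w) := rfl

theorem pull2_eq (R S : E ι →L[ℝ] E ι) (b : Bil (E ι)) : pull2 R S b = b.bilinearComp R S := rfl

theorem contDiff_pull2 {P : Type*} [NormedAddCommGroup P] [NormedSpace ℝ P]
    {R S : P → E ι →L[ℝ] E ι} {n : WithTop ℕ∞} (hR : ContDiff ℝ n R) (hS : ContDiff ℝ n S) :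
    ContDiff ℝ n (fun p => pull2 (R p) (S p)) := by
  unfold pull2
  apply ContDiff.clm_comp
  · exact (((ContinuousLinearMap.compL ℝ (E ι) (E ι) (E ι →L[ℝ] ℝ)).flip).contDiff).comp hR
  · exact ((ContinuousLinearMap.compL ℝ (E ι) (E ι →L[ℝ] ℝ) (E ι →L[ℝ] ℝ)).contDiff).comp
      ((((ContinuousLinearMap.compL ℝ (E ι) (E ι) ℝ).flip).contDiff).comp hS)

/-- orthogonal projection to `x^⊥` (for `|x| = 1`) -/
def Px (x : E ι) : E ι →L[ℝ] E ι := ContinuousLinearMap.id ℝ (E ι) - (del ι x).smulRight x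

@[simp] theorem Px_apply (x v : E ι) : Px x v = v - ⟪x, v⟫ • x := rfl

theorem contDiff_Px : ContDiff ℝ ∞ (Px : E ι → E ι →L[ℝ] E ι) := by
  unfold Px
  apply contDiff_const.sub
  have h : ContDiff ℝ ∞ (fun x : E ι => (ContinuousLinearMap.smulRightL ℝ (E ι) (E ι))
      (del ι x) x) :=
    (((ContinuousLinearMap.smulRightL ℝ (E ι) (E ι)).contDiff).comp
      ((del ι).contDiff)).clm_apply contDiff_id
  exact h

/-- projection to tangential symmetric forms, linear in `b` -/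
def PiB (x : E ι) : Bil (E ι) →L[ℝ] Bil (E ι) :=
  (1/2 : ℝ) • (pull2 (Px x) (Px x) +
    ((ContinuousLinearMap.flipₗᵢ ℝ (E ι) (E ι) ℝ).toContinuousLinearEquiv :
      Bil (E ι) →L[ℝ] Bil (E ι)) ∘L pull2 (Px x) (Px x))

theorem PiB_apply (x : E ι) (b : Bil (E ι)) (v w : E ι) :
    PiB x b v w = (1/2 : ℝ) * (b (Px x v) (Px x w) + b (Px x w) (Px x v)) := rfl

theorem contDiff_PiB : ContDiff ℝ ∞ (PiB : E ι → Bil (E ι) →L[ℝ] Bil (E ι)) := by
  unfold PiB
  apply ContDiff.const_smul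
  exact (contDiff_pull2 contDiff_Px contDiff_Px).add
    (contDiff_const.clm_comp (contDiff_pull2 contDiff_Px contDiff_Px))

theorem Px_self {x : E ι} (hx : ‖x‖ = 1) : Px x x = 0 := by
  rw [Px_apply, real_inner_self_eq_norm_sq, hx]; simp

theorem inner_Px {x : E ι} (hx : ‖x‖ = 1) (v : E ι) : ⟪x, Px x v⟫ = 0 := by
  rw [Px_apply, inner_sub_right, inner_smul_right, real_inner_self_eq_norm_sq, hx]; ring

theorem Px_Px {x : E ι} (hx : ‖x‖ = 1) (v : E ι) : Px x (Px x v) = Px x v := by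
  rw [Px_apply, inner_Px hx]; simp

theorem PiB_PiB {x : E ι} (hx : ‖x‖ = 1) (b : Bil (E ι)) : PiB x (PiB x b) = PiB x b := by
  ext v w
  simp only [PiB_apply, Px_Px hx]
  ring

theorem PiB_radial {x : E ι} (hx : ‖x‖ = 1) (b : Bil (E ι)) (w : E ι) : PiB x b x w = 0 := by
  simp [PiB_apply, Px_self hx]

theorem PiB_symm (x : E ι) (b : Bil (E ι)) (v w : E ι) : PiB x b v w = PiB x b w v := by
  simp only [PiB_apply]; ring

/-- a symmetric form killing `x` is fixed by the projection -/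
theorem PiB_fix {x : E ι} {b : Bil (E ι)} (h1 : ∀ v w, b v w = b w v)
    (h2 : ∀ w, b x w = 0) : PiB x b = b := by
  ext v w
  have h3 : ∀ w, b w x = 0 := fun w => by rw [h1, h2]
  have h4 : ∀ v w, b (Px x v) (Px x w) = b v w := by
    intro v w
    simp [Px_apply, h2, h3]
  rw [PiB_apply, h4, h4, h1 w v]; ring

/-- the norm of a pullback under a contraction -/
theorem norm_bilinearComp_le (b : Bil (E ι)) (R : E ι →L[ℝ] E ι) (hR : ∀ v, ‖R v‖ = ‖v‖) :
    ‖b.bilinearComp R R‖ ≤ ‖b‖ := by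
  apply ContinuousLinearMap.opNorm_le_bound _ (norm_nonneg _)
  intro v
  apply ContinuousLinearMap.opNorm_le_bound _ (by positivity)
  intro w
  have := b.le_opNorm₂ (R v) (R w)
  rwa [hR, hR] at this

/-- equivariance of the projection under isometries -/
theorem PiB_comp (R : E ι →L[ℝ] E ι) (hR : ∀ v w, ⟪R v, R w⟫ = ⟪v, w⟫) (x : E ι)
    (b : Bil (E ι)) :
    PiB x (b.bilinearComp R R) = (PiB (R x) b).bilinearComp R R := by
  have h : ∀ v, R (Px x v) = Px (R x) (R v) := by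
    intro v
    simp [Px_apply, hR]
  ext v w
  show (1/2 : ℝ) * ((b.bilinearComp R R) (Px x v) (Px x w) +
    (b.bilinearComp R R) (Px x w) (Px x v)) = PiB (R x) b (R v) (R w)
  rw [PiB_apply, ← h, ← h]
  rfl

end Pool.Agent.RF
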