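import Pool.Agent.Helper36_RF.GeoSt
import Pool.Agent.Helper36_RF.Abs
import Pool.Agent.Helper36_RF.Lip

/-!
# Rotations acting on bilinear-form valued functions on the sphere (helper36, MP_a23110_gt)
-/

noncomputable section

open scoped ContDiff Topology RealInnerProductSpace
set_option maxSynthPendingDepth 3
set_option linter.unusedSectionVars false
open Set

namespace Pool.Agent.RF

variable (ι : Type) [Fintype ι] [DecidableEq ι]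

/-- the unit sphere of `E ι` -/
abbrev Sph : Type := Metric.sphere (0 : E ι) 1

/-- skew-symmetric maps of norm at most one: the admissible infinitesimal rotations -/
abbrev Gam : Type := {J : E ι →L[ℝ] E ι // (∀ v w, ⟪J v, w⟫ = -⟪v, J w⟫) ∧ ‖J‖ ≤ 1}

variable {ι}

/-- the one-parameter group of rotations generated by `J` -/
def rot (J : E ι →L[ℝ] E ι) (s : ℝ) : E ι →L[ℝ] E ι := NormedSpace.exp (s • J)

/-- `x ↦ (x_{a₂} e_{a₁} - x_{a₁} e_{a₂}) / √2` -/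
def Jst (a : ι × ι) : E ι →L[ℝ] E ι :=
  (√2)⁻¹ • ((EuclideanSpace.proj a.2 : E ι →L[ℝ] ℝ).smulRight (eb a.1)
    - (EuclideanSpace.proj a.1 : E ι →L[ℝ] ℝ).smulRight (eb a.2))

/-- Lie derivative of a field of bilinear forms along the linear vector field `x ↦ J x`. -/
def lieX (J : E ι →L[ℝ] E ι) (u : E ι → Bil (E ι)) (x : E ι) : Bil (E ι) :=
  fderiv ℝ u x (J x) + (u x).comp J + (ContinuousLinearMap.compL ℝ (E ι) (E ι) ℝ).flip J ∘L (u x)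

@[simp] theorem lieX_apply (J : E ι →L[ℝ] E ι) (u : E ι → Bil (E ι)) (x v w : E ι) :
    lieX J u x v w = fderiv ℝ u x (J x) v w + u x (J v) w + u x v (J w) := rfl

/-- homogeneity of degree `-2` -/
def Homog (u : E ι → Bil (E ι)) : Prop :=
  ∀ c : ℝ, 0 < c → ∀ x ∈ Om ι, u (c • x) = (c ^ 2)⁻¹ • u x

/-- G7: the Ricci-DeTurck operator in terms of Lie derivatives along rotations. -/
def QStrStatement : Prop :=
  ∀ (ι : Type) [Fintype ι] [DecidableEq ι],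
    ∃ (c : E ι × Bil (E ι) → (ι × ι → ι × ι → Bil (E ι)) →L[ℝ] Bil (E ι))
      (Gf : E ι × Bil (E ι) × (ι × ι → Bil (E ι)) → Bil (E ι)) (r C : ℝ),
      ContDiff ℝ ∞ c ∧ ContDiff ℝ ∞ Gf ∧ 0 < r ∧
      (∀ x u, ‖x‖ = 1 → ‖u - del ι‖ ≤ r → ‖c (x, u)‖ ≤ C * ‖u - del ι‖) ∧
      ∀ u : E ι → Bil (E ι), IsMetricOn u (Om ι) → Homog u →
        ∀ x, ‖x‖ = 1 → ‖u x - del ι‖ ≤ r → ∀ v w, rdt u x v w =
          ((∑ a, lieX (Jst a) (lieX (Jst a) u) x)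
            + c (x, u x) (fun a b => lieX (Jst a) (lieX (Jst b) u) x)
            + Gf (x, u x, fun a => lieX (Jst a) u x)) v w

/-- The properties of the rotation system on `C(S, Bil)`. -/
structure IsRotSys (R : RotSys C(Sph ι, Bil (E ι)) (Gam ι) (ι × ι)) : Prop where
  T_apply : ∀ J s f (x y : Sph ι), (y : E ι) = rot J.1 s x →
    R.T J s f x = (f y).bilinearComp (rot J.1 s) (rot J.1 s)
  J_eq : ∀ a, (R.J a).1 = Jst a
  c_eq : ∀ (J : Gam ι) (a : ι × ι), R.c J a = (J.1 (eb a.2)) a.1 / √2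
  F_smooth : ∀ k, ∀ f ∈ R.F k, ∃ g : E ι → Bil (E ι), ContDiff ℝ ∞ g ∧ ∀ x : Sph ι, f x = g x

/-- N3: the rotation system exists. -/
def RotSysStatement : Prop :=
  ∀ (ι : Type) [Fintype ι] [DecidableEq ι],
    ∃ R : RotSys C(Sph ι, Bil (E ι)) (Gam ι) (ι × ι), IsRotSys R

/-- any two points of the sphere are joined by a short rotation -/
def RotPairStatement : Prop :=
  ∀ (ι : Type) [Fintype ι] [DecidableEq ι], 2 ≤ Fintype.card ι →
    (∀ (J : Gam ι) (s : ℝ) (x : E ι), ‖rot J.1 s x‖ = ‖x‖) ∧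
    (∀ (J : Gam ι) (s : ℝ) (x : E ι), ‖rot J.1 s x - x‖ ≤ |s| * ‖x‖) ∧
    ∀ x y : Sph ι, ∃ (J : Gam ι) (s : ℝ), 0 ≤ s ∧ s ≤ 3 * dist x y ∧ (y : E ι) = rot J.1 s x

variable (ι)

/-- pairs `(t,x), (t,x')` with weight `√|x-x'|` -/
def PS : PairSys (Icc (0:ℝ) 1 × Sph ι)
    {q : Icc (0:ℝ) 1 × Sph ι × Sph ι // q.2.1 ≠ q.2.2} where
  k := fun q => (q.1.1, q.1.2.1)
  k' := fun q => (q.1.1, q.1.2.2)
  w := fun q => √(dist q.1.2.1 q.1.2.2)
  w_pos := fun q => Real.sqrt_pos.2 (dist_pos.2 q.2)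

/-- Parabolic function space: continuous on `[0,1] × S`, Hölder-`1/2` in the space variable. -/
abbrev FT (Y : Type) [NormedAddCommGroup Y] [NormedSpace ℝ Y] : Type := LipSp (PS ι) Y

variable {ι}

/-- time slice -/
def sl {Y : Type} [NormedAddCommGroup Y] [NormedSpace ℝ Y] (p : FT ι Y) (t : Icc (0:ℝ) 1) :
    C(Sph ι, Y) := ⟨fun x => p (t, x), p.continuous.comp (by fun_prop)⟩

/-- The operators `K = (∂_t - T ∑ X_a²)⁻¹ T` (zero initial data) on `[0,1]`, and its derivatives. -/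
structure IsKop (R : RotSys C(Sph ι, Bil (E ι)) (Gam ι) (ι × ι)) (C T : ℝ)
    (K : FT ι (Bil (E ι)) →L[ℝ] FT ι (Bil (E ι)))
    (K1 : ι × ι → FT ι (Bil (E ι)) →L[ℝ] FT ι (Bil (E ι)))
    (K2 : ι × ι → ι × ι → FT ι (Bil (E ι)) →L[ℝ] FT ι (Bil (E ι))) : Prop where
  gen1 : ∀ p t a, R.HasGen (R.J a) (sl (K p) t) (sl (K1 a p) t)
  gen2 : ∀ p t a b, R.HasGen (R.J a) (sl (K1 b p) t) (sl (K2 a b p) t)
  init : ∀ p x, K p (⟨0, by simp⟩, x) = 0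
  eqn : ∀ p (t : Icc (0:ℝ) 1) x, HasDerivWithinAt
    (fun s : ℝ => K p (projIcc 0 1 zero_le_one s, x))
    (T • ((∑ a, K2 a a p (t, x)) + p (t, x))) (Icc 0 1) t
  norm_K : ∀ p, ‖K p‖ ≤ C * T ^ (1/4 : ℝ) * ‖p‖
  norm_K1 : ∀ a p, ‖K1 a p‖ ≤ C * T ^ (1/4 : ℝ) * ‖p‖
  norm_K2 : ∀ a b p, ‖K2 a b p‖ ≤ C * ‖p‖
  norm_K2' : ∀ a b p, ‖(K2 a b p).1.1‖ ≤ C * T ^ (1/4 : ℝ) * ‖p‖
  /-- `K` commutes with rotations -/
  rot : ∀ (J : Gam ι) s (p q : FT ι (Bil (E ι))),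
    (∀ t, sl q t = R.T J s (sl p t)) → ∀ t, sl (K q) t = R.T J s (sl (K p) t)
  /-- `K` commutes with invariant operators -/
  comm : ∀ B : C(Sph ι, Bil (E ι)) →L[ℝ] C(Sph ι, Bil (E ι)),
    (∀ J s f, B (R.T J s f) = R.T J s (B f)) → ∀ p, (∀ t, B (sl p t) = sl p t) →
    ∀ t, B (sl (K p) t) = sl (K p) t

/-- bounded operators commuting with the groups commute with the heat semigroup -/
def HeatCommStatement : Prop :=
  ∀ (𝓔 : Type) [NormedAddCommGroup 𝓔] [NormedSpace ℝ 𝓔] [CompleteSpace 𝓔]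
    (Γ A : Type) [Fintype A] (R : RotSys 𝓔 Γ A) (H : Heat R) (B : 𝓔 →L[ℝ] 𝓔),
    (∀ g s f, B (R.T g s f) = R.T g s (B f)) → ∀ t, 0 ≤ t → ∀ f, B (H.S t f) = H.S t (B f)

/-- N4: existence of the operators `K` with uniform constants. -/
def KopStatement : Prop :=
  ∀ (ι : Type) [Fintype ι] [DecidableEq ι], 2 ≤ Fintype.card ι →
    ∀ R : RotSys C(Sph ι, Bil (E ι)) (Gam ι) (ι × ι), IsRotSys R →
    ∃ C : ℝ, 0 < C ∧ ∀ T : ℝ, 0 < T → T ≤ 1 → ∃ K K1 K2, IsKop R C T K K1 K2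

/-- iterated rotation `T_{J₀}(s₀) T_{J₁}(s₁) ⋯ f` -/
def TT (R : RotSys C(Sph ι, Bil (E ι)) (Gam ι) (ι × ι)) :
    (m : ℕ) → (Fin m → Gam ι) → (Fin m → ℝ) → C(Sph ι, Bil (E ι)) → C(Sph ι, Bil (E ι))
  | 0, _, _, f => f
  | m + 1, J, s, f => R.T (J 0) (s 0) (TT R m (fun i => J i.succ) (fun i => s i.succ) f)

/-- the homogeneous extension of a time dependent function on the sphere -/
def hat (p : FT ι (Bil (E ι))) (t : ℝ) (x : E ι) : Bil (E ι) :=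
  if h : x ≠ 0 then (‖x‖ ^ 2)⁻¹ • p (projIcc 0 1 zero_le_one t, ⟨‖x‖⁻¹ • x, by
    simp [norm_smul, inv_mul_cancel₀ (norm_ne_zero_iff.2 h)]⟩) else 0

/-- N7: vectors that are smooth under all rotations are classically smooth in the space variable,
with all derivatives jointly continuous. -/
def RegStatement : Prop :=
  ∀ (ι : Type) [Fintype ι] [DecidableEq ι], 2 ≤ Fintype.card ι →
    ∀ R : RotSys C(Sph ι, Bil (E ι)) (Gam ι) (ι × ι), IsRotSys R →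
    ∀ p : FT ι (Bil (E ι)),
      (∀ (m : ℕ) (J : Fin m → Gam ι), ∃ q : (Fin m → ℝ) → FT ι (Bil (E ι)),
        ContDiffAt ℝ ∞ q 0 ∧ ∀ᶠ s in 𝓝 0, ∀ t, sl (q s) t = TT R m J s (sl p t)) →
      (∀ t ∈ Icc (0:ℝ) 1, ContDiffOn ℝ ∞ (hat p t) (Om ι)) ∧
      ∀ k : ℕ, ContinuousOn (fun q : ℝ × E ι => iteratedFDeriv ℝ k (hat p q.1) q.2)
        (Icc 0 1 ×ˢ Om ι)

end Pool.Agent.RF
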