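import Pool.Agent.Helper36_RF.Rot

/-!
# Smooth families of functions on the sphere (helper36, MP_a23110_gt)
-/

noncomputable section

open scoped ContDiff Topology RealInnerProductSpace
set_option maxSynthPendingDepth 3
set_option linter.unusedSectionVars false
open Set

namespace Pool.Agent.RF

variable {ι : Type} [Fintype ι] [DecidableEq ι]

/-- the coordinate function `(t,x) ↦ x` -/
def xi (ι : Type) [Fintype ι] [DecidableEq ι] : FT ι (E ι) :=
  LipSp.mk' ⟨fun q => (q.2 : E ι), by fun_prop⟩ 2 (by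
    intro i
    show ‖(i.1.2.1 : E ι) - (i.1.2.2 : E ι)‖ ≤ 2 * √(dist i.1.2.1 i.1.2.2)
    rw [← dist_eq_norm, ← Subtype.dist_eq]
    have h0 : 0 ≤ dist i.1.2.1 i.1.2.2 := dist_nonneg
    have h2 : dist i.1.2.1 i.1.2.2 ≤ 2 := by
      rw [Subtype.dist_eq, dist_eq_norm]
      refine (norm_sub_le _ _).trans ?_
      have h1 := mem_sphere_zero_iff_norm.1 i.1.2.1.2
      have h2 := mem_sphere_zero_iff_norm.1 i.1.2.2.2
      rw [h1, h2]; norm_num
    have h3 : √(dist i.1.2.1 i.1.2.2) ≤ 2 := by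
      rw [Real.sqrt_le_left (by norm_num)]; linarith
    calc dist i.1.2.1 i.1.2.2 = √(dist i.1.2.1 i.1.2.2) * √(dist i.1.2.1 i.1.2.2) :=
          (Real.mul_self_sqrt h0).symm
      _ ≤ 2 * √(dist i.1.2.1 i.1.2.2) := mul_le_mul_of_nonneg_right h3 (Real.sqrt_nonneg _))

@[simp] theorem xi_apply (q : Icc (0:ℝ) 1 × Sph ι) : xi ι q = (q.2 : E ι) := rfl

/-- a smooth cut-off vanishing near the origin and equal to one on the unit sphere -/
def chi (x : E ι) : ℝ := Real.smoothTransition (4 * ‖x‖ ^ 2 - 1)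

theorem contDiff_chi : ContDiff ℝ ∞ (chi : E ι → ℝ) :=
  Real.smoothTransition.contDiff.comp ((contDiff_const.mul (contDiff_norm_sq ℝ)).sub
    contDiff_const)

theorem chi_one {x : E ι} (hx : ‖x‖ = 1) : chi x = 1 := by
  unfold chi
  apply Real.smoothTransition.one_of_one_le
  rw [hx]; norm_num

theorem chi_zero {x : E ι} (hx : ‖x‖ ≤ 1/2) : chi x = 0 := by
  unfold chi
  apply Real.smoothTransition.zero_of_nonpos
  nlinarith [norm_nonneg x]

variable {P Y : Type} [NormedAddCommGroup P] [NormedSpace ℝ P] [NormedAddCommGroup Y]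
  [NormedSpace ℝ Y]

theorem exists_global (F : P × E ι → Y) (hF : ContDiffOn ℝ ∞ F (univ ×ˢ Om ι)) :
    ContDiff ℝ ∞ (fun q : P × E ι => chi q.2 • F q) := by
  rw [contDiff_iff_contDiffAt]
  intro q
  by_cases hq : q.2 = 0
  · have h1 : (fun q : P × E ι => chi q.2 • F q) =ᶠ[𝓝 q] fun _ => 0 := by
      have : {q : P × E ι | ‖q.2‖ < 1/2} ∈ 𝓝 q := by
        apply (isOpen_lt (continuous_snd.norm) continuous_const).mem_nhds
        simp [hq]
      filter_upwards [this] with p hp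
      rw [chi_zero (le_of_lt hp), zero_smul]
    exact contDiffAt_const.congr_of_eventuallyEq h1
  · have hopen : IsOpen ((univ : Set P) ×ˢ Om ι) := isOpen_univ.prod isOpen_ne
    exact ((contDiff_chi.comp contDiff_snd).contDiffAt).smul
      ((hF q ⟨trivial, hq⟩).contDiffAt (hopen.mem_nhds ⟨trivial, hq⟩))

/-- smooth families of fields restricted to the sphere are smooth curves in `FT` -/
theorem exists_family (hnem : NemStatement) [FiniteDimensional ℝ P]
    (F : P × E ι → Y) (hF : ContDiffOn ℝ ∞ F (univ ×ˢ Om ι)) :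
    ∃ Q : P → FT ι Y, ContDiff ℝ ∞ Q ∧ ∀ s t (x : Sph ι), Q s (t, x) = F (s, (x : E ι)) := by
  obtain ⟨N, hN1, hN2, -⟩ := hnem _ _ (PS ι) (P × E ι) Y _ (exists_global F hF)
  refine ⟨fun s => N (LipSp.mapL (ContinuousLinearMap.inl ℝ P (E ι)) (LipSp.constL s)
    + LipSp.mapL (ContinuousLinearMap.inr ℝ P (E ι)) (xi ι)), ?_, ?_⟩
  · apply hN2.comp
    apply ContDiff.add _ contDiff_const
    exact (LipSp.mapL (P := PS ι) (ContinuousLinearMap.inl ℝ P (E ι))).contDiff.comp
      (LipSp.constL (P := PS ι) (Y := P)).contDiff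
  · intro s t x
    rw [hN1]
    have hx : ‖(x : E ι)‖ = 1 := mem_sphere_zero_iff_norm.1 x.2
    simp [chi_one hx]

end Pool.Agent.RF
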